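import Pool.Agent.H944R2.H1
import Pool.Agent.Helper534.LS.P_sig_add
import Pool.Agent.Helper534.LS.P_tor_gen
import Pool.Agent.Helper534.LS.P_tor_vanish
import Pool.Agent.Helper534.LS.P_hh_unit0

/-! Homology of the circle and power maps. -/

open Pool.Agent.Helper534.LS

noncomputable section

namespace Pool.Agent.H944R2

variable {X Y Z : Type} [TopologicalSpace X] [TopologicalSpace Y] [TopologicalSpace Z]

theorem aug_bdry (X : Type) [TopologicalSpace X] (c : Sing X 1 →₀ ℤ) :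
    (Finsupp.lsum ℤ fun _ : Sing X 0 => (LinearMap.id : ℤ →ₗ[ℤ] ℤ)) (bdry X 0 c) = 0 := by
  have : (Finsupp.lsum ℤ fun _ : Sing X 0 => (LinearMap.id : ℤ →ₗ[ℤ] ℤ)) ∘ₗ bdry X 0 = 0 := by
    apply Finsupp.lhom_ext'
    intro τ
    apply LinearMap.ext_ring
    simp only [LinearMap.comp_apply, Finsupp.lsingle_apply, bdry, LinearMap.sum_apply,
      LinearMap.smul_apply, Finsupp.lmapDomain_apply, Finsupp.mapDomain_single, map_sum, map_smul,
      LinearMap.zero_apply]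
    rw [Fin.sum_univ_two]
    simp [Finsupp.lsum_apply, Finsupp.sum_single_index]
  exact LinearMap.congr_fun this c

theorem ptc_zsmul (x : X) (m : ℤ) (h : m • ptc x = 0) : m = 0 := by
  have h1 : ptc x = cls (Finsupp.single (ContinuousMap.const _ x : Sing X 0) (1 : ℤ))
      Submodule.mem_top := by
    have e1 : push (ContinuousMap.const Unit x) 0
            (Finsupp.single (ContinuousMap.const _ () : Sing Unit 0) (1 : ℤ)) =
            (Finsupp.single (ContinuousMap.const _ x : Sing X 0) (1 : ℤ)) := by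
      simp only [push, Finsupp.lmapDomain_apply, Finsupp.mapDomain_single]
      rfl
    change cls (push (ContinuousMap.const Unit x) 0 _) (push_mem_Cyc _ 0 _ Submodule.mem_top) = _
    unfold cls
    congr 1
    exact Subtype.ext e1
  rw [h1] at h
  have h2 : (Submodule.Quotient.mk (m • (⟨_, Submodule.mem_top⟩ : Cyc X 0)) : HH X 0) = 0 := h
  rw [Submodule.Quotient.mk_eq_zero] at h2
  obtain ⟨c, hc⟩ := h2
  have h3 := aug_bdry X c
  rw [hc] at h3
  have h4 : (Finsupp.lsum ℤ fun _ : Sing X 0 => (LinearMap.id : ℤ →ₗ[ℤ] ℤ))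
    (m • Finsupp.single (ContinuousMap.const _ x : Sing X 0) (1 : ℤ)) = 0 := h3
  simpa [Finsupp.lsum_apply, Finsupp.sum_single_index] using h4

theorem hmap_ptc (f : C(X, Y)) (x : X) : hmap f 0 (ptc x) = ptc (f x) := by
  unfold ptc
  rw [← hmap_comp]
  rfl

theorem ptU_eq : ptU = ptc () := by
  unfold ptc
  exact (hmap_id 0 ptU).symm

theorem tor1_zsmul (m : ℤ) (h : m • tor1 = 0) : m = 0 := by
  unfold tor1 at h
  rw [← map_zsmul] at h
  have := sig_inj Unit 0 _ h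
  rw [ptU_eq] at this
  exact ptc_zsmul () m this

/-- power maps -/
def pw (k : ℤ) : C(T1, T1) := ⟨fun p => (p.1 ^ k, ()), by fun_prop⟩

theorem pw_add (j k : ℤ) : hmap (pw (j + k)) 1 tor1 = hmap (pw j) 1 tor1 + hmap (pw k) 1 tor1 := by
  refine sig_add (Q := Unit) (Z := T1)
    ⟨fun p => (p.1 ^ j * p.2.1 ^ k, ()), by fun_prop⟩ (pw (j + k)) (pw j) (pw k) ?_ ?_ ?_ 0 ptU
  · intro p
    change (p.1 ^ (j + k), ()) = (p.1 ^ j * p.1 ^ k, ())
    rw [zpow_add]
  · intro p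
    change (p.1 ^ j, ()) = (p.1 ^ j * (1 : Circle) ^ k, ())
    rw [one_zpow, mul_one]
  · intro p
    change (p.1 ^ k, ()) = ((1 : Circle) ^ j * p.1 ^ k, ())
    rw [one_zpow, one_mul]

theorem pw_one : pw 1 = ContinuousMap.id T1 := by
  ext p
  change (((p.1 : Circle) ^ (1 : ℤ) : Circle) : ℂ) = p.1
  rw [zpow_one]

theorem pw_tor (k : ℤ) : hmap (pw k) 1 tor1 = k • tor1 := by
  let A : ℤ →+ HH T1 1 := AddMonoidHom.mk' (fun k => hmap (pw k) 1 tor1) pw_add
  have h1 : A 1 = tor1 := by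
    change hmap (pw 1) 1 tor1 = tor1
    rw [pw_one, hmap_id]
  have h2 : A k = k • A 1 := by
    rw [← map_zsmul]
    congr 1
    simp
  rw [h1] at h2
  exact h2

theorem T1_gen0 (x : HH T1 0) : ∃ m : ℤ, x = m • ptc (1, ()) := by
  obtain ⟨y, rfl⟩ := iota_surj0 Unit x
  obtain ⟨m, rfl⟩ := hh_unit0 y
  refine ⟨m, ?_⟩
  rw [map_zsmul, ptU_eq, hmap_ptc]
  rfl

/-! ### roots -/

/-- square root -/
def sq (z : ℂ) : ℂ := z ^ (2⁻¹ : ℂ)
/-- cube root -/
def cb (z : ℂ) : ℂ := z ^ (3⁻¹ : ℂ)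

theorem sq_sq (z : ℂ) : sq z ^ 2 = z := by
  rw [sq, ← Complex.cpow_nat_mul]; simp
theorem cb_cb (z : ℂ) : cb z ^ 3 = z := by
  rw [cb, ← Complex.cpow_nat_mul]; simp
theorem sq_one : sq 1 = 1 := Complex.one_cpow _
theorem cb_one : cb 1 = 1 := Complex.one_cpow _
theorem sq_ne {z : ℂ} (h : z ≠ 0) : sq z ≠ 0 := by
  intro h0
  have := sq_sq z
  rw [h0] at this
  exact h (by rw [← this]; simp)
theorem cb_ne {z : ℂ} (h : z ≠ 0) : cb z ≠ 0 := by
  intro h0
  have := cb_cb z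
  rw [h0] at this
  exact h (by rw [← this]; simp)
theorem sq_cont {f : X → ℂ} (hf : Continuous f) (h : ∀ x, 0 < (f x).re) :
    Continuous (fun x => sq (f x)) := Continuous.cpow hf continuous_const (fun x => Or.inl (h x))
theorem cb_cont {f : X → ℂ} (hf : Continuous f) (h : ∀ x, 0 < (f x).re) :
    Continuous (fun x => cb (f x)) := Continuous.cpow hf continuous_const (fun x => Or.inl (h x))
theorem ne_of_re {z : ℂ} (h : 0 < z.re) : z ≠ 0 := by
  rintro rfl
  simp at h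

/-- a point of the circle -/
def toC (w : ℂ) (h : ‖w‖ = 1) : Circle := ⟨w, mem_sphere_zero_iff_norm.2 h⟩

theorem toC_coe (w : ℂ) (h : ‖w‖ = 1) : (toC w h : ℂ) = w := rfl

theorem norm_of_pow {s w : ℂ} {n : ℕ} (hn : n ≠ 0) (hs : ‖s‖ = 1) (h : s * w ^ n = 1) : ‖w‖ = 1 := by
  have h1 := congrArg norm h
  rw [norm_mul, norm_pow, hs, one_mul, norm_one] at h1
  exact (pow_eq_one_iff_of_nonneg (norm_nonneg _) hn).1 h1

end Pool.Agent.H944R2
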