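import Pool.Agent.H944R2.Surf
import Pool.Agent.H944R2.H2

/-! The two charts of the elliptic surface. -/

open Filter Topology Set
open scoped LinearAlgebra.Projectivization
open Pool.Agent.Helper10.UC (PP)

noncomputable section

namespace Pool.Agent.H944R2

/-- lifts of points of `CC` -/
abbrev CT : Set ({v : Fin 3 → ℂ // v ≠ 0} × ℂ) := (Prod.map (mkP (ι := Fin 3)) (id : ℂ → ℂ)) ⁻¹' CC

/-- the quotient map -/
def qC : CT → CC := CC.restrictPreimage (Prod.map (mkP (ι := Fin 3)) (id : ℂ → ℂ))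

theorem qC_oq : IsOpenQuotientMap qC :=
  (mkP_oq.prodMap IsOpenQuotientMap.id).restrictPreimage CC

theorem CT_cub (q : CT) : Cub q.1.1.1 q.1.2 := mem_CC.1 q.2

/-- homogeneous functions -/
theorem rep_fun {Z : Type} (F : (Fin 3 → ℂ) → ℂ → Z)
    (hF : ∀ (l : ℂ), l ≠ 0 → ∀ v t, F (l • v) t = F v t) (q : CT) :
    F (qC q).1.1.rep (qC q).1.2 = F q.1.1.1 q.1.2 := by
  obtain ⟨l, hl, h⟩ := rep_mkP q.1.1
  change F (mkP q.1.1).rep q.1.2 = _
  rw [h, hF l hl]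

theorem CC_cub (c : CC) : Cub c.1.1.rep c.1.2 := c.2

theorem rep_ne (c : CC) : c.1.1.rep ≠ 0 := c.1.1.rep_nonzero

theorem mkP_rep (x : PP (Fin 3)) : mkP ⟨x.rep, x.rep_nonzero⟩ = x := x.mk_rep

theorem CC_ext {c : CC} {v : {v : Fin 3 → ℂ // v ≠ 0}} {t : ℂ} (h : (mkP v, t) ∈ CC)
    (l : ℂ) (hl : v.1 = l • c.1.1.rep) (ht : t = c.1.2) : (⟨(mkP v, t), h⟩ : CC) = c := by
  apply Subtype.ext
  refine Prod.ext ?_ ht
  change mkP v = c.1.1
  rw [← mkP_rep c.1.1, mkP_eq_iff]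
  exact ⟨l, hl⟩

/-! ### the affine chart -/

/-- the affine part -/
def AA : Set CC := {c | c.1.1.rep 2 ≠ 0}

theorem qC_AA (q : CT) : qC q ∈ AA ↔ q.1.1.1 2 ≠ 0 := by
  obtain ⟨l, hl, h⟩ := rep_mkP q.1.1
  change (mkP q.1.1).rep 2 ≠ 0 ↔ _
  rw [h, Pi.smul_apply, smul_eq_mul]
  constructor
  · intro h1 h2; exact h1 (by rw [h2, mul_zero])
  · intro h1; exact mul_ne_zero hl h1

theorem lift_cont (k : Fin 3) : Continuous (fun q : CT => q.1.1.1 k) :=
  (continuous_apply k).comp (continuous_subtype_val.comp (continuous_fst.comp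
    continuous_subtype_val))

theorem AA_open : IsOpen AA := by
  rw [← qC_oq.isQuotientMap.isOpen_preimage]
  have : qC ⁻¹' AA = {q : CT | q.1.1.1 2 ≠ 0} := by
    ext q; exact qC_AA q
  rw [this]
  exact isOpen_ne_fun (lift_cont 2) continuous_const

theorem qA_oq : IsOpenQuotientMap (AA.restrictPreimage qC) := qC_oq.restrictPreimage AA

/-- the inverse of the affine chart -/
def pA (p : ℂ × ℂ) : CC :=
  ⟨(mkP ⟨![p.1, p.2, 1], fun h => one_ne_zero (congrFun h 2)⟩, p.1 ^ 2 + p.2 ^ 3), mem_CC.2 (by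
    change p.1 ^ 2 * 1 + p.2 ^ 3 = (p.1 ^ 2 + p.2 ^ 3) * 1 ^ 3
    ring)⟩

theorem pA_cont : Continuous pA := by
  refine Continuous.subtype_mk (Continuous.prodMk ?_ (by fun_prop)) _
  refine mkP_oq.continuous.comp (Continuous.subtype_mk ?_ _)
  refine continuous_pi fun k => ?_
  fin_cases k
  · exact continuous_fst
  · exact continuous_snd
  · exact continuous_const

theorem pA_mem (p : ℂ × ℂ) : pA p ∈ AA := by
  have := (qC_AA ⟨(⟨![p.1, p.2, 1], fun h => one_ne_zero (congrFun h 2)⟩, p.1 ^ 2 + p.2 ^ 3),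
    (pA p).2⟩).2
  exact this one_ne_zero

/-- the affine chart -/
def hA : AA ≃ₜ ℂ × ℂ where
  toFun c := (c.1.1.1.rep 0 / c.1.1.1.rep 2, c.1.1.1.rep 1 / c.1.1.1.rep 2)
  invFun p := ⟨pA p, pA_mem p⟩
  left_inv := by
    intro c
    have h2 : c.1.1.1.rep 2 ≠ 0 := c.2
    have hc := CC_cub c.1
    unfold Cub at hc
    apply Subtype.ext
    refine CC_ext _ (c.1.1.1.rep 2)⁻¹ ?_ ?_
    · funext k
      fin_cases k
      · change c.1.1.1.rep 0 / c.1.1.1.rep 2 = (c.1.1.1.rep 2)⁻¹ * c.1.1.1.rep 0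
        field_simp
      · change c.1.1.1.rep 1 / c.1.1.1.rep 2 = (c.1.1.1.rep 2)⁻¹ * c.1.1.1.rep 1
        field_simp
      · change (1 : ℂ) = (c.1.1.1.rep 2)⁻¹ * c.1.1.1.rep 2
        field_simp
    · change (c.1.1.1.rep 0 / c.1.1.1.rep 2) ^ 2 + (c.1.1.1.rep 1 / c.1.1.1.rep 2) ^ 3 = c.1.1.2
      field_simp
      linear_combination hc
  right_inv := by
    intro p
    obtain ⟨l, hl, h⟩ := rep_mkP (ι := Fin 3)
      ⟨![p.1, p.2, 1], fun h => one_ne_zero (congrFun h 2)⟩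
    change ((mkP (ι := Fin 3) _).rep 0 / (mkP (ι := Fin 3) _).rep 2,
      (mkP (ι := Fin 3) _).rep 1 / (mkP (ι := Fin 3) _).rep 2) = p
    rw [h]
    refine Prod.ext ?_ ?_
    · change l * p.1 / (l * 1) = p.1
      field_simp
    · change l * p.2 / (l * 1) = p.2
      field_simp
  continuous_toFun := by
    rw [← qA_oq.continuous_comp_iff]
    have : (fun c : AA => ((c.1.1.1.rep 0 / c.1.1.1.rep 2, c.1.1.1.rep 1 / c.1.1.1.rep 2) : ℂ × ℂ)) ∘
        AA.restrictPreimage qC = fun q : qC ⁻¹' AA =>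
          (q.1.1.1.1 0 / q.1.1.1.1 2, q.1.1.1.1 1 / q.1.1.1.1 2) := by
      funext q
      exact rep_fun (fun v _ => (v 0 / v 2, v 1 / v 2)) (by
        intro l hl v t
        simp only [Pi.smul_apply, smul_eq_mul]
        rw [mul_div_mul_left _ _ hl, mul_div_mul_left _ _ hl]) q.1
    change Continuous ((fun c : AA => ((c.1.1.1.rep 0 / c.1.1.1.rep 2,
      c.1.1.1.rep 1 / c.1.1.1.rep 2) : ℂ × ℂ)) ∘ AA.restrictPreimage qC)
    rw [this]
    have h0 := (lift_cont 0).comp (continuous_subtype_val (p := fun q => q ∈ qC ⁻¹' AA))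
    have h1 := (lift_cont 1).comp (continuous_subtype_val (p := fun q => q ∈ qC ⁻¹' AA))
    have h2 := (lift_cont 2).comp (continuous_subtype_val (p := fun q => q ∈ qC ⁻¹' AA))
    exact (h0.div h2 fun q => (qC_AA q.1).1 q.2).prodMk (h1.div h2 fun q => (qC_AA q.1).1 q.2)
  continuous_invFun := pA_cont.subtype_mk _

theorem hA_symm_t (p : ℂ × ℂ) : (hA.symm p).1.1.2 = p.1 ^ 2 + p.2 ^ 3 := rfl

theorem hA_t (c : AA) : c.1.1.2 = (hA c).1 ^ 2 + (hA c).2 ^ 3 := by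
  rw [← hA_symm_t, hA.symm_apply_apply]

/-! ### the chart at infinity -/

/-- auxiliary -/
def ww (v : Fin 3 → ℂ) (t : ℂ) : ℂ := 1 - t * v 2 ^ 2 / v 0 ^ 2

theorem ww_smul {l : ℂ} (hl : l ≠ 0) (v : Fin 3 → ℂ) (t : ℂ) : ww (l • v) t = ww v t := by
  unfold ww
  simp only [Pi.smul_apply, smul_eq_mul]
  rw [mul_pow, mul_pow, mul_left_comm, mul_div_mul_left _ _ (pow_ne_zero 2 hl)]

/-- the neighbourhood of infinity -/
def NN : Set CC := {c | c.1.1.rep 0 ≠ 0 ∧ 0 < (ww c.1.1.rep c.1.2).re}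

theorem qC_NN (q : CT) : qC q ∈ NN ↔ q.1.1.1 0 ≠ 0 ∧ 0 < (ww q.1.1.1 q.1.2).re := by
  obtain ⟨l, hl, h⟩ := rep_mkP q.1.1
  change ((mkP q.1.1).rep 0 ≠ 0 ∧ 0 < (ww (mkP q.1.1).rep q.1.2).re) ↔ _
  rw [h, ww_smul hl, Pi.smul_apply, smul_eq_mul]
  refine and_congr_left fun _ => ?_
  constructor
  · intro h1 h2; exact h1 (by rw [h2, mul_zero])
  · intro h1; exact mul_ne_zero hl h1

theorem NN_open : IsOpen NN := by
  rw [← qC_oq.isQuotientMap.isOpen_preimage]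
  have : qC ⁻¹' NN = {q : CT | q.1.1.1 0 ≠ 0 ∧ 0 < (ww q.1.1.1 q.1.2).re} := by
    ext q; exact qC_NN q
  rw [this, isOpen_iff_mem_nhds]
  rintro q ⟨h1, h2⟩
  have c0 := (lift_cont 0).continuousAt (x := q)
  have c2 := (lift_cont 2).continuousAt (x := q)
  have ct : ContinuousAt (fun q : CT => q.1.2) q := by fun_prop
  have cw : ContinuousAt (fun q : CT => (ww q.1.1.1 q.1.2).re) q := by
    unfold ww
    exact Complex.continuous_re.continuousAt.comp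
      (continuousAt_const.sub ((ct.mul (c2.pow 2)).div (c0.pow 2) (pow_ne_zero 2 h1)))
  filter_upwards [c0.eventually_ne h1, cw.eventually (lt_mem_nhds h2)] with q' h3 h4
  exact ⟨h3, h4⟩

theorem cov_C (c : CC) : c ∈ AA ∨ c ∈ NN := by
  by_cases h : c.1.1.rep 2 = 0
  · right
    refine ⟨Cub_ne (rep_ne c) (CC_cub c) h, ?_⟩
    unfold ww
    rw [h]
    simp
  · exact Or.inl h

theorem qN_oq : IsOpenQuotientMap (NN.restrictPreimage qC) := qC_oq.restrictPreimage NN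

/-- the domain of the parametrisation at infinity -/
abbrev ND : Type := {p : ℂ × ℂ // 0 < (1 + p.2 * p.1 ^ 6).re}

/-- homogeneous coordinates of the point with parameters `s, t` -/
def vN (p : ℂ × ℂ) : Fin 3 → ℂ := ![sq (1 + p.2 * p.1 ^ 6), -p.1, p.1 ^ 3]

theorem vN_ne (p : ND) : vN p.1 ≠ 0 := by
  intro h
  exact sq_ne (ne_of_re p.2) (congrFun h 0)

theorem vN_cub (p : ℂ × ℂ) : Cub (vN p) p.2 := by
  change sq (1 + p.2 * p.1 ^ 6) ^ 2 * p.1 ^ 3 + (-p.1) ^ 3 = p.2 * (p.1 ^ 3) ^ 3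
  rw [sq_sq]; ring

theorem re_inv_pos {z : ℂ} (h : 0 < z.re) : 0 < (z⁻¹).re := by
  rw [Complex.inv_re]
  exact div_pos h (Complex.normSq_pos.2 (ne_of_re h))

theorem sq_inv {z : ℂ} (h : 0 < z.re) : sq z⁻¹ = (sq z)⁻¹ := by
  unfold sq
  apply Complex.inv_cpow
  intro h1
  have := (Complex.arg_eq_pi_iff.1 h1).1
  linarith

theorem ww_vN (p : ND) : ww (vN p.1) p.1.2 = (1 + p.1.2 * p.1.1 ^ 6)⁻¹ := by
  change 1 - p.1.2 * (p.1.1 ^ 3) ^ 2 / sq (1 + p.1.2 * p.1.1 ^ 6) ^ 2 = _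
  rw [sq_sq]
  have := ne_of_re p.2
  field_simp
  ring

/-- the parametrisation at infinity -/
def pN (p : ND) : CC := ⟨(mkP ⟨vN p.1, vN_ne p⟩, p.1.2), mem_CC.2 (vN_cub p.1)⟩

theorem pN_cont : Continuous pN := by
  refine Continuous.subtype_mk (Continuous.prodMk ?_ (by fun_prop)) _
  refine mkP_oq.continuous.comp (Continuous.subtype_mk ?_ _)
  refine continuous_pi fun k => ?_
  fin_cases k
  · exact sq_cont (f := fun p : ND => 1 + p.1.2 * p.1.1 ^ 6) (by fun_prop) (fun p => p.2)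
  · change Continuous (fun p : ND => -p.1.1)
    fun_prop
  · change Continuous (fun p : ND => p.1.1 ^ 3)
    fun_prop

theorem pN_mem (p : ND) : pN p ∈ NN := by
  have := (qC_NN ⟨(⟨vN p.1, vN_ne p⟩, p.1.2), (pN p).2⟩).2
  refine this ⟨sq_ne (ne_of_re p.2), ?_⟩
  change 0 < (ww (vN p.1) p.1.2).re
  rw [ww_vN]
  exact re_inv_pos p.2

/-- the parameter `s` -/
def ssC (v : Fin 3 → ℂ) (t : ℂ) : ℂ := - v 1 / (v 0 * sq (ww v t))

theorem ssC_smul {l : ℂ} (hl : l ≠ 0) (v : Fin 3 → ℂ) (t : ℂ) : ssC (l • v) t = ssC v t := by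
  unfold ssC
  rw [ww_smul hl]
  simp only [Pi.smul_apply, smul_eq_mul]
  rw [← mul_neg, mul_assoc, mul_div_mul_left _ _ hl]

/-- the relations between the parameters -/
theorem ssC_rel {v : Fin 3 → ℂ} {t : ℂ} (hc : Cub v t) (h0 : v 0 ≠ 0) (hw : 0 < (ww v t).re) :
    v 2 = (v 0 * sq (ww v t)) * ssC v t ^ 3 ∧ 1 + t * ssC v t ^ 6 = (ww v t)⁻¹ := by
  have hw0 := ne_of_re hw
  have hs := sq_ne hw0
  have hs2 := sq_sq (ww v t)
  have hl0 : v 0 * sq (ww v t) ≠ 0 := mul_ne_zero h0 hs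
  have hl2 : (v 0 * sq (ww v t)) ^ 2 = v 0 ^ 2 - t * v 2 ^ 2 := by
    rw [mul_pow, hs2, ww]
    field_simp
  unfold Cub at hc
  have h1 : v 2 * (v 0 * sq (ww v t)) ^ 2 = - v 1 ^ 3 := by
    rw [hl2]; linear_combination hc
  have h2 : v 2 = (v 0 * sq (ww v t)) * ssC v t ^ 3 := by
    unfold ssC
    generalize v 0 * sq (ww v t) = L at h1 hl0
    field_simp
    linear_combination h1
  refine ⟨h2, ?_⟩
  have h3 : ssC v t ^ 6 * (v 0 * sq (ww v t)) ^ 2 = v 2 ^ 2 := by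
    linear_combination (-(v 2 + v 0 * sq (ww v t) * ssC v t ^ 3)) * h2
  have h4 : (ww v t) * (1 + t * ssC v t ^ 6) = 1 := by
    have h5 : v 0 ^ 2 * (ww v t) = v 0 ^ 2 - t * v 2 ^ 2 := by
      rw [ww]; field_simp
    rw [mul_pow, hs2] at h3
    apply mul_left_cancel₀ (pow_ne_zero 2 h0)
    linear_combination h5 + t * h3
  exact eq_inv_of_mul_eq_one_right h4

/-- the chart at infinity -/
def hN : NN ≃ₜ ND where
  toFun c := ⟨(ssC c.1.1.1.rep c.1.1.2, c.1.1.2), by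
    rw [(ssC_rel (CC_cub c.1) c.2.1 c.2.2).2]
    exact re_inv_pos c.2.2⟩
  invFun p := ⟨pN p, pN_mem p⟩
  left_inv := by
    intro c
    obtain ⟨h0, hw⟩ := c.2
    obtain ⟨e1, e2⟩ := ssC_rel (CC_cub c.1) h0 hw
    have hs := sq_ne (ne_of_re hw)
    apply Subtype.ext
    refine CC_ext _ (c.1.1.1.rep 0 * sq (ww c.1.1.1.rep c.1.1.2))⁻¹ ?_ rfl
    funext k
    fin_cases k
    · change sq (1 + c.1.1.2 * ssC c.1.1.1.rep c.1.1.2 ^ 6) =
        (c.1.1.1.rep 0 * sq (ww c.1.1.1.rep c.1.1.2))⁻¹ * c.1.1.1.rep 0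
      rw [e2, sq_inv hw]
      field_simp
    · change - ssC c.1.1.1.rep c.1.1.2 =
        (c.1.1.1.rep 0 * sq (ww c.1.1.1.rep c.1.1.2))⁻¹ * c.1.1.1.rep 1
      unfold ssC
      field_simp
    · change ssC c.1.1.1.rep c.1.1.2 ^ 3 =
        (c.1.1.1.rep 0 * sq (ww c.1.1.1.rep c.1.1.2))⁻¹ * c.1.1.1.rep 2
      rw [eq_inv_mul_iff_mul_eq₀ (mul_ne_zero h0 hs)]
      exact e1.symm
  right_inv := by
    intro p
    apply Subtype.ext
    refine Prod.ext ?_ rfl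
    obtain ⟨l, hl, h⟩ := rep_mkP (ι := Fin 3) ⟨vN p.1, vN_ne p⟩
    change ssC (mkP (ι := Fin 3) _).rep p.1.2 = p.1.1
    rw [h, ssC_smul hl]
    change - (- p.1.1) / (sq (1 + p.1.2 * p.1.1 ^ 6) * sq (ww (vN p.1) p.1.2)) = p.1.1
    rw [ww_vN, sq_inv p.2, mul_inv_cancel₀ (sq_ne (ne_of_re p.2)), neg_neg, div_one]
  continuous_toFun := by
    refine Continuous.subtype_mk (Continuous.prodMk ?_ (by fun_prop)) _
    rw [← qN_oq.continuous_comp_iff]
    have : (fun c : NN => ssC c.1.1.1.rep c.1.1.2) ∘ NN.restrictPreimage qC =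
        fun q : qC ⁻¹' NN => ssC q.1.1.1.1 q.1.1.2 := by
      funext q
      exact rep_fun (fun v t => ssC v t) (fun l hl v t => ssC_smul hl v t) q.1
    rw [this]
    have h0 := (lift_cont 0).comp (continuous_subtype_val (p := fun q => q ∈ qC ⁻¹' NN))
    have h1 := (lift_cont 1).comp (continuous_subtype_val (p := fun q => q ∈ qC ⁻¹' NN))
    have h2 := (lift_cont 2).comp (continuous_subtype_val (p := fun q => q ∈ qC ⁻¹' NN))
    have ht : Continuous (fun q : qC ⁻¹' NN => q.1.1.2) := by fun_prop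
    have hw : Continuous (fun q : qC ⁻¹' NN => ww q.1.1.1.1 q.1.1.2) := by
      unfold ww
      exact continuous_const.sub ((ht.mul (h2.pow 2)).div (h0.pow 2) fun q =>
        pow_ne_zero 2 ((qC_NN q.1).1 q.2).1)
    unfold ssC
    exact h1.neg.div (h0.mul (sq_cont hw fun q => ((qC_NN q.1).1 q.2).2)) fun q =>
      mul_ne_zero ((qC_NN q.1).1 q.2).1 (sq_ne (ne_of_re ((qC_NN q.1).1 q.2).2))
  continuous_invFun := pN_cont.subtype_mk _

theorem hN_t (c : NN) : (hN c).1.2 = c.1.1.2 := rfl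

theorem hN_symm_t (p : ND) : (hN.symm p).1.1.2 = p.1.2 := rfl

theorem hN_AA (c : NN) : c.1 ∈ AA ↔ (hN c).1.1 ≠ 0 := by
  have h0 := c.2.1
  have hw := c.2.2
  obtain ⟨e1, -⟩ := ssC_rel (CC_cub c.1) h0 hw
  change c.1.1.1.rep 2 ≠ 0 ↔ ssC c.1.1.1.rep c.1.1.2 ≠ 0
  constructor
  · intro h h2
    apply h
    rw [e1, h2]; simp
  · intro h
    rw [e1]
    exact mul_ne_zero (mul_ne_zero h0 (sq_ne (ne_of_re hw))) (pow_ne_zero 3 h)

end Pool.Agent.H944R2
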