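import Pool.Agent.H944R2.H3

/-! The space `σ (u² + v³) = 1` has the homology of a circle. -/

open Pool.Agent.Helper534.LS

noncomputable section

namespace Pool.Agent.H944R2

theorem iso_e1 : IsoH e1 := IsoH.of_equiv e1 r1 (by rw [r1_e1]) e1_r1
theorem iso_e2 : IsoH e2 := IsoH.of_equiv e2 r2 (by rw [r2_e2]) e2_r2
theorem iso_e3 : IsoH e3 := IsoH.of_equiv e3 r3 (by rw [r3_e3]) e3_r3

theorem inl_e3 (n : ℕ) (x : HH T1 n) :
    hmap (inl W1 W2) n (hmap e3 n x) = hmap e1 n (hmap (pw 2) n x) := by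
  rw [← r1_inl_e3, hmap_comp, hmap_comp, ← hmap_comp r1 e1, hmap_homotopic _ _ e1_r1, hmap_id]

theorem inr_e3 (n : ℕ) (x : HH T1 n) :
    hmap (inr W1 W2) n (hmap e3 n x) = hmap e2 n (hmap (pw 3) n x) := by
  rw [← r2_inr_e3, hmap_comp, hmap_comp, ← hmap_comp r2 e2, hmap_homotopic _ _ e2_r2, hmap_id]

theorem f_e1 (n : ℕ) (x : HH T1 n) :
    hmap fM n (hmap (sub W1) n (hmap e1 n x)) = hmap (pw (-3)) n x := by
  rw [← fM_e1, hmap_comp, hmap_comp]

theorem f_e2 (n : ℕ) (x : HH T1 n) :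
    hmap fM n (hmap (sub W2) n (hmap e2 n x)) = hmap (pw (-2)) n x := by
  rw [← fM_e2, hmap_comp, hmap_comp]

theorem pw_pt (k : ℤ) : hmap (pw k) 0 (ptc (1, ())) = ptc (1, ()) := by
  rw [hmap_ptc]
  change ptc ((1 : Circle) ^ k, ()) = _
  rw [one_zpow]

theorem MM_two (n : ℕ) (x : HH MM (n + 2)) : x = 0 := by
  have hv : ∀ y : HH T1 (n + 2), y = 0 := (tor_vanish n).2.1
  have h1 : delta W1 W2 (n + 1) x = 0 := by
    obtain ⟨y, hy⟩ := (iso_e3 (n + 1)).2 (delta W1 W2 (n + 1) x)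
    have h2 := (mv_delta_inl W1 W2 W1_open W2_open W_cov (n + 1) x).1
    rw [← hy, inl_e3] at h2
    have h3 : hmap (pw 2) (n + 1) y = 0 := (iso_e1 (n + 1)).1 (by rw [h2, map_zero])
    cases n with
    | zero =>
      obtain ⟨m, rfl⟩ := tor_gen.1 y
      rw [map_zsmul, pw_tor, smul_smul] at h3
      have h4 := tor1_zsmul _ h3
      have h5 : m = 0 := by omega
      rw [← hy, h5, zero_smul, map_zero]
    | succ n =>
      have h4 : y = 0 := (tor_vanish n).2.1 y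
      rw [← hy, h4, map_zero]
  obtain ⟨u, v, rfl⟩ := mv_exact1 W1 W2 W1_open W2_open W_cov (n + 1) x h1
  obtain ⟨a, rfl⟩ := (iso_e1 (n + 2)).2 u
  obtain ⟨b, rfl⟩ := (iso_e2 (n + 2)).2 v
  rw [hv a, hv b, map_zero, map_zero, map_zero, map_zero, add_zero]

theorem iso_fM : IsoH fM := by
  intro n
  match n with
  | 0 =>
    have hpt : hmap (sub W1) 0 (hmap e1 0 (ptc (1, ()))) =
        hmap (sub W2) 0 (hmap e2 0 (ptc (1, ()))) := by
      have h1 := inl_e3 0 (ptc (1, ()))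
      have h2 := inr_e3 0 (ptc (1, ()))
      rw [pw_pt] at h1 h2
      rw [← h1, ← h2]
      exact sub_inl W1 W2 0 _
    constructor
    · rw [injective_iff_map_eq_zero]
      intro x hx
      obtain ⟨u, v, rfl⟩ := mv0 W1 W2 W_cov x
      obtain ⟨a, rfl⟩ := (iso_e1 0).2 u
      obtain ⟨b, rfl⟩ := (iso_e2 0).2 v
      obtain ⟨p, rfl⟩ := T1_gen0 a
      obtain ⟨q, rfl⟩ := T1_gen0 b
      rw [map_add, f_e1, f_e2, map_zsmul, map_zsmul, pw_pt, pw_pt, ← add_smul] at hx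
      have h3 := ptc_zsmul _ _ hx
      simp only [map_zsmul]
      rw [hpt, ← add_smul, h3, zero_smul]
    · intro y
      obtain ⟨p, rfl⟩ := T1_gen0 y
      refine ⟨hmap (sub W1) 0 (hmap e1 0 (p • ptc (1, ()))), ?_⟩
      rw [f_e1, map_zsmul, pw_pt]
  | 1 =>
    constructor
    · rw [injective_iff_map_eq_zero]
      intro x hx
      have h1 : delta W1 W2 0 x = 0 := by
        obtain ⟨y, hy⟩ := (iso_e3 0).2 (delta W1 W2 0 x)
        have h2 := (mv_delta_inl W1 W2 W1_open W2_open W_cov 0 x).1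
        rw [← hy, inl_e3] at h2
        have h3 : hmap (pw 2) 0 y = 0 := (iso_e1 0).1 (by rw [h2, map_zero])
        obtain ⟨m, rfl⟩ := T1_gen0 y
        rw [map_zsmul, pw_pt] at h3
        have h4 := ptc_zsmul _ _ h3
        rw [← hy, h4, zero_smul, map_zero]
      obtain ⟨u, v, rfl⟩ := mv_exact1 W1 W2 W1_open W2_open W_cov 0 x h1
      obtain ⟨a, rfl⟩ := (iso_e1 1).2 u
      obtain ⟨b, rfl⟩ := (iso_e2 1).2 v
      obtain ⟨p, rfl⟩ := tor_gen.1 a
      obtain ⟨q, rfl⟩ := tor_gen.1 b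
      have e : (0 + 1 : ℕ) = 1 := rfl
      rw [map_add] at hx
      have hx' : hmap fM 1 (hmap (sub W1) 1 (hmap e1 1 (p • tor1))) +
        hmap fM 1 (hmap (sub W2) 1 (hmap e2 1 (q • tor1))) = 0 := hx
      rw [f_e1, f_e2, map_zsmul, map_zsmul, pw_tor, pw_tor, smul_smul, smul_smul, ← add_smul] at hx'
      have h3 := tor1_zsmul _ hx'
      obtain ⟨c, hc⟩ : ∃ c : ℤ, p = 2 * c := ⟨-(p + q), by omega⟩
      have hq : q = -(3 * c) := by omega
      have h4 := inl_e3 1 tor1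
      have h5 := inr_e3 1 tor1
      have h6 := sub_inl W1 W2 1 (hmap e3 1 tor1)
      rw [h4, h5, pw_tor, pw_tor, map_zsmul, map_zsmul, map_zsmul, map_zsmul] at h6
      change hmap (sub W1) 1 (hmap e1 1 (p • tor1)) + hmap (sub W2) 1 (hmap e2 1 (q • tor1)) = 0
      rw [map_zsmul, map_zsmul, map_zsmul, map_zsmul, hc, hq, mul_comm 2 c, mul_smul, h6, smul_smul,
        ← add_smul]
      have h7 : c * 3 + -(3 * c) = 0 := by ring
      rw [h7, zero_smul]
    · intro y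
      obtain ⟨p, rfl⟩ := tor_gen.1 y
      refine ⟨hmap (sub W1) 1 (hmap e1 1 ((-p) • tor1)) + hmap (sub W2) 1 (hmap e2 1 (p • tor1)), ?_⟩
      rw [map_add, f_e1, f_e2, map_zsmul, map_zsmul, pw_tor, pw_tor, smul_smul, smul_smul,
        ← add_smul]
      congr 1
      ring
  | n + 2 =>
    constructor
    · intro x y _
      rw [MM_two n x, MM_two n y]
    · intro y
      exact ⟨0, by rw [map_zero]; exact ((tor_vanish n).2.1 y).symm⟩

end Pool.Agent.H944R2
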