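import Pool.Agent.H944R2.C1
import Pool.Agent.H944R2.H4

/-! Fibres of `σ τ` on `S¹ × 𝒞`: comparison of the homology of the pieces. -/

open Filter Topology Set
open Pool.Agent.Helper534.LS

noncomputable section

namespace Pool.Agent.H944R2

theorem square {X X' Y Y' : Type} [TopologicalSpace X] [TopologicalSpace X'] [TopologicalSpace Y]
    [TopologicalSpace Y'] (f : C(X, Y)) (g : C(X', Y')) (a : C(X, X')) (b : C(Y, Y'))
    (h : ∀ x, b (f x) = g (a x)) (ha : IsoH a) (hb : IsoH b) (hg : IsoH g) : IsoH f := by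
  refine IsoH.of_comp_left hb ?_
  have : b.comp f = g.comp a := ContinuousMap.ext h
  rw [this]
  exact hg.comp ha

/-! ### the base pieces -/

/-- `{(σ, t) : σ t ∈ T}` -/
abbrev BT (T : Set ℂ) : Type := {p : Circle × ℂ // (p.1 : ℂ) * p.2 ∈ T}

theorem coeC_cont {X : Type} [TopologicalSpace X] {f : X → Circle} (hf : Continuous f) :
    Continuous (fun x => (f x : ℂ)) := coe_continuous.comp hf

theorem iso_BT (T : Set ℂ) (y₀ : ℂ) (h0 : y₀ ∈ T)
    (hT : ∀ z ∈ T, ∀ r : ℝ, 0 ≤ r → r ≤ 1 → (r : ℂ) * z + (1 - r) * y₀ ∈ T)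
    (f : C(BT T, T1)) (hf : ∀ x, f x = (x.1.1, ())) : IsoH f := by
  have hinv : ∀ σ : Circle, (σ : ℂ) * (((σ⁻¹ : Circle) : ℂ) * y₀) = y₀ := by
    intro σ
    rw [← mul_assoc, ← Circle.coe_mul, mul_inv_cancel, Circle.coe_one, one_mul]
  have hc : Continuous (fun p : T1 => ((p.1⁻¹ : Circle) : ℂ)) :=
    coeC_cont (continuous_fst.inv)
  let g : C(T1, BT T) := ⟨fun p => ⟨(p.1, ((p.1⁻¹ : Circle) : ℂ) * y₀), by
    change (p.1 : ℂ) * (((p.1⁻¹ : Circle) : ℂ) * y₀) ∈ T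
    rw [hinv]; exact h0⟩, by
    refine Continuous.subtype_mk ?_ _
    exact continuous_fst.prodMk (hc.mul continuous_const)⟩
  refine IsoH.of_equiv f g ?_ ?_
  · refine htp (fun q => ⟨(q.2.1.1, ((q.1 : ℝ) : ℂ) * q.2.1.2 +
      (1 - ((q.1 : ℝ) : ℂ)) * (((q.2.1.1⁻¹ : Circle) : ℂ) * y₀)), ?_⟩) ?_ ?_ ?_
    · have h1 := hT _ q.2.2 q.1 q.1.2.1 q.1.2.2
      have h2 := hinv q.2.1.1
      change (q.2.1.1 : ℂ) * (((q.1 : ℝ) : ℂ) * q.2.1.2 +
        (1 - ((q.1 : ℝ) : ℂ)) * (((q.2.1.1⁻¹ : Circle) : ℂ) * y₀)) ∈ T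
      have h3 : (q.2.1.1 : ℂ) * (((q.1 : ℝ) : ℂ) * q.2.1.2 +
        (1 - ((q.1 : ℝ) : ℂ)) * (((q.2.1.1⁻¹ : Circle) : ℂ) * y₀)) =
        ((q.1 : ℝ) : ℂ) * ((q.2.1.1 : ℂ) * q.2.1.2) + (1 - ((q.1 : ℝ) : ℂ)) * y₀ := by
        linear_combination (1 - ((q.1 : ℝ) : ℂ)) * h2
      rw [h3]
      exact h1
    · refine Continuous.subtype_mk ?_ _
      have hc' : Continuous (fun q : unitInterval × BT T => ((q.2.1.1⁻¹ : Circle) : ℂ)) :=
        coeC_cont ((by fun_prop : Continuous (fun q : unitInterval × BT T => q.2.1.1)).inv)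
      fun_prop
    · intro x
      apply Subtype.ext
      change (x.1.1, (((0 : unitInterval) : ℝ) : ℂ) * x.1.2 +
        (1 - (((0 : unitInterval) : ℝ) : ℂ)) * (((x.1.1⁻¹ : Circle) : ℂ) * y₀)) = (g (f x)).1
      rw [hf]
      change _ = (x.1.1, ((x.1.1⁻¹ : Circle) : ℂ) * y₀)
      simp
    · intro x
      apply Subtype.ext
      change (x.1.1, (((1 : unitInterval) : ℝ) : ℂ) * x.1.2 +
        (1 - (((1 : unitInterval) : ℝ) : ℂ)) * (((x.1.1⁻¹ : Circle) : ℂ) * y₀)) = x.1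
      simp
  · have : f.comp g = ContinuousMap.id T1 := by
      apply ContinuousMap.ext
      intro x
      change f (g x) = x
      rw [hf]
      rfl
    rw [this]

/-- the map `σ ↦ σ` on `BT T` -/
def piB (T : Set ℂ) : C(BT T, T1) := ⟨fun x => (x.1.1, ()), by fun_prop⟩

theorem iso_piB_univ : IsoH (piB univ) :=
  iso_BT univ 0 trivial (fun _ _ _ _ _ => trivial) _ (fun _ => rfl)

theorem iso_piB_sing (y : ℂ) : IsoH (piB {y}) :=
  iso_BT {y} y rfl (fun z hz r _ _ => by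
    rw [mem_singleton_iff] at hz ⊢
    rw [hz]; ring) _ (fun _ => rfl)

def incB (y : ℂ) : C(BT {y}, BT univ) := ⟨fun x => ⟨x.1, trivial⟩, by fun_prop⟩

theorem iso_incB (y : ℂ) : IsoH (incB y) :=
  IsoH.of_comp_left iso_piB_univ (iso_piB_sing y)

/-! ### the neighbourhood of infinity -/

/-- model of the neighbourhood of infinity -/
abbrev PN (T : Set ℂ) : Type :=
  {p : TT // 0 < (1 + p.2.2 * p.2.1 ^ 6).re ∧ (p.1 : ℂ) * p.2.2 ∈ T}

def rhoN (T : Set ℂ) : C(PN T, BT T) := ⟨fun x => ⟨(x.1.1, x.1.2.2), x.2.2⟩, by fun_prop⟩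

theorem re_pow6 (r : ℝ) (s t : ℂ) : (1 + t * ((r : ℂ) * s) ^ 6).re = 1 + r ^ 6 * (t * s ^ 6).re := by
  have : t * ((r : ℂ) * s) ^ 6 = ((r ^ 6 : ℝ) : ℂ) * (t * s ^ 6) := by push_cast; ring
  rw [this, Complex.add_re, Complex.re_ofReal_mul, Complex.one_re]

theorem iso_rhoN (T : Set ℂ) : IsoH (rhoN T) := by
  let g : C(BT T, PN T) := ⟨fun x => ⟨(x.1.1, (0, x.1.2)), by
    constructor
    · change 0 < (1 + x.1.2 * (0 : ℂ) ^ 6).re
      simp
    · exact x.2⟩, by fun_prop⟩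
  refine IsoH.of_equiv (rhoN T) g ?_ ?_
  · refine htp (fun q => ⟨(q.2.1.1, (((q.1 : ℝ) : ℂ) * q.2.1.2.1, q.2.1.2.2)), ?_⟩) ?_ ?_ ?_
    · refine ⟨?_, q.2.2.2⟩
      change 0 < (1 + q.2.1.2.2 * (((q.1 : ℝ) : ℂ) * q.2.1.2.1) ^ 6).re
      rw [re_pow6]
      have h1 := q.2.2.1
      rw [Complex.add_re, Complex.one_re] at h1
      have h2 : (0 : ℝ) ≤ (q.1 : ℝ) ^ 6 := by positivity
      have h3 : (q.1 : ℝ) ^ 6 ≤ 1 := pow_le_one₀ q.1.2.1 q.1.2.2
      by_cases h4 : 0 ≤ (q.2.1.2.2 * q.2.1.2.1 ^ 6).re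
      · nlinarith
      · nlinarith
    · refine Continuous.subtype_mk ?_ _
      fun_prop
    · intro x
      apply Subtype.ext
      change (x.1.1, ((((0 : unitInterval) : ℝ) : ℂ) * x.1.2.1, x.1.2.2)) = (x.1.1, (0, x.1.2.2))
      simp
    · intro x
      apply Subtype.ext
      change (x.1.1, ((((1 : unitInterval) : ℝ) : ℂ) * x.1.2.1, x.1.2.2)) = x.1
      simp
  · have : (rhoN T).comp g = ContinuousMap.id (BT T) := rfl
    rw [this]

def incN (y : ℂ) : C(PN {y}, PN univ) := ⟨fun x => ⟨x.1, x.2.1, trivial⟩, by fun_prop⟩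

theorem iso_incN (y : ℂ) : IsoH (incN y) :=
  square (incN y) (incB y) (rhoN {y}) (rhoN univ) (fun _ => rfl) (iso_rhoN _) (iso_rhoN _)
    (iso_incB y)

/-! ### the intersection -/

/-- model of the intersection -/
abbrev PK (T : Set ℂ) : Type :=
  {p : TT // p.2.1 ≠ 0 ∧ 0 < (1 + p.2.2 * p.2.1 ^ 6).re ∧ (p.1 : ℂ) * p.2.2 ∈ T}

theorem dir_norm {s : ℂ} (h : s ≠ 0) : ‖s / (‖s‖ : ℝ)‖ = 1 := by
  rw [norm_div, Complex.norm_real, norm_norm, div_self (norm_ne_zero_iff.2 h)]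

def rhoK (T : Set ℂ) : C(PK T, Circle × BT T) :=
  ⟨fun x => (toC _ (dir_norm x.2.1), ⟨(x.1.1, x.1.2.2), x.2.2.2⟩), by
    refine Continuous.prodMk ?_ (by fun_prop)
    refine Continuous.subtype_mk ?_ _
    have h1 : Continuous (fun x : PK T => x.1.2.1) := by fun_prop
    refine h1.div (Complex.continuous_ofReal.comp h1.norm) ?_
    intro x
    exact_mod_cast norm_ne_zero_iff.2 x.2.1⟩

/-- a small radius -/
def eps (t : ℂ) : ℝ := (1 + ‖t‖)⁻¹

theorem eps_pos (t : ℂ) : 0 < eps t := by unfold eps; positivity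
theorem eps_cont : Continuous eps := by
  unfold eps
  refine Continuous.inv₀ (by fun_prop) ?_
  intro x
  positivity

theorem eps_re (t : ℂ) (w : Circle) : 0 < (1 + t * (((eps t : ℝ) : ℂ) * w) ^ 6).re := by
  rw [re_pow6]
  have h1 : |(t * (w : ℂ) ^ 6).re| ≤ ‖t‖ := by
    refine (Complex.abs_re_le_norm _).trans ?_
    rw [norm_mul, norm_pow, Circle.norm_coe, one_pow, mul_one]
  have h2 : -‖t‖ ≤ (t * (w : ℂ) ^ 6).re := (abs_le.1 h1).1
  have h3 : eps t * (1 + ‖t‖) = 1 := by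
    unfold eps
    have : (1 + ‖t‖) ≠ 0 := by positivity
    field_simp
  have h4 := eps_pos t
  have h5 : 0 ≤ ‖t‖ := norm_nonneg t
  have h6 : eps t ≤ 1 := by nlinarith
  have h7 : eps t ^ 6 ≤ eps t := by
    have : eps t ^ 6 = eps t * eps t ^ 5 := by ring
    rw [this]
    have h8 : eps t ^ 5 ≤ 1 := pow_le_one₀ h4.le h6
    nlinarith
  have h8 : 0 < eps t ^ 6 := by positivity
  have h9 : eps t ^ 6 * ‖t‖ < 1 := by nlinarith
  nlinarith

theorem between {a b m c : ℝ} (ha : 0 ≤ a) (hb : 0 ≤ b) (hm : 0 ≤ m) (h : m ≤ max a b)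
    (h1 : 0 < 1 + a ^ 6 * c) (h2 : 0 < 1 + b ^ 6 * c) : 0 < 1 + m ^ 6 * c := by
  by_cases hc : 0 ≤ c
  · positivity
  · push Not at hc
    rcases le_total a b with h3 | h3
    · rw [max_eq_right h3] at h
      have : m ^ 6 ≤ b ^ 6 := pow_le_pow_left₀ hm h 6
      nlinarith
    · rw [max_eq_left h3] at h
      have : m ^ 6 ≤ a ^ 6 := pow_le_pow_left₀ hm h 6
      nlinarith

theorem iso_rhoK (T : Set ℂ) : IsoH (rhoK T) := by
  let g : C(Circle × BT T, PK T) := ⟨fun x => ⟨(x.2.1.1, ((eps x.2.1.2 : ℂ) * x.1, x.2.1.2)), by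
    refine ⟨?_, eps_re _ _, x.2.2⟩
    exact mul_ne_zero (by exact_mod_cast (eps_pos _).ne') x.1.coe_ne_zero⟩, by
    refine Continuous.subtype_mk ?_ _
    refine Continuous.prodMk (by fun_prop) (Continuous.prodMk ?_ (by fun_prop))
    refine Continuous.mul (Complex.continuous_ofReal.comp (eps_cont.comp (by fun_prop))) ?_
    exact coeC_cont continuous_fst⟩
  refine IsoH.of_equiv (rhoK T) g ?_ ?_
  · -- the homotopy
    have key : ∀ (r : unitInterval) (x : PK T),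
        ((((r : ℝ) * ‖x.1.2.1‖ + (1 - r) * eps x.1.2.2 : ℝ) : ℂ) *
          (x.1.2.1 / (‖x.1.2.1‖ : ℝ))) ≠ 0 ∧
        0 < (1 + x.1.2.2 * ((((r : ℝ) * ‖x.1.2.1‖ + (1 - r) * eps x.1.2.2 : ℝ) : ℂ) *
          (x.1.2.1 / (‖x.1.2.1‖ : ℝ))) ^ 6).re := by
      intro r x
      have hn : 0 < ‖x.1.2.1‖ := norm_pos_iff.2 x.2.1
      have he := eps_pos x.1.2.2
      have hr0 := r.2.1
      have hr1 := r.2.2
      have hm : 0 < (r : ℝ) * ‖x.1.2.1‖ + (1 - r) * eps x.1.2.2 := by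
        rcases eq_or_lt_of_le hr0 with h | h
        · rw [← h]; simpa using he
        · have h1 := mul_pos h hn
          have h2 : 0 ≤ (1 - (r : ℝ)) * eps x.1.2.2 := mul_nonneg (by linarith) he.le
          linarith
      have hle : (r : ℝ) * ‖x.1.2.1‖ + (1 - r) * eps x.1.2.2 ≤ max ‖x.1.2.1‖ (eps x.1.2.2) := by
        have h1 := le_max_left ‖x.1.2.1‖ (eps x.1.2.2)
        have h2 := le_max_right ‖x.1.2.1‖ (eps x.1.2.2)
        nlinarith
      constructor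
      · refine mul_ne_zero (by exact_mod_cast hm.ne') ?_
        exact div_ne_zero x.2.1 (by exact_mod_cast hn.ne')
      · rw [re_pow6]
        refine between hn.le he.le hm.le hle ?_ ?_
        · rw [← re_pow6]
          have h3 : ((‖x.1.2.1‖ : ℝ) : ℂ) * (x.1.2.1 / (‖x.1.2.1‖ : ℝ)) = x.1.2.1 := by
            have : ((‖x.1.2.1‖ : ℝ) : ℂ) ≠ 0 := by exact_mod_cast hn.ne'
            field_simp
          rw [h3]
          exact x.2.2.1
        · rw [← re_pow6]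
          exact eps_re x.1.2.2 (toC _ (dir_norm x.2.1))
    refine htp (fun q => ⟨(q.2.1.1,
      ((((q.1 : ℝ) * ‖q.2.1.2.1‖ + (1 - q.1) * eps q.2.1.2.2 : ℝ) : ℂ) *
          (q.2.1.2.1 / (‖q.2.1.2.1‖ : ℝ)), q.2.1.2.2)), (key q.1 q.2).1, (key q.1 q.2).2,
          q.2.2.2.2⟩) ?_ ?_ ?_
    · refine Continuous.subtype_mk ?_ _
      refine Continuous.prodMk (by fun_prop) (Continuous.prodMk ?_ (by fun_prop))
      have h1 : Continuous (fun q : unitInterval × PK T => q.2.1.2.1) := by fun_prop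
      have h2 : Continuous (fun q : unitInterval × PK T => eps q.2.1.2.2) :=
        eps_cont.comp (by fun_prop)
      refine Continuous.mul (Complex.continuous_ofReal.comp (by fun_prop)) ?_
      refine h1.div (Complex.continuous_ofReal.comp h1.norm) ?_
      intro q
      exact_mod_cast norm_ne_zero_iff.2 q.2.2.1
    · intro x
      apply Subtype.ext
      change (x.1.1, (((((0 : unitInterval) : ℝ) * ‖x.1.2.1‖ +
        (1 - ((0 : unitInterval) : ℝ)) * eps x.1.2.2 : ℝ) : ℂ) *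
          (x.1.2.1 / (‖x.1.2.1‖ : ℝ)), x.1.2.2)) =
        (x.1.1, ((eps x.1.2.2 : ℂ) * (x.1.2.1 / (‖x.1.2.1‖ : ℝ)), x.1.2.2))
      simp
    · intro x
      apply Subtype.ext
      change (x.1.1, (((((1 : unitInterval) : ℝ) * ‖x.1.2.1‖ +
        (1 - ((1 : unitInterval) : ℝ)) * eps x.1.2.2 : ℝ) : ℂ) *
          (x.1.2.1 / (‖x.1.2.1‖ : ℝ)), x.1.2.2)) = x.1
      refine Prod.ext rfl (Prod.ext ?_ rfl)
      have : ((‖x.1.2.1‖ : ℝ) : ℂ) ≠ 0 := by exact_mod_cast norm_ne_zero_iff.2 x.2.1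
      simp only [Icc.coe_one, one_mul, sub_self, zero_mul, add_zero]
      field_simp
  · have : (rhoK T).comp g = ContinuousMap.id (Circle × BT T) := by
      apply ContinuousMap.ext
      intro x
      have he := eps_pos x.2.1.2
      have hnorm : ‖(eps x.2.1.2 : ℂ) * x.1‖ = eps x.2.1.2 := by
        rw [norm_mul, Circle.norm_coe, mul_one, Complex.norm_real, Real.norm_eq_abs,
          abs_of_pos he]
      refine Prod.ext (Circle.ext ?_) rfl
      change (eps x.2.1.2 : ℂ) * x.1 / (‖(eps x.2.1.2 : ℂ) * x.1‖ : ℝ) = x.1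
      rw [hnorm]
      have : ((eps x.2.1.2 : ℝ) : ℂ) ≠ 0 := by exact_mod_cast he.ne'
      field_simp
    rw [this]

def incK (y : ℂ) : C(PK {y}, PK univ) := ⟨fun x => ⟨x.1, x.2.1, x.2.2.1, trivial⟩, by fun_prop⟩

theorem iso_incK (y : ℂ) : IsoH (incK y) :=
  square (incK y) (idx (incB y)) (rhoK {y}) (rhoK univ) (fun _ => rfl) (iso_rhoK _) (iso_rhoK _)
    (iso_incB y).idx

/-! ### the affine part -/

/-- model of the affine part -/
abbrev PA (T : Set ℂ) : Type := {p : TT // (p.1 : ℂ) * (p.2.1 ^ 2 + p.2.2 ^ 3) ∈ T}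

/-- projection -/
def piA (T : Set ℂ) : C(PA T, T1) := ⟨fun x => (x.1.1, ()), by fun_prop⟩

theorem iso_piA (T : Set ℂ) (h0 : (0 : ℂ) ∈ T)
    (hT : ∀ z ∈ T, ∀ r : ℝ, 0 ≤ r → r ≤ 1 → (r : ℂ) * z ∈ T) : IsoH (piA T) := by
  let g : C(T1, PA T) := ⟨fun p => ⟨(p.1, (0, 0)), by
    change (p.1 : ℂ) * ((0 : ℂ) ^ 2 + (0 : ℂ) ^ 3) ∈ T
    simpa using h0⟩, by fun_prop⟩
  refine IsoH.of_equiv (piA T) g ?_ ?_
  · refine htp (fun q => ⟨(q.2.1.1, (((q.1 : ℝ) : ℂ) ^ 3 * q.2.1.2.1,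
      ((q.1 : ℝ) : ℂ) ^ 2 * q.2.1.2.2)), ?_⟩) ?_ ?_ ?_
    · have h1 := hT _ q.2.2 ((q.1 : ℝ) ^ 6) (by positivity) (pow_le_one₀ q.1.2.1 q.1.2.2)
      change (q.2.1.1 : ℂ) * ((((q.1 : ℝ) : ℂ) ^ 3 * q.2.1.2.1) ^ 2 +
        (((q.1 : ℝ) : ℂ) ^ 2 * q.2.1.2.2) ^ 3) ∈ T
      convert h1 using 1
      push_cast
      ring
    · refine Continuous.subtype_mk ?_ _
      fun_prop
    · intro x
      apply Subtype.ext
      change (x.1.1, ((((0 : unitInterval) : ℝ) : ℂ) ^ 3 * x.1.2.1,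
        (((0 : unitInterval) : ℝ) : ℂ) ^ 2 * x.1.2.2)) = (x.1.1, (0, 0))
      simp
    · intro x
      apply Subtype.ext
      change (x.1.1, ((((1 : unitInterval) : ℝ) : ℂ) ^ 3 * x.1.2.1,
        (((1 : unitInterval) : ℝ) : ℂ) ^ 2 * x.1.2.2)) = x.1
      simp
  · have : (piA T).comp g = ContinuousMap.id T1 := rfl
    rw [this]

theorem iso_piA_univ : IsoH (piA univ) := iso_piA univ trivial (fun _ _ _ _ _ => trivial)

theorem iso_piA_sing (y : ℂ) : IsoH (piA {y}) := by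
  by_cases hy : y = 0
  · subst hy
    exact iso_piA {0} rfl (fun z hz r _ _ => by
      rw [mem_singleton_iff] at hz ⊢
      rw [hz, mul_zero])
  · obtain ⟨l, hl⟩ : ∃ l : ℂ, l ^ 6 = y :=
      ⟨y ^ (6⁻¹ : ℂ), by rw [← Complex.cpow_nat_mul]; simp⟩
    have hl0 : l ≠ 0 := by
      rintro rfl
      apply hy
      rw [← hl]; simp
    let e : PA {y} ≃ₜ MM :=
      { toFun := fun x => ⟨(x.1.1, (x.1.2.1 / l ^ 3, x.1.2.2 / l ^ 2)), by
          have h := x.2
          rw [mem_singleton_iff] at h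
          change (x.1.1 : ℂ) * ((x.1.2.1 / l ^ 3) ^ 2 + (x.1.2.2 / l ^ 2) ^ 3) = 1
          field_simp
          rw [hl]
          linear_combination h⟩
        invFun := fun x => ⟨(x.1.1, (x.1.2.1 * l ^ 3, x.1.2.2 * l ^ 2)), by
          have h := x.2
          change (x.1.1 : ℂ) * ((x.1.2.1 * l ^ 3) ^ 2 + (x.1.2.2 * l ^ 2) ^ 3) = y
          rw [← hl]
          linear_combination l ^ 6 * h⟩
        left_inv := by
          intro x
          apply Subtype.ext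
          refine Prod.ext rfl (Prod.ext ?_ ?_)
          · change x.1.2.1 / l ^ 3 * l ^ 3 = x.1.2.1
            field_simp
          · change x.1.2.2 / l ^ 2 * l ^ 2 = x.1.2.2
            field_simp
        right_inv := by
          intro x
          apply Subtype.ext
          refine Prod.ext rfl (Prod.ext ?_ ?_)
          · change x.1.2.1 * l ^ 3 / l ^ 3 = x.1.2.1
            field_simp
          · change x.1.2.2 * l ^ 2 / l ^ 2 = x.1.2.2
            field_simp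
        continuous_toFun := by
          refine Continuous.subtype_mk ?_ _
          fun_prop
        continuous_invFun := by
          refine Continuous.subtype_mk ?_ _
          fun_prop }
    have h1 : IsoH (⟨e, e.continuous⟩ : C(PA {y}, MM)) := IsoH.of_homeo e _ (fun _ => rfl)
    have h2 : piA {y} = fM.comp (⟨e, e.continuous⟩ : C(PA {y}, MM)) := rfl
    rw [h2]
    exact iso_fM.comp h1

def incA (y : ℂ) : C(PA {y}, PA univ) := ⟨fun x => ⟨x.1, trivial⟩, by fun_prop⟩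

theorem iso_incA (y : ℂ) : IsoH (incA y) :=
  IsoH.of_comp_left iso_piA_univ (iso_piA_sing y)

end Pool.Agent.H944R2
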