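import Pool.Agent.H944R2.C2

/-! The fibres of `σ τ` on `S¹ × 𝒞` have the homology of the total space. -/

open Filter Topology Set
open Pool.Agent.Helper534.LS

noncomputable section

namespace Pool.Agent.H944R2

/-- `{(σ, c) : σ τ(c) ∈ T}` -/
abbrev KT (T : Set ℂ) : Type := {p : Circle × CC // (p.1 : ℂ) * p.2.1.2 ∈ T}

def uT (T : Set ℂ) : Set (KT T) := {x | x.1.2 ∈ AA}
def vT (T : Set ℂ) : Set (KT T) := {x | x.1.2 ∈ NN}

theorem uT_open (T : Set ℂ) : IsOpen (uT T) :=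
  AA_open.preimage (continuous_snd.comp continuous_subtype_val)
theorem vT_open (T : Set ℂ) : IsOpen (vT T) :=
  NN_open.preimage (continuous_snd.comp continuous_subtype_val)
theorem uvT (T : Set ℂ) (x : KT T) : x ∈ uT T ∨ x ∈ vT T := cov_C x.1.2

/-- the affine chart -/
def gA (T : Set ℂ) : uT T ≃ₜ PA T where
  toFun x := ⟨(x.1.1.1, hA ⟨x.1.1.2, x.2⟩), by
    have h := x.1.2
    change (x.1.1.1 : ℂ) * ((hA ⟨x.1.1.2, x.2⟩).1 ^ 2 + (hA ⟨x.1.1.2, x.2⟩).2 ^ 3) ∈ T
    rw [← hA_t]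
    exact h⟩
  invFun p := ⟨⟨(p.1.1, (hA.symm p.1.2).1), p.2⟩, (hA.symm p.1.2).2⟩
  left_inv := by
    intro x
    apply Subtype.ext; apply Subtype.ext
    refine Prod.ext rfl ?_
    change (hA.symm (hA ⟨x.1.1.2, x.2⟩)).1 = x.1.1.2
    rw [hA.symm_apply_apply]
  right_inv := by
    intro p
    apply Subtype.ext
    refine Prod.ext rfl ?_
    change hA ⟨(hA.symm p.1.2).1, _⟩ = p.1.2
    exact hA.apply_symm_apply p.1.2
  continuous_toFun := by
    refine Continuous.subtype_mk (Continuous.prodMk (by fun_prop) ?_) _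
    refine hA.continuous.comp (Continuous.subtype_mk ?_ _)
    exact continuous_snd.comp (continuous_subtype_val.comp continuous_subtype_val)
  continuous_invFun := by
    refine Continuous.subtype_mk (Continuous.subtype_mk ?_ _) _
    refine Continuous.prodMk (by fun_prop) ?_
    exact continuous_subtype_val.comp (hA.symm.continuous.comp (by fun_prop))

/-- the chart at infinity -/
def gN (T : Set ℂ) : vT T ≃ₜ PN T where
  toFun x := ⟨(x.1.1.1, (hN ⟨x.1.1.2, x.2⟩).1), (hN ⟨x.1.1.2, x.2⟩).2, x.1.2⟩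
  invFun p := ⟨⟨(p.1.1, (hN.symm ⟨p.1.2, p.2.1⟩).1), p.2.2⟩, (hN.symm ⟨p.1.2, p.2.1⟩).2⟩
  left_inv := by
    intro x
    apply Subtype.ext; apply Subtype.ext
    refine Prod.ext rfl ?_
    change (hN.symm (hN ⟨x.1.1.2, x.2⟩)).1 = x.1.1.2
    rw [hN.symm_apply_apply]
  right_inv := by
    intro p
    apply Subtype.ext
    refine Prod.ext rfl ?_
    change (hN ⟨(hN.symm ⟨p.1.2, p.2.1⟩).1, _⟩).1 = p.1.2
    exact congrArg Subtype.val (hN.apply_symm_apply ⟨p.1.2, p.2.1⟩)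
  continuous_toFun := by
    refine Continuous.subtype_mk (Continuous.prodMk (by fun_prop) ?_) _
    refine continuous_subtype_val.comp (hN.continuous.comp (Continuous.subtype_mk ?_ _))
    exact continuous_snd.comp (continuous_subtype_val.comp continuous_subtype_val)
  continuous_invFun := by
    refine Continuous.subtype_mk (Continuous.subtype_mk ?_ _) _
    refine Continuous.prodMk (by fun_prop) ?_
    exact continuous_subtype_val.comp (hN.symm.continuous.comp (Continuous.subtype_mk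
      (by fun_prop) _))

theorem gK_aux (T : Set ℂ) (p : PK T) : (hN.symm ⟨p.1.2, p.2.2.1⟩).1 ∈ AA := by
  rw [hN_AA, hN.apply_symm_apply]
  exact p.2.1

/-- the intersection -/
def gK (T : Set ℂ) : ↥(uT T ∩ vT T) ≃ₜ PK T where
  toFun x := ⟨(x.1.1.1, (hN ⟨x.1.1.2, x.2.2⟩).1), (hN_AA ⟨x.1.1.2, x.2.2⟩).1 x.2.1,
    (hN ⟨x.1.1.2, x.2.2⟩).2, x.1.2⟩
  invFun p := ⟨⟨(p.1.1, (hN.symm ⟨p.1.2, p.2.2.1⟩).1), p.2.2.2⟩, gK_aux T p,
    (hN.symm ⟨p.1.2, p.2.2.1⟩).2⟩
  left_inv := by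
    intro x
    apply Subtype.ext; apply Subtype.ext
    refine Prod.ext rfl ?_
    change (hN.symm (hN ⟨x.1.1.2, x.2.2⟩)).1 = x.1.1.2
    rw [hN.symm_apply_apply]
  right_inv := by
    intro p
    apply Subtype.ext
    refine Prod.ext rfl ?_
    change (hN ⟨(hN.symm ⟨p.1.2, p.2.2.1⟩).1, _⟩).1 = p.1.2
    exact congrArg Subtype.val (hN.apply_symm_apply ⟨p.1.2, p.2.2.1⟩)
  continuous_toFun := by
    refine Continuous.subtype_mk (Continuous.prodMk (by fun_prop) ?_) _
    refine continuous_subtype_val.comp (hN.continuous.comp (Continuous.subtype_mk ?_ _))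
    exact continuous_snd.comp (continuous_subtype_val.comp continuous_subtype_val)
  continuous_invFun := by
    refine Continuous.subtype_mk (Continuous.subtype_mk ?_ _) _
    refine Continuous.prodMk (by fun_prop) ?_
    exact continuous_subtype_val.comp (hN.symm.continuous.comp (Continuous.subtype_mk
      (by fun_prop) _))

/-- the inclusion of the fibre -/
def iK (y : ℂ) : C(KT {y}, KT univ) := ⟨fun x => ⟨x.1, trivial⟩, by fun_prop⟩
def iKu (y : ℂ) : C(uT {y}, uT univ) := ⟨fun x => ⟨⟨x.1.1, trivial⟩, x.2⟩, by fun_prop⟩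
def iKv (y : ℂ) : C(vT {y}, vT univ) := ⟨fun x => ⟨⟨x.1.1, trivial⟩, x.2⟩, by fun_prop⟩
def iKk (y : ℂ) : C(↥(uT {y} ∩ vT {y}), ↥(uT univ ∩ vT univ)) :=
  ⟨fun x => ⟨⟨x.1.1, trivial⟩, x.2⟩, by fun_prop⟩

theorem iso_homeo {X Y : Type} [TopologicalSpace X] [TopologicalSpace Y] (e : X ≃ₜ Y) :
    IsoH (⟨e, e.continuous⟩ : C(X, Y)) := IsoH.of_homeo e _ (fun _ => rfl)

theorem iso_iKu (y : ℂ) : IsoH (iKu y) :=
  square (iKu y) (incA y) ⟨gA {y}, (gA {y}).continuous⟩ ⟨gA univ, (gA univ).continuous⟩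
    (fun _ => rfl) (iso_homeo _) (iso_homeo _) (iso_incA y)

theorem iso_iKv (y : ℂ) : IsoH (iKv y) :=
  square (iKv y) (incN y) ⟨gN {y}, (gN {y}).continuous⟩ ⟨gN univ, (gN univ).continuous⟩
    (fun _ => rfl) (iso_homeo _) (iso_homeo _) (iso_incN y)

theorem iso_iKk (y : ℂ) : IsoH (iKk y) :=
  square (iKk y) (incK y) ⟨gK {y}, (gK {y}).continuous⟩ ⟨gK univ, (gK univ).continuous⟩
    (fun _ => rfl) (iso_homeo _) (iso_homeo _) (iso_incK y)

theorem iso_iK (y : ℂ) : IsoH (iK y) :=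
  five (iK y) (uT {y}) (vT {y}) (uT_open _) (vT_open _) (uvT _) (uT univ) (vT univ) (uT_open _)
    (vT_open _) (uvT _) (iKu y) (iKv y) (iKk y) (fun _ => rfl) (fun _ => rfl) (fun _ => rfl)
    (iso_iKu y) (iso_iKv y) (iso_iKk y)

/-! ### path connectedness of the total space -/

theorem circle_pc : PathConnectedSpace Circle := by
  have h : Function.Surjective sg := sg_oq.surjective
  exact h.pathConnectedSpace sg_oq.continuous

theorem ND_pc : PathConnectedSpace ND := by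
  refine ⟨⟨⟨(0, 0), by simp⟩⟩, ?_⟩
  have key : ∀ p : ND, Joined (⟨(0, 0), by simp⟩ : ND) p := by
    intro p
    have h1 : ∀ r : unitInterval, 0 < (1 + (((r : ℝ) : ℂ) * p.1.2) * (((r : ℝ) : ℂ) * p.1.1) ^ 6).re := by
      intro r
      have e : (((r : ℝ) : ℂ) * p.1.2) * (((r : ℝ) : ℂ) * p.1.1) ^ 6 =
          (((r : ℝ) ^ 7 : ℝ) : ℂ) * (p.1.2 * p.1.1 ^ 6) := by push_cast; ring
      rw [e, Complex.add_re, Complex.one_re, Complex.re_ofReal_mul]
      have h2 := p.2
      rw [Complex.add_re, Complex.one_re] at h2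
      have h3 : (0 : ℝ) ≤ (r : ℝ) ^ 7 := pow_nonneg r.2.1 7
      have h4 : (r : ℝ) ^ 7 ≤ 1 := pow_le_one₀ r.2.1 r.2.2
      by_cases h5 : 0 ≤ (p.1.2 * p.1.1 ^ 6).re
      · nlinarith
      · nlinarith
    refine ⟨⟨⟨fun r => ⟨(((r : ℝ) : ℂ) * p.1.1, ((r : ℝ) : ℂ) * p.1.2), h1 r⟩, by fun_prop⟩,
      ?_, ?_⟩⟩
    · apply Subtype.ext
      change ((((0 : unitInterval) : ℝ) : ℂ) * p.1.1, (((0 : unitInterval) : ℝ) : ℂ) * p.1.2) = (0, 0)
      simp
    · apply Subtype.ext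
      change ((((1 : unitInterval) : ℝ) : ℂ) * p.1.1, (((1 : unitInterval) : ℝ) : ℂ) * p.1.2) = p.1
      simp
  intro p q
  exact (key p).symm.trans (key q)

theorem CC_pc : PathConnectedSpace CC := by
  have hA1 : IsPathConnected AA := by
    rw [isPathConnected_iff_pathConnectedSpace]
    exact hA.symm.surjective.pathConnectedSpace hA.symm.continuous
  have hN1 : IsPathConnected NN := by
    rw [isPathConnected_iff_pathConnectedSpace]
    have := ND_pc
    exact hN.symm.surjective.pathConnectedSpace hN.symm.continuous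
  have hne : (AA ∩ NN).Nonempty := by
    let p : ND := ⟨(1, 0), by simp⟩
    refine ⟨(hN.symm p).1, ?_, (hN.symm p).2⟩
    rw [hN_AA, hN.apply_symm_apply]
    exact one_ne_zero
  have h := hA1.union hN1 hne
  have hu : AA ∪ NN = univ := by
    ext c
    simp only [mem_union, mem_univ, iff_true]
    exact cov_C c
  rw [hu] at h
  exact pathConnectedSpace_iff_univ.2 h

theorem KT_pc (y : ℂ) (p q : KT {y}) : Joined p q := by
  have h1 := circle_pc
  have h2 := CC_pc
  have h3 : PathConnectedSpace (KT univ) := by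
    have : Function.Surjective (fun p : Circle × CC => (⟨p, trivial⟩ : KT univ)) :=
      fun p => ⟨p.1, rfl⟩
    exact this.pathConnectedSpace (by fun_prop)
  exact joined_of_H0 (iK y) h3 (iso_iK y 0).1 p q

theorem KT_ne (y : ℂ) : Nonempty (KT {y}) := by
  refine ⟨⟨((1 : Circle), (hN.symm ⟨(0, y), by simp⟩).1), ?_⟩⟩
  change ((1 : Circle) : ℂ) * y ∈ ({y} : Set ℂ)
  rw [Circle.coe_one, one_mul]
  rfl

end Pool.Agent.H944R2
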