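import Pool.Agent.H944R2.XSub3

/-! Smooth and non-smooth points of the projection of the threefold to `ℂ`. -/

open Filter Topology Set
open scoped LinearAlgebra.Projectivization
open Pool.Agent.Helper10.UC (PP)

noncomputable section

namespace Pool.Agent.H944R2

theorem smooth_of_curve {x : ℂ} {u : Fin 3 → ℂ} (hx : x ≠ 0) (hu : u ≠ 0) (e : Fin 3 → ℂ)
    (t : ℂ → ℂ) (ht : AnalyticAt ℂ t 0) (hd : deriv t 0 ≠ 0)
    (hc : ∀ᶠ s in 𝓝 (0 : ℂ), Cub (u + s • e) (t s)) :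
    IsSmoothAt XX (t 0, mkP ⟨vec x u, vec_ne hx hu⟩) := by
  refine ⟨fun s => (t s, vec x (u + s • e)), ?_, ?_, ?_, ?_⟩
  · refine ht.prod ?_
    have h1 : AnalyticAt ℂ (fun s : ℂ => ((x, u + s • e) : ℂ × (Fin 3 → ℂ))) 0 := by
      refine analyticAt_const.prod ?_
      exact analyticAt_const.add (analyticAt_id.smul analyticAt_const)
    exact AnalyticAt.comp (g := fun p : ℂ × (Fin 3 → ℂ) => vec p.1 p.2)
      (f := fun s : ℂ => ((x, u + s • e) : ℂ × (Fin 3 → ℂ))) (x := 0) (vec_analytic hx _) h1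
  · have h2 : ContinuousAt (fun s : ℂ => u + s • e) 0 := by fun_prop
    have h3 : u + (0 : ℂ) • e ≠ 0 := by rwa [zero_smul, add_zero]
    filter_upwards [hc, h2.eventually_ne h3] with s h4 h5
    exact mem_cone.2 ⟨x, u + s • e, hx, h5, h4, rfl⟩
  · have h6 : vec x (u + (0 : ℂ) • e) = vec x u := by rw [zero_smul, add_zero]
    have h7 : vec x (u + (0 : ℂ) • e) ≠ 0 := by rw [h6]; exact vec_ne hx hu
    refine ⟨h7, ?_⟩
    refine Prod.ext rfl ?_
    change mkP ⟨vec x (u + (0 : ℂ) • e), h7⟩ = mkP _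
    congr 1
    exact Subtype.ext h6
  · exact hd

theorem smooth_ne {p : ℂ × PP Ix} (hp : p ∈ XX) (h : p.1 ≠ 0) : IsSmoothAt XX p := by
  obtain ⟨x, u, hx, hu, hc, h2⟩ := hp
  obtain ⟨t, p2⟩ := p
  simp only at hc h2 h
  subst h2
  by_cases hu2 : u 2 = 0
  · have := smooth_of_curve hx hu 0 (fun s => t + s) (analyticAt_const.add analyticAt_id) (by
      have : HasDerivAt (fun s : ℂ => t + s) 1 0 := (hasDerivAt_id (0 : ℂ)).const_add t
      rw [this.deriv]; exact one_ne_zero) (Eventually.of_forall fun s => by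
        rw [smul_zero, add_zero]
        unfold Cub at hc ⊢
        rw [hu2] at hc ⊢
        linear_combination hc)
    rwa [add_zero] at this
  by_cases hu0 : u 0 = 0
  · have hu1 : u 1 ≠ 0 := by
      intro h1
      unfold Cub at hc
      rw [hu0, h1] at hc
      have : t * u 2 ^ 3 = 0 := by linear_combination -hc
      rcases mul_eq_zero.1 this with h3 | h3
      · exact h h3
      · exact hu2 (pow_eq_zero_iff (by norm_num) |>.1 h3)
    have d1 : HasDerivAt (fun s : ℂ => (u 0 ^ 2 * u 2 + (u 1 + s) ^ 3) / u 2 ^ 3)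
        ((3 * u 1 ^ 2) / u 2 ^ 3) 0 := by
      have a1 : HasDerivAt (fun s : ℂ => u 1 + s) 1 0 := (hasDerivAt_id (0 : ℂ)).const_add _
      exact hd_congr (((a1.pow 3).const_add (u 0 ^ 2 * u 2)).div_const (u 2 ^ 3)) (fun s => rfl)
        (by simp)
    have := smooth_of_curve hx hu ![0, 1, 0] (fun s => (u 0 ^ 2 * u 2 + (u 1 + s) ^ 3) / u 2 ^ 3)
      ((analyticAt_const.add ((analyticAt_const.add analyticAt_id).pow 3)).div analyticAt_const
        (pow_ne_zero 3 hu2)) (by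
      rw [d1.deriv]
      exact div_ne_zero (mul_ne_zero (by norm_num) (pow_ne_zero 2 hu1)) (pow_ne_zero 3 hu2))
      (Eventually.of_forall fun s => by
        change (u 0 + s * 0) ^ 2 * (u 2 + s * 0) + (u 1 + s * 1) ^ 3 = _ * (u 2 + s * 0) ^ 3
        rw [mul_zero, add_zero, add_zero, mul_one]
        field_simp)
    have e : (u 0 ^ 2 * u 2 + (u 1 + 0) ^ 3) / u 2 ^ 3 = t := by
      rw [add_zero, show u 0 ^ 2 * u 2 + u 1 ^ 3 = t * u 2 ^ 3 from hc]
      field_simp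
    rwa [e] at this
  · have d1 : HasDerivAt (fun s : ℂ => ((u 0 + s) ^ 2 * u 2 + u 1 ^ 3) / u 2 ^ 3)
        ((2 * u 0 * u 2) / u 2 ^ 3) 0 := by
      have a1 : HasDerivAt (fun s : ℂ => u 0 + s) 1 0 := (hasDerivAt_id (0 : ℂ)).const_add _
      exact hd_congr ((((a1.pow 2).mul_const (u 2)).add_const (u 1 ^ 3)).div_const (u 2 ^ 3))
        (fun s => rfl) (by simp)
    have := smooth_of_curve hx hu ![1, 0, 0] (fun s => ((u 0 + s) ^ 2 * u 2 + u 1 ^ 3) / u 2 ^ 3)
      (((((analyticAt_const.add analyticAt_id).pow 2).mul analyticAt_const).add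
        analyticAt_const).div analyticAt_const (pow_ne_zero 3 hu2)) (by
      rw [d1.deriv]
      exact div_ne_zero (mul_ne_zero (mul_ne_zero (by norm_num) hu0) hu2) (pow_ne_zero 3 hu2))
      (Eventually.of_forall fun s => by
        change (u 0 + s * 1) ^ 2 * (u 2 + s * 0) + (u 1 + s * 0) ^ 3 = _ * (u 2 + s * 0) ^ 3
        rw [mul_zero, add_zero, add_zero, mul_one]
        field_simp)
    have e : ((u 0 + 0) ^ 2 * u 2 + u 1 ^ 3) / u 2 ^ 3 = t := by
      rw [add_zero, show u 0 ^ 2 * u 2 + u 1 ^ 3 = t * u 2 ^ 3 from hc]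
      field_simp
    rwa [e] at this

/-- the cusp -/
def cu : Fin 3 → ℂ := ![0, 0, 1]

theorem cu_ne : cu ≠ 0 := by
  intro h
  have := congrFun h 2
  exact one_ne_zero this

theorem Cub_cu : Cub cu 0 := by
  unfold Cub cu
  simp

/-- the point of the threefold over the cusp -/
def pc : ℂ × PP Ix := (0, mkP ⟨vec 1 cu, vec_ne one_ne_zero cu_ne⟩)

theorem pc_mem : pc ∈ XX := ⟨1, cu, one_ne_zero, cu_ne, Cub_cu, rfl⟩

theorem not_smooth_pc : ¬ IsSmoothAt XX pc := by
  rintro ⟨γ, hγ, hm, ⟨h0, hp⟩, hd⟩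
  have h1 : (γ 0).1 = 0 := congrArg Prod.fst hp
  have h2 : mkP ⟨(γ 0).2, h0⟩ = mkP ⟨vec 1 cu, vec_ne one_ne_zero cu_ne⟩ := congrArg Prod.snd hp
  obtain ⟨l, hl⟩ := (mkP_eq_iff _ _).1 h2
  change (γ 0).2 = l • vec 1 cu at hl
  have hl0 : l ≠ 0 := by
    rintro rfl
    rw [zero_smul] at hl
    exact h0 hl
  rw [← vec_smul] at hl
  have hγ0 : γ 0 = (0, vec 1 (l • cu)) := Prod.ext h1 hl
  obtain ⟨X, U, hX, hU, hev, pk, hpk, hUf⟩ := cone_lift (t₀ := 0) one_ne_zero
    (smul_ne_zero hl0 cu_ne) ((Cub_smul hl0 cu 0).2 Cub_cu)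
  have hγt : Tendsto γ (𝓝 0) (𝓝[affCone XX] (0, vec 1 (l • cu))) := by
    rw [← hγ0]
    exact tendsto_nhdsWithin_iff.2 ⟨hγ.continuousAt.tendsto, hm⟩
  have hXγ := hX.comp hγt
  have hUγ := hU.comp hγt
  have hevγ := hγt.eventually hev
  -- the two small coordinates
  have hO : ∀ k : Fin 3, k ≠ 2 → (fun s => U (γ s) k) =O[𝓝 0] (fun s : ℂ => s) := by
    intro k hk
    have hck : cu k = 0 := by
      fin_cases k
      · rfl
      · rfl
      · exact absurd rfl hk
    have hnum : (fun s => (γ s).2 (k, pk k)) =O[𝓝 0] (fun s : ℂ => s) := by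
      have h3 : DifferentiableAt ℂ (fun s => (γ s).2 (k, pk k)) 0 := by
        have h4 : DifferentiableAt ℂ (fun s => (γ s).2) 0 := hγ.differentiableAt.snd
        exact (differentiableAt_pi.1 h4) (k, pk k)
      have h5 := h3.hasDerivAt.isBigO_sub
      have h6 : (γ 0).2 (k, pk k) = 0 := by
        rw [hl, vec_apply, Pi.smul_apply, hck, smul_zero, zero_mul]
      simp only [h6, sub_zero] at h5
      exact h5
    have hden : Tendsto (fun s => (cE (ga k * X (γ s)) (pk k))⁻¹) (𝓝 0)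
        (𝓝 (cE (ga k * 1) (pk k))⁻¹) := by
      have h7 : ContinuousAt (fun x => cE (ga k * x) (pk k)) 1 := by
        have h8 := (cE_analytic (mul_ne_zero (ga_ne k) one_ne_zero)).continuousAt
        have h9 : ContinuousAt (fun x => cE (ga k * x)) 1 :=
          ContinuousAt.comp (g := cE) (f := fun x => ga k * x) (x := 1) h8 (by fun_prop)
        exact (continuousAt_pi.1 h9) (pk k)
      exact (h7.tendsto.comp hXγ).inv₀ (hpk k)
    have h10 := hnum.mul (hden.isBigO_one ℂ)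
    have e : (fun s => U (γ s) k) = fun s =>
        (γ s).2 (k, pk k) * (cE (ga k * X (γ s)) (pk k))⁻¹ := by
      funext s
      rw [hUf, div_eq_mul_inv]
    rw [e]
    simpa using h10
  have h2t : Tendsto (fun s => U (γ s) 2) (𝓝 0) (𝓝 l) := by
    have := (tendsto_pi_nhds.1 hUγ) 2
    have e : (l • cu) 2 = l := by
      change l * 1 = l
      rw [mul_one]
    rwa [e] at this
  have hne := h2t.eventually_ne hl0
  have hO1 : (fun s => U (γ s) 1) =O[𝓝 0] (fun s : ℂ => s) := hO 1 (by decide)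
  have hO0 : (fun s => U (γ s) 0) =O[𝓝 0] (fun s : ℂ => s) := hO 0 (by decide)
  have ha : (fun s => U (γ s) 0 ^ 2 * (U (γ s) 2 ^ 2)⁻¹) =O[𝓝 0] (fun s : ℂ => s ^ 2) := by
    have h11 := (hO0.pow 2).mul (((h2t.pow 2).inv₀ (pow_ne_zero 2 hl0)).isBigO_one ℂ)
    simpa using h11
  have hb : (fun s => U (γ s) 1 ^ 3 * (U (γ s) 2 ^ 3)⁻¹) =O[𝓝 0] (fun s : ℂ => s ^ 2) := by
    have h11 := (hO1.pow 3).mul (((h2t.pow 3).inv₀ (pow_ne_zero 3 hl0)).isBigO_one ℂ)
    have h12 : (fun s : ℂ => s ^ 3) =O[𝓝 0] (fun s : ℂ => s ^ 2) := by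
      have : (fun s : ℂ => s ^ 3) = fun s => s * s ^ 2 := by funext s; ring
      rw [this]
      have h13 : Tendsto (fun s : ℂ => s) (𝓝 0) (𝓝 0) := tendsto_id
      have := (h13.isBigO_one ℂ).mul (Asymptotics.isBigO_refl (fun s : ℂ => s ^ 2) (𝓝 0))
      simpa using this
    have h14 : (fun s => U (γ s) 1 ^ 3 * (U (γ s) 2 ^ 3)⁻¹) =O[𝓝 0] (fun s : ℂ => s ^ 3) := by
      simpa using h11
    exact h14.trans h12
  have ht : (fun s => (γ s).1) =O[𝓝 0] (fun s : ℂ => s ^ 2) := by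
    refine (ha.add hb).congr' ?_ EventuallyEq.rfl
    filter_upwards [hevγ, hne] with s h15 h16
    obtain ⟨-, hc, -⟩ := h15
    have hc' : U (γ s) 0 ^ 2 * U (γ s) 2 + U (γ s) 1 ^ 3 = (γ s).1 * U (γ s) 2 ^ 3 := hc
    field_simp
    linear_combination hc'
  have ho : (fun s => (γ s).1) =o[𝓝 0] (fun s : ℂ => s) := by
    refine ht.trans_isLittleO ?_
    have : (fun s : ℂ => s ^ 2) =o[𝓝 0] (fun s : ℂ => s ^ 1) :=
      Asymptotics.isLittleO_pow_pow (by norm_num)
    simpa using this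
  have hder : HasDerivAt (fun s => (γ s).1) 0 0 := by
    rw [hasDerivAt_iff_isLittleO]
    simpa [h1] using ho
  exact hd hder.deriv

end Pool.Agent.H944R2
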