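import Pool.Agent.H944R2.C3
import Pool.Agent.H944R2.XSm
import Pool.Agent.Helper534.HB.HE

/-! The projection of the threefold is a `ℤ`-homology fibre bundle. -/

open Filter Topology Set
open scoped LinearAlgebra.Projectivization
open Pool.Agent.Helper10.UC (PP)
open Pool.Agent.Helper534.LS

noncomputable section

namespace Pool.Agent.H944R2

/-- passage to the other (identical) copy of singular homology -/
theorem HE_of_IsoH {X Y : Type} [TopologicalSpace X] [TopologicalSpace Y] {f : C(X, Y)}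
    (h : IsoH f) : Pool.Agent.Helper534.HB.HE f := by
  intro n
  constructor
  · intro z hz hb
    have hz' : z ∈ Cyc X n := by rw [← cyc_eq]; exact hz
    have h1 : hmap f n (cls z hz') = 0 := (mv_exact2_hmap f n z hz').2 hb
    have h2 : cls z hz' = 0 := (h n).1 (by rw [h1, map_zero])
    unfold cls at h2
    rw [Submodule.Quotient.mk_eq_zero] at h2
    exact h2
  · intro b hb
    have hb' : b ∈ Cyc Y n := by rw [← cyc_eq]; exact hb
    obtain ⟨x, hx⟩ := (h n).2 (cls b hb')
    obtain ⟨⟨z, hz⟩, rfl⟩ := Submodule.Quotient.mk_surjective _ x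
    refine ⟨z, by rw [cyc_eq]; exact hz, ?_⟩
    have h3 : cls b hb' = cls (push f n z) (push_mem_Cyc f n z hz) := hx.symm
    rw [mv_exact2_cls] at h3
    exact h3

/-- the projection -/
def fX (x : XX) : ℂ := x.1.1

theorem fX_hX (p : SS) : fX (hX p) = (p.2.1 : ℂ) * p.2.2.1.2 := hX_fst p

/-- the part of the threefold over `T` -/
def hT (T : Set ℂ) : Circle × KT T ≃ₜ ↥(fX ⁻¹' T) where
  toFun q := ⟨hX (q.1, q.2.1), by
    change fX (hX (q.1, q.2.1)) ∈ T
    rw [fX_hX]
    exact q.2.2⟩
  invFun x := ((hX.symm x.1).1, ⟨(hX.symm x.1).2, by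
    have h := x.2
    change fX x.1 ∈ T at h
    rw [← hX.apply_symm_apply x.1, fX_hX] at h
    exact h⟩)
  left_inv := by
    intro q
    have h := hX.symm_apply_apply (q.1, q.2.1)
    refine Prod.ext ?_ (Subtype.ext ?_)
    · change (hX.symm (hX (q.1, q.2.1))).1 = q.1
      rw [h]
    · change (hX.symm (hX (q.1, q.2.1))).2 = q.2.1
      rw [h]
  right_inv := by
    intro x
    apply Subtype.ext
    change hX ((hX.symm x.1).1, (hX.symm x.1).2) = x.1
    exact hX.apply_symm_apply x.1
  continuous_toFun := by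
    refine Continuous.subtype_mk (hX.continuous.comp ?_) _
    fun_prop
  continuous_invFun := by
    have h1 : Continuous (fun x : ↥(fX ⁻¹' T) => hX.symm x.1) :=
      hX.symm.continuous.comp continuous_subtype_val
    exact (continuous_fst.comp h1).prodMk ((continuous_snd.comp h1).subtype_mk _)

theorem iso_fibre (y : ℂ) (h : fX ⁻¹' {y} ⊆ fX ⁻¹' univ)  :
    IsoH (Pool.Agent.Helper534.HB.inclusionMap h) := by
  have h1 : IsoH (⟨hT {y}, (hT {y}).continuous⟩ : C(Circle × KT {y}, ↥(fX ⁻¹' {y}))) :=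
    iso_homeo _
  have h2 : IsoH (⟨hT univ, (hT univ).continuous⟩ : C(Circle × KT univ, ↥(fX ⁻¹' univ))) :=
    iso_homeo _
  refine IsoH.of_comp_right h1 ?_
  have h3 : (Pool.Agent.Helper534.HB.inclusionMap h).comp
      (⟨hT {y}, (hT {y}).continuous⟩ : C(Circle × KT {y}, ↥(fX ⁻¹' {y}))) =
      (⟨hT univ, (hT univ).continuous⟩ : C(Circle × KT univ, ↥(fX ⁻¹' univ))).comp
        (idx (iK y)) := rfl
  rw [h3]
  exact h2.comp (iso_iK y).idx

theorem bundle : Pool.Agent.Helper534.HB.IsZHomologyFiberBundle (fun x : XX => x.1.1) := by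
  refine ⟨{univ}, ?_, fun y => ⟨univ, rfl, trivial⟩, ?_⟩
  · intro U hU
    rw [mem_singleton_iff] at hU
    rw [hU]
    exact isOpen_univ
  · intro U hU y hy n
    rw [mem_singleton_iff] at hU
    subst hU
    exact (Pool.Agent.Helper534.HB.HE_iff_bijective _).1 (HE_of_IsoH (iso_fibre y _)) n

theorem fibre_connected (y : ℂ) : IsConnected {p : PP Ix | (y, p) ∈ XX} := by
  have h1 := circle_pc
  have h2 : PathConnectedSpace (KT {y}) := ⟨KT_ne y, KT_pc y⟩
  have h3 : ConnectedSpace (Circle × KT {y}) := inferInstance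
  have h4 : {p : PP Ix | (y, p) ∈ XX} = range (fun q : Circle × KT {y} => (hT {y} q).1.1.2) := by
    ext p
    constructor
    · intro hp
      refine ⟨(hT {y}).symm ⟨⟨(y, p), hp⟩, rfl⟩, ?_⟩
      change (hT {y} ((hT {y}).symm _)).1.1.2 = p
      rw [(hT {y}).apply_symm_apply]
    · rintro ⟨q, rfl⟩
      have h5 := (hT {y} q).2
      change (y, (hT {y} q).1.1.2) ∈ XX
      have h6 : (hT {y} q).1.1 = (y, (hT {y} q).1.1.2) := Prod.ext h5 rfl
      rw [← h6]
      exact (hT {y} q).1.2
  rw [h4]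
  refine isConnected_range ?_
  exact continuous_snd.comp (continuous_subtype_val.comp
    (continuous_subtype_val.comp (hT {y}).continuous))

end Pool.Agent.H944R2
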