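import Mathlib
import Pool.Agent.Helper10.UC.Defs
import Pool.Agent.Helper534.HB.Defs

/-! Definitions for the statement: closed complex submanifolds of `ℂ × P(ℂ^ι)` and smoothness of
the first projection. Complex projective space `PP ι = P(ℂ^ι)` with its quotient topology is from
`Pool.Agent.Helper10.UC.Defs`; integral singular homology and `ℤ`-homology fibre bundles are from
`Pool.Agent.Helper534.HB.Defs`. -/

open Filter Topology Set
open scoped LinearAlgebra.Projectivization
open Pool.Agent.Helper10.UC (PP)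

noncomputable section

namespace Pool.Agent.H944R2

/-- The affine cone (without its vertices) over a subset of `ℂ × P(ℂ^ι)`: the pairs `(t, v)` with
`v ≠ 0` and `(t, [v]) ∈ V`. -/
def affCone {ι : Type} (V : Set (ℂ × PP ι)) : Set (ℂ × (ι → ℂ)) :=
  {z | ∃ hz : z.2 ≠ 0, (z.1, Projectivization.mk ℂ z.2 hz) ∈ V}

/-- `V ⊂ ℂ × P(ℂ^ι)` is a complex submanifold of dimension `d`: near each of its points, the affine
cone over `V` is the zero set of a holomorphic submersion onto a complex vector space of dimension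
`(|ι| + 1) - (d + 1)`. -/
def IsComplexSubmanifold {ι : Type} [Fintype ι] (V : Set (ℂ × PP ι)) (d : ℕ) : Prop :=
  ∀ v ∈ affCone V, ∃ (G : Type) (_ : NormedAddCommGroup G) (_ : NormedSpace ℂ G)
    (_ : FiniteDimensional ℂ G) (g : ℂ × (ι → ℂ) → G),
    Module.finrank ℂ G + (d + 1) = Fintype.card ι + 1 ∧ AnalyticAt ℂ g v ∧
    Function.Surjective (fderiv ℂ g v) ∧ ∀ᶠ z in 𝓝 v, (z ∈ affCone V ↔ g z = 0)

/-- The first projection `V → ℂ` of a complex submanifold `V ⊂ ℂ × P(ℂ^ι)` is a submersion (is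
smooth) at the point `x`: some germ of a holomorphic curve `s ↦ γ(s)` in `V` (given by its lift to
the affine cone) passes through `x` at `s = 0` and has a first coordinate with nonzero derivative
at `s = 0`. -/
def IsSmoothAt {ι : Type} [Fintype ι] (V : Set (ℂ × PP ι)) (x : ℂ × PP ι) : Prop :=
  ∃ γ : ℂ → ℂ × (ι → ℂ), AnalyticAt ℂ γ 0 ∧ (∀ᶠ s in 𝓝 (0 : ℂ), γ s ∈ affCone V) ∧
    (∃ h : (γ 0).2 ≠ 0, ((γ 0).1, Projectivization.mk ℂ (γ 0).2 h) = x) ∧
    deriv (fun s => (γ s).1) 0 ≠ 0

end Pool.Agent.H944R2
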