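import Pool.Agent.H944R2.Surf

/-! The threefold is homeomorphic to `S¹ × (S¹ × 𝒞)`. -/

open Filter Topology Set
open scoped LinearAlgebra.Projectivization
open Pool.Agent.Helper10.UC (PP)

noncomputable section

namespace Pool.Agent.H944R2

/-- the topological model -/
abbrev SS : Type := Circle × (Circle × CC)

/-- inclusion in the ambient product -/
def iS (p : SS) : Circle × (Circle × (PP (Fin 3) × ℂ)) := (p.1, (p.2.1, p.2.2.1))

theorem iS_closedEmbedding : IsClosedEmbedding iS :=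
  IsClosedEmbedding.id.prodMap (IsClosedEmbedding.id.prodMap isClosed_CC.isClosedEmbedding_subtypeVal)

/-- the homeomorphism turning `σ τ` into a coordinate -/
def eH : Circle × (Circle × (PP (Fin 3) × ℂ)) ≃ₜ (Circle × (Circle × PP (Fin 3))) × ℂ where
  toFun p := ((p.1, (p.2.1, p.2.2.1)), (p.2.1 : ℂ) * p.2.2.2)
  invFun p := (p.1.1, (p.1.2.1, (p.1.2.2, ((p.1.2.1⁻¹ : Circle) : ℂ) * p.2)))
  left_inv := by
    rintro ⟨w, s, p, t⟩
    simp
  right_inv := by
    rintro ⟨⟨w, s, p⟩, t⟩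
    simp
  continuous_toFun := by fun_prop
  continuous_invFun := by fun_prop

theorem eH_proper : IsProperMap (fun p : Circle × (Circle × (PP (Fin 3) × ℂ)) =>
    (p.2.1 : ℂ) * p.2.2.2) :=
  (isProperMap_snd_of_compactSpace (X := Circle × (Circle × PP (Fin 3))) (Y := ℂ)).comp
    eH.isProperMap

theorem JJ_fst (p) : (JJ p).1 = (p.2.1 : ℂ) * p.2.2.2 := by
  obtain ⟨q, rfl⟩ := QL_oq.surjective p
  rw [JJ_QL]
  rfl

/-- the embedding -/
def jS (p : SS) : ℂ × PP Ix := JJ (iS p)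

theorem jS_continuous : Continuous jS := JJ_continuous.comp iS_closedEmbedding.continuous

theorem jS_proper : IsProperMap jS := by
  have h1 : IsProperMap ((Prod.fst : ℂ × PP Ix → ℂ) ∘ jS) := by
    have : (Prod.fst : ℂ × PP Ix → ℂ) ∘ jS = (fun p : Circle × (Circle × (PP (Fin 3) × ℂ)) =>
        (p.2.1 : ℂ) * p.2.2.2) ∘ iS := by
      funext p
      exact JJ_fst (iS p)
    rw [this]
    exact eH_proper.comp iS_closedEmbedding.isProperMap
  exact isProperMap_of_comp_of_t2 jS_continuous continuous_fst h1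

/-- any point of the model in lifted coordinates -/
theorem SS_lift (p : SS) : ∃ (s : ℝ) (u : {v : Fin 3 → ℂ // v ≠ 0}) (t : ℂ),
    Cub u.1 t ∧ iS p = QL (p.1, (s, (u, t))) ∧ sg s = p.2.1 ∧ mkP u = p.2.2.1.1 ∧ t = p.2.2.1.2 := by
  obtain ⟨w, z, ⟨c, t⟩, hc⟩ := p
  obtain ⟨s, rfl⟩ := sg_oq.surjective z
  obtain ⟨u, rfl⟩ := mkP_oq.surjective c
  exact ⟨s, u, t, mem_CC.1 hc, rfl, rfl, rfl, rfl⟩

theorem key_inj {x y : ℂ} (hx : x ≠ 0) (hy : y ≠ 0) {u u' : Fin 3 → ℂ} (hu : u ≠ 0)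
    {t : ℂ} (hc : Cub u t) (l : ℂ) (h : vec x u = l • vec y u') : IsQ (x * y⁻¹) := by
  by_cases h2 : u 2 = 0
  · exact vec_inj_left hx hy l (Cub_ne hu hc h2) h
  · exact vec_inj_left hx hy l h2 h

theorem jS_injective : Function.Injective jS := by
  intro p p' h
  obtain ⟨s, u, t, hc, hp, hs, hu, ht⟩ := SS_lift p
  obtain ⟨s', u', t', hc', hp', hs', hu', ht'⟩ := SS_lift p'
  unfold jS at h
  rw [hp, hp', JJ_QL, JJ_QL] at h
  have h1 : (sg s : ℂ) * t = (sg s' : ℂ) * t' := congrArg Prod.fst h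
  have h2 : mkP ⟨vec (xx s p.1) (tw s u.1), vec_ne (xx_ne _ _) (tw_ne _ u.2)⟩ =
    mkP ⟨vec (xx s' p'.1) (tw s' u'.1), vec_ne (xx_ne _ _) (tw_ne _ u'.2)⟩ := congrArg Prod.snd h
  obtain ⟨l, hl⟩ := (mkP_eq_iff _ _).1 h2
  change vec (xx s p.1) (tw s u.1) = l • vec (xx s' p'.1) (tw s' u'.1) at hl
  obtain ⟨n, hn⟩ := key_inj (xx_ne _ _) (xx_ne _ _) (tw_ne s u.2) ((Cub_tw s u.1 t).2 hc) l hl
  have hn' : xx s p.1 = qq ^ n * xx s' p'.1 := by
    rw [← hn, mul_assoc, inv_mul_cancel₀ (xx_ne _ _), mul_one]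
  rw [← xx_add] at hn'
  have hss : s = s' + n := by
    have := congrArg norm hn'
    rw [norm_xx, norm_xx, Real.exp_eq_exp] at this
    linarith
  have hw : p.1 = p'.1 := by
    rw [← hss] at hn'
    unfold xx at hn'
    have h0 : ((Real.exp (-s) : ℝ) : ℂ) ≠ 0 := by exact_mod_cast (Real.exp_pos _).ne'
    exact Circle.ext (mul_left_cancel₀ h0 hn')
  have hsg : sg s = sg s' := sg_eq_iff.2 ⟨n, hss⟩
  have htt : t = t' := by
    rw [hsg] at h1
    exact mul_left_cancel₀ (sg s').coe_ne_zero h1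
  have huu : mkP u = mkP u' := by
    rw [mkP_eq_iff]
    obtain ⟨m, hm, h3⟩ := vec_zshift n (xx_ne s' p'.1) (tw s' u.1)
    have e : tw s u.1 = fun k => ch k ^ n * tw s' u.1 k := by
      funext k
      rw [hss, tw, tw, ep_add]; ring
    rw [hn', xx_add, e, h3, ← vec_smul, ← vec_smul] at hl
    have h4 := vec_inj_right (xx_ne _ _) hl
    refine ⟨m⁻¹ * l, ?_⟩
    funext k
    have h5 := congrFun h4 k
    simp only [Pi.smul_apply, smul_eq_mul, tw] at h5 ⊢
    have h6 := ep_ne k s'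
    apply mul_left_cancel₀ h6
    apply mul_left_cancel₀ hm
    rw [h5]
    field_simp
  apply iS_closedEmbedding.injective
  rw [hp, hp', QL, QL]
  simp only [Prod.mk.injEq]
  exact ⟨hw, hsg, huu, htt⟩

theorem range_jS : range jS = XX := by
  ext z
  constructor
  · rintro ⟨p, rfl⟩
    obtain ⟨s, u, t, hc, hp, hs, hu, ht⟩ := SS_lift p
    unfold jS
    rw [hp, JJ_QL]
    exact ⟨xx s p.1, tw s u.1, xx_ne _ _, tw_ne _ u.2, (Cub_tw s u.1 t).2 hc, rfl⟩
  · rintro ⟨x, u, hx, hu, hc, hz⟩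
    obtain ⟨z1, z2⟩ := z
    simp only at hc hz
    subst hz
    have hn : 0 < ‖x‖ := norm_pos_iff.2 hx
    have hnc : ((‖x‖ : ℝ) : ℂ) ≠ 0 := by exact_mod_cast hn.ne'
    let s : ℝ := -Real.log ‖x‖
    let w : Circle := ⟨x / (‖x‖ : ℝ), mem_sphere_zero_iff_norm.mpr (by
      rw [norm_div, Complex.norm_real, norm_norm, div_self hn.ne'])⟩
    have hxx : xx s w = x := by
      change ((Real.exp (- -Real.log ‖x‖) : ℝ) : ℂ) * (x / (‖x‖ : ℝ)) = x
      rw [neg_neg, Real.exp_log hn]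
      field_simp
    have hu' : (fun k => (ep k s)⁻¹ * u k) ≠ 0 := by
      obtain ⟨k, hk⟩ := Function.ne_iff.1 hu
      exact Function.ne_iff.2 ⟨k, mul_ne_zero (inv_ne_zero (ep_ne k s)) hk⟩
    have htw : tw s (fun k => (ep k s)⁻¹ * u k) = u := by
      funext k
      rw [tw, mul_inv_cancel_left₀ (ep_ne k s)]
    have hmul : (sg s : ℂ) * (((sg s)⁻¹ : Circle) * z1) = z1 := by
      rw [← mul_assoc, ← Circle.coe_mul, mul_inv_cancel, Circle.coe_one, one_mul]
    have hcc : Cub (fun k => (ep k s)⁻¹ * u k) (((sg s)⁻¹ : Circle) * z1) := by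
      rw [← Cub_tw s, htw, hmul]
      exact hc
    refine ⟨(w, (sg s, ⟨(mkP ⟨_, hu'⟩, ((sg s)⁻¹ : Circle) * z1), mem_CC.2 hcc⟩)), ?_⟩
    change JJ (QL (w, (s, (⟨_, hu'⟩, ((sg s)⁻¹ : Circle) * z1)))) = _
    rw [JJ_QL]
    refine Prod.ext hmul ?_
    change mkP _ = mkP _
    congr 1
    apply Subtype.ext
    change vec (xx s w) (tw s _) = vec x u
    rw [hxx, htw]

theorem jS_closedEmbedding : IsClosedEmbedding jS :=
  IsClosedEmbedding.of_continuous_injective_isClosedMap jS_continuous jS_injective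
    jS_proper.isClosedMap

theorem isClosed_XX : IsClosed XX := by
  rw [← range_jS]
  exact jS_closedEmbedding.isClosed_range

/-- the homeomorphism of the model with the threefold -/
def hX : SS ≃ₜ XX :=
  jS_closedEmbedding.toIsEmbedding.toHomeomorph.trans (Homeomorph.setCongr range_jS)

theorem hX_coe (p : SS) : (hX p : ℂ × PP Ix) = jS p := rfl

theorem hX_fst (p : SS) : (hX p).1.1 = (p.2.1 : ℂ) * p.2.2.1.2 := JJ_fst (iS p)

end Pool.Agent.H944R2
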