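import Pool.Agent.Helper534.LS.P_raw
import Pool.Agent.Helper534.LS.P_hmap_comp
import Pool.Agent.Helper534.LS.P_hmap_id
import Pool.Agent.Helper534.LS.P_hmap_homotopic
import Pool.Agent.Helper534.LS.P_mv_exact1
import Pool.Agent.Helper534.LS.P_mv_exact2
import Pool.Agent.Helper534.LS.P_mv_nat
import Pool.Agent.Helper534.LS.P_mv_delta_inl
import Pool.Agent.Helper534.LS.P_par_spec
import Pool.Agent.Helper534.LS.P_sig_nat
import Pool.Agent.Helper534.LS.P_sig_inj
import Pool.Agent.Helper534.LS.P_sig_spec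
import Pool.Agent.Helper534.LS.P_circ_sub
import Pool.Agent.Helper534.LS.P_circ_cov

/-! Homology isomorphisms. -/

open Pool.Agent.Helper534.LS

noncomputable section

namespace Pool.Agent.H944R2

variable {X Y Z : Type} [TopologicalSpace X] [TopologicalSpace Y] [TopologicalSpace Z]

/-- homology isomorphism in all degrees -/
def IsoH (f : C(X, Y)) : Prop := ∀ n : ℕ, Function.Bijective (hmap f n)

theorem hmap_comp_coe (f : C(X, Y)) (g : C(Y, Z)) (n : ℕ) :
    ⇑(hmap (g.comp f) n) = ⇑(hmap g n) ∘ ⇑(hmap f n) := funext fun x => hmap_comp f g n x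

theorem IsoH.comp {f : C(X, Y)} {g : C(Y, Z)} (hg : IsoH g) (hf : IsoH f) : IsoH (g.comp f) := by
  intro n
  rw [hmap_comp_coe]
  exact (hg n).comp (hf n)

theorem IsoH.of_comp_left {f : C(X, Y)} {g : C(Y, Z)} (hg : IsoH g) (h : IsoH (g.comp f)) :
    IsoH f := by
  intro n
  have := h n
  rw [hmap_comp_coe] at this
  exact (Function.Bijective.of_comp_iff' (hg n) _).1 this

theorem IsoH.of_comp_right {f : C(X, Y)} {g : C(Y, Z)} (hf : IsoH f) (h : IsoH (g.comp f)) :
    IsoH g := by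
  intro n
  have := h n
  rw [hmap_comp_coe] at this
  exact (Function.Bijective.of_comp_iff _ (hf n)).1 this

theorem IsoH.of_equiv (f : C(X, Y)) (g : C(Y, X)) (h1 : (g.comp f).Homotopic (ContinuousMap.id X))
    (h2 : (f.comp g).Homotopic (ContinuousMap.id Y)) : IsoH f := by
  intro n
  have e1 : ∀ x, hmap g n (hmap f n x) = x := by
    intro x
    rw [← hmap_comp, hmap_homotopic _ _ h1, hmap_id]
  have e2 : ∀ x, hmap f n (hmap g n x) = x := by
    intro x
    rw [← hmap_comp, hmap_homotopic _ _ h2, hmap_id]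
  exact ⟨fun a b h => by rw [← e1 a, h, e1], fun y => ⟨_, e2 y⟩⟩

theorem IsoH.of_homeo (e : X ≃ₜ Y) (f : C(X, Y)) (hf : ∀ x, f x = e x) : IsoH f := by
  refine IsoH.of_equiv f ⟨e.symm, e.symm.continuous⟩ ?_ ?_
  · have : (⟨e.symm, e.symm.continuous⟩ : C(Y, X)).comp f = ContinuousMap.id X := by
      ext x
      change e.symm (f x) = x
      rw [hf, e.symm_apply_apply]
    rw [this]
  · have : f.comp (⟨e.symm, e.symm.continuous⟩ : C(Y, X)) = ContinuousMap.id Y := by
      ext x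
      change f (e.symm x) = x
      rw [hf, e.apply_symm_apply]
    rw [this]

theorem IsoH.congr {f g : C(X, Y)} (hf : IsoH f) (h : ∀ x, f x = g x) : IsoH g := by
  have : f = g := ContinuousMap.ext h
  rwa [← this]

/-- homotopies from explicit formulas -/
theorem htp {f g : C(X, Y)} (H : unitInterval × X → Y) (hc : Continuous H)
    (h0 : ∀ x, H (0, x) = f x) (h1 : ∀ x, H (1, x) = g x) : f.Homotopic g :=
  ⟨⟨⟨H, hc⟩, h0, h1⟩⟩

theorem mv0 (U V : Set X) (hUV : ∀ x, x ∈ U ∨ x ∈ V) (x : HH X 0) :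
    ∃ (u : HH U 0) (v : HH V 0), x = hmap (sub U) 0 u + hmap (sub V) 0 v := by
  obtain ⟨⟨z, hz⟩, rfl⟩ := Submodule.Quotient.mk_surjective _ x
  obtain ⟨u, v, h⟩ := Pool.Agent.Helper534.HB.mv_zero U V hUV z
  refine ⟨cls u Submodule.mem_top, cls v Submodule.mem_top, ?_⟩
  have h' : z = push (sub U) 0 u + push (sub V) 0 v := h
  subst h'
  rfl

theorem mv3 (U V : Set X) (hU : IsOpen U) (hV : IsOpen V) (hUV : ∀ x, x ∈ U ∨ x ∈ V) (n : ℕ)
    (u : HH U n) (v : HH V n) (h : hmap (sub U) n u + hmap (sub V) n v = 0) :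
    ∃ d : HH ↥(U ∩ V) n, u = hmap (inl U V) n d ∧ v = - hmap (inr U V) n d := by
  obtain ⟨⟨z, hz⟩, rfl⟩ := Submodule.Quotient.mk_surjective _ u
  obtain ⟨⟨w, hw⟩, rfl⟩ := Submodule.Quotient.mk_surjective _ v
  have h1 : push (sub U) n z + push (sub V) n w ∈ Bdy X n := by
    have h2 : (Submodule.Quotient.mk
      (⟨push (sub U) n z + push (sub V) n w,
        add_mem (push_mem_Cyc _ n z hz) (push_mem_Cyc _ n w hw)⟩ : Cyc X n) : HH X n) = 0 := h
    rw [Submodule.Quotient.mk_eq_zero] at h2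
    exact h2
  obtain ⟨d, hd, h3, h4⟩ := raw_inj U V hU hV hUV n z w hz hw h1
  refine ⟨cls d hd, ?_, ?_⟩
  · change (Submodule.Quotient.mk (⟨z, hz⟩ : Cyc U n) : HH U n) =
      Submodule.Quotient.mk (⟨push (inl U V) n d, push_mem_Cyc _ n d hd⟩ : Cyc U n)
    rw [Submodule.Quotient.eq]
    exact h3
  · change (Submodule.Quotient.mk (⟨w, hw⟩ : Cyc V n) : HH V n) =
      Submodule.Quotient.mk (-(⟨push (inr U V) n d, push_mem_Cyc _ n d hd⟩ : Cyc V n))
    rw [Submodule.Quotient.eq]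
    change w - -push (inr U V) n d ∈ Bdy V n
    rwa [sub_neg_eq_add]

theorem sub_inl (U V : Set X) (n : ℕ) (d : HH ↥(U ∩ V) n) :
    hmap (sub U) n (hmap (inl U V) n d) = hmap (sub V) n (hmap (inr U V) n d) := by
  rw [← hmap_comp, ← hmap_comp]
  rfl

/-- the five lemma for Mayer-Vietoris sequences -/
theorem five (φ : C(X, Y)) (U V : Set X) (hU : IsOpen U) (hV : IsOpen V)
    (hUV : ∀ x, x ∈ U ∨ x ∈ V) (U' V' : Set Y) (hU' : IsOpen U') (hV' : IsOpen V')
    (hUV' : ∀ x, x ∈ U' ∨ x ∈ V') (φ1 : C(U, U')) (φ2 : C(V, V')) (φ12 : C(↥(U ∩ V), ↥(U' ∩ V')))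
    (h1 : ∀ x, (φ1 x : Y) = φ x) (h2 : ∀ x, (φ2 x : Y) = φ x) (h12 : ∀ x, (φ12 x : Y) = φ x)
    (i1 : IsoH φ1) (i2 : IsoH φ2) (i12 : IsoH φ12) : IsoH φ := by
  have c1 : ∀ n u, hmap φ n (hmap (sub U) n u) = hmap (sub U') n (hmap φ1 n u) := by
    intro n u
    rw [← hmap_comp, ← hmap_comp]
    have : φ.comp (sub U) = (sub U').comp φ1 := ContinuousMap.ext fun x => (h1 x).symm
    rw [this]
  have c2 : ∀ n u, hmap φ n (hmap (sub V) n u) = hmap (sub V') n (hmap φ2 n u) := by
    intro n u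
    rw [← hmap_comp, ← hmap_comp]
    have : φ.comp (sub V) = (sub V').comp φ2 := ContinuousMap.ext fun x => (h2 x).symm
    rw [this]
  have c3 : ∀ n d, hmap φ1 n (hmap (inl U V) n d) = hmap (inl U' V') n (hmap φ12 n d) := by
    intro n u
    rw [← hmap_comp, ← hmap_comp]
    have : φ1.comp (inl U V) = (inl U' V').comp φ12 := ContinuousMap.ext fun x => Subtype.ext (by
      change (φ1 _ : Y) = (φ12 x : Y)
      rw [h1, h12]
      rfl)
    rw [this]
  have c4 : ∀ n d, hmap φ2 n (hmap (inr U V) n d) = hmap (inr U' V') n (hmap φ12 n d) := by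
    intro n u
    rw [← hmap_comp, ← hmap_comp]
    have : φ2.comp (inr U V) = (inr U' V').comp φ12 := ContinuousMap.ext fun x => Subtype.ext (by
      change (φ2 _ : Y) = (φ12 x : Y)
      rw [h2, h12]
      rfl)
    rw [this]
  have hfU : ∀ x ∈ U, φ x ∈ U' := by
    intro x hx
    rw [← h1 ⟨x, hx⟩]
    exact (φ1 ⟨x, hx⟩).2
  have hfV : ∀ x ∈ V, φ x ∈ V' := by
    intro x hx
    rw [← h2 ⟨x, hx⟩]
    exact (φ2 ⟨x, hx⟩).2
  have cδ : ∀ n x, delta U' V' n (hmap φ (n + 1) x) = hmap φ12 n (delta U V n x) := fun n x =>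
    mv_nat U V hU hV hUV U' V' hU' hV' hUV' φ hfU hfV φ12 h12 n x
  -- the common injectivity argument
  have key : ∀ n (u : HH U n) (v : HH V n),
      hmap φ n (hmap (sub U) n u + hmap (sub V) n v) = 0 →
      hmap (sub U) n u + hmap (sub V) n v = 0 := by
    intro n u v h
    rw [map_add, c1, c2] at h
    obtain ⟨d', e1, e2⟩ := mv3 U' V' hU' hV' hUV' n _ _ h
    obtain ⟨d, rfl⟩ := (i12 n).2 d'
    rw [← c3] at e1
    rw [← c4, ← map_neg] at e2
    rw [(i1 n).1 e1, (i2 n).1 e2, map_neg, sub_inl, add_neg_cancel]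
  intro n
  cases n with
  | zero =>
    constructor
    · rw [injective_iff_map_eq_zero]
      intro x hx
      obtain ⟨u, v, rfl⟩ := mv0 U V hUV x
      exact key 0 u v hx
    · intro y
      obtain ⟨u', v', rfl⟩ := mv0 U' V' hUV' y
      obtain ⟨u, rfl⟩ := (i1 0).2 u'
      obtain ⟨v, rfl⟩ := (i2 0).2 v'
      exact ⟨hmap (sub U) 0 u + hmap (sub V) 0 v, by rw [map_add, c1, c2]⟩
  | succ n =>
    constructor
    · rw [injective_iff_map_eq_zero]
      intro x hx
      have h3 : delta U V n x = 0 := by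
        apply (i12 n).1
        rw [← cδ, hx, map_zero, map_zero]
      obtain ⟨u, v, rfl⟩ := mv_exact1 U V hU hV hUV n x h3
      exact key (n + 1) u v hx
    · intro y
      obtain ⟨d, hd⟩ := (i12 n).2 (delta U' V' n y)
      have hdel := mv_delta_inl U' V' hU' hV' hUV' n y
      have e1 : hmap (inl U V) n d = 0 := by
        apply (i1 n).1
        rw [c3, hd, hdel.1, map_zero]
      have e2 : hmap (inr U V) n d = 0 := by
        apply (i2 n).1
        rw [c4, hd, hdel.2, map_zero]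
      obtain ⟨x, hx⟩ := mv_exact2 U V hU hV hUV n d e1 e2
      have e3 : delta U' V' n (y - hmap φ (n + 1) x) = 0 := by
        rw [map_sub, cδ, hx, hd, sub_self]
      obtain ⟨u', v', h3⟩ := mv_exact1 U' V' hU' hV' hUV' n _ e3
      obtain ⟨u, rfl⟩ := (i1 (n + 1)).2 u'
      obtain ⟨v, rfl⟩ := (i2 (n + 1)).2 v'
      refine ⟨x + (hmap (sub U) (n + 1) u + hmap (sub V) (n + 1) v), ?_⟩
      rw [map_add, map_add, c1, c2, ← h3]
      abel

/-! ### products with the circle -/

theorem pr_iota (Q : Type) [TopologicalSpace Q] (n : ℕ) (x : HH Q n) :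
    hmap (prQ Q) n (hmap (iota Q) n x) = x := by
  rw [← hmap_comp]
  exact hmap_id n x

theorem iota_surj0 (Q : Type) [TopologicalSpace Q] (x : HH (Circle × Q) 0) :
    ∃ y : HH Q 0, x = hmap (iota Q) 0 y := by
  obtain ⟨h1, h2, h3⟩ := circ_cov Q
  obtain ⟨u, v, rfl⟩ := mv0 (cU Q) (cV Q) h3 x
  obtain ⟨a, ha⟩ := (circ_sub Q 0).1 u
  obtain ⟨b, hb⟩ := (circ_sub Q 0).2 v
  exact ⟨a + b, by rw [ha, hb, map_add]⟩

theorem idx_iota {Q Q' : Type} [TopologicalSpace Q] [TopologicalSpace Q'] (f : C(Q, Q')) (n : ℕ)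
    (x : HH Q n) : hmap (idx f) n (hmap (iota Q) n x) = hmap (iota Q') n (hmap f n x) := by
  rw [← hmap_comp, ← hmap_comp]
  rfl

theorem pr_idx {Q Q' : Type} [TopologicalSpace Q] [TopologicalSpace Q'] (f : C(Q, Q')) (n : ℕ)
    (x : HH (Circle × Q) n) : hmap (prQ Q') n (hmap (idx f) n x) = hmap f n (hmap (prQ Q) n x) := by
  rw [← hmap_comp, ← hmap_comp]
  rfl

theorem IsoH.idx {Q Q' : Type} [TopologicalSpace Q] [TopologicalSpace Q'] {f : C(Q, Q')}
    (hf : IsoH f) : IsoH (idx f) := by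
  intro n
  cases n with
  | zero =>
    constructor
    · rw [injective_iff_map_eq_zero]
      intro x hx
      obtain ⟨y, rfl⟩ := iota_surj0 Q x
      rw [idx_iota] at hx
      have h1 := congrArg (hmap (prQ Q') 0) hx
      rw [pr_iota, map_zero] at h1
      have h2 : y = 0 := (hf 0).1 (by rw [h1, map_zero])
      rw [h2, map_zero]
    · intro y
      obtain ⟨a, rfl⟩ := iota_surj0 Q' y
      obtain ⟨b, rfl⟩ := (hf 0).2 a
      exact ⟨hmap (iota Q) 0 b, idx_iota f 0 b⟩
  | succ n =>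
    constructor
    · rw [injective_iff_map_eq_zero]
      intro x hx
      have h1 := congrArg (hmap (prQ Q') (n + 1)) hx
      rw [pr_idx, map_zero] at h1
      have h2 : hmap (prQ Q) (n + 1) x = 0 := (hf (n + 1)).1 (by rw [h1, map_zero])
      have h3 := par_spec Q n x
      rw [h2, map_zero, zero_add] at h3
      rw [h3, sig_nat] at hx
      have h4 := sig_inj Q' n _ hx
      have h5 : par Q n x = 0 := (hf n).1 (by rw [h4, map_zero])
      rw [h3, h5, map_zero]
    · intro y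
      obtain ⟨a, ha⟩ := (hf (n + 1)).2 (hmap (prQ Q') (n + 1) y)
      obtain ⟨b, hb⟩ := (hf n).2 (par Q' n y)
      refine ⟨hmap (iota Q) (n + 1) a + sig Q n b, ?_⟩
      rw [map_add, idx_iota, sig_nat, ha, hb]
      exact (par_spec Q' n y).symm

/-! ### path connectedness from `H_0` -/

theorem joined_of_H0 (f : C(X, Y)) (hY : PathConnectedSpace Y)
    (hf : Function.Injective (hmap f 0)) (p q : X) : Joined p q := by
  classical
  have hpt : ∀ r : X, (Finsupp.single (ContinuousMap.const _ r : Sing X 0) (1 : ℤ)) ∈ Cyc X 0 :=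
    fun r => Submodule.mem_top
  -- the images of the two points are homologous
  obtain ⟨γ⟩ := hY.joined (f p) (f q)
  have h1 : hmap f 0 (cls _ (hpt p)) = hmap f 0 (cls _ (hpt q)) := by
    have e : ∀ r : X, hmap f 0 (cls _ (hpt r)) =
        hmap (ContinuousMap.const Unit (f r)) 0 ptU := by
      intro r
      have e1 : push f 0 (Finsupp.single (ContinuousMap.const _ r : Sing X 0) (1 : ℤ)) =
          push (ContinuousMap.const Unit (f r)) 0
            (Finsupp.single (ContinuousMap.const _ () : Sing Unit 0) (1 : ℤ)) := by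
        simp only [push, Finsupp.lmapDomain_apply, Finsupp.mapDomain_single]
        rfl
      change cls (push f 0 _) (push_mem_Cyc f 0 _ (hpt r)) =
        cls (push (ContinuousMap.const Unit (f r)) 0 _) (push_mem_Cyc _ 0 _ Submodule.mem_top)
      unfold cls
      congr 1
      exact Subtype.ext e1
    rw [e, e]
    have hh : (ContinuousMap.const Unit (f p)).Homotopic (ContinuousMap.const Unit (f q)) := by
      refine htp (fun x => γ x.1) (by fun_prop) ?_ ?_
      · intro x; simp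
      · intro x; simp
    rw [hmap_homotopic _ _ hh]
  have h2 := hf h1
  unfold cls at h2
  rw [Submodule.Quotient.eq] at h2
  obtain ⟨c, hc⟩ := h2
  -- the indicator of the path component
  let φ : (Sing X 0 →₀ ℤ) →ₗ[ℤ] ℤ :=
    Finsupp.lsum ℤ fun σ =>
      (if Joined p (σ (Pool.Agent.Helper534.HB.Sc.vert 0 0)) then (1 : ℤ) else 0) •
      (LinearMap.id : ℤ →ₗ[ℤ] ℤ)
  have hφ : ∀ σ (a : ℤ), φ (Finsupp.single σ a) =
      (if Joined p (σ (Pool.Agent.Helper534.HB.Sc.vert 0 0)) then 1 else 0) * a := by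
    intro σ a
    simp only [φ, Finsupp.lsum_apply, Finsupp.sum_single_index, map_zero]
    rw [LinearMap.smul_apply, smul_eq_mul, LinearMap.id_apply]
  have hφb : φ ∘ₗ bdry X 0 = 0 := by
    apply Finsupp.lhom_ext'
    intro τ
    apply LinearMap.ext_ring
    simp only [LinearMap.comp_apply, Finsupp.lsingle_apply, bdry, LinearMap.sum_apply,
      LinearMap.smul_apply, Finsupp.lmapDomain_apply, Finsupp.mapDomain_single, map_sum, map_smul,
      LinearMap.zero_apply, hφ]
    rw [Fin.sum_univ_two]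
    have hj : Joined (τ (stdSimplex.map (Fin.succAbove (0 : Fin 2))
        (Pool.Agent.Helper534.HB.Sc.vert 0 0)))
        (τ (stdSimplex.map (Fin.succAbove (1 : Fin 2)) (Pool.Agent.Helper534.HB.Sc.vert 0 0))) := by
      have hpc : IsPathConnected (Set.range τ) := by
        have : PathConnectedSpace (stdSimplex ℝ (Fin (0 + 1 + 1))) :=
          isPathConnected_iff_pathConnectedSpace.1
            ((convex_stdSimplex ℝ _).isPathConnected
              ⟨_, (Pool.Agent.Helper534.HB.Sc.vert (0 + 1) 0).2⟩)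
        exact isPathConnected_range τ.continuous
      exact (hpc.joinedIn _ ⟨_, rfl⟩ _ ⟨_, rfl⟩).joined
    have hiff : Joined p (τ (stdSimplex.map (Fin.succAbove (0 : Fin 2))
        (Pool.Agent.Helper534.HB.Sc.vert 0 0))) ↔
        Joined p (τ (stdSimplex.map (Fin.succAbove (1 : Fin 2))
          (Pool.Agent.Helper534.HB.Sc.vert 0 0))) :=
      ⟨fun h => h.trans hj, fun h => h.trans hj.symm⟩
    change (-1 : ℤ) ^ 0 • ((if Joined p (τ (stdSimplex.map (Fin.succAbove (0 : Fin 2))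
        (Pool.Agent.Helper534.HB.Sc.vert 0 0))) then 1 else 0) * 1) + (-1 : ℤ) ^ 1 •
        ((if Joined p (τ (stdSimplex.map (Fin.succAbove (1 : Fin 2))
          (Pool.Agent.Helper534.HB.Sc.vert 0 0))) then 1 else 0) * 1) = (0 : ℤ)
    simp only [hiff]
    ring
  have h3 : φ (bdry X 0 c) = 0 := LinearMap.congr_fun hφb c
  have h4 : bdry X 0 c = Finsupp.single (ContinuousMap.const _ p : Sing X 0) (1 : ℤ) -
      Finsupp.single (ContinuousMap.const _ q : Sing X 0) (1 : ℤ) := hc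
  rw [h4, map_sub, hφ, hφ] at h3
  by_contra hpq
  have h5 : ¬ Joined p ((ContinuousMap.const _ q : Sing X 0)
    (Pool.Agent.Helper534.HB.Sc.vert 0 0)) := hpq
  have h6 : Joined p ((ContinuousMap.const _ p : Sing X 0)
    (Pool.Agent.Helper534.HB.Sc.vert 0 0)) := Joined.refl p
  rw [if_neg h5, if_pos h6] at h3
  norm_num at h3

end Pool.Agent.H944R2
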