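import Pool.Agent.H944R2.H2

/-! The space `{(σ, u, v) : |σ| = 1, σ (u² + v³) = 1}` (homotopy equivalent to the complement of the
trefoil knot) and its pieces. -/

open Pool.Agent.Helper534.LS

noncomputable section

namespace Pool.Agent.H944R2

abbrev TT : Type := Circle × (ℂ × ℂ)

/-- the space `σ (u² + v³) = 1` -/
abbrev MM : Type := {p : TT // (p.1 : ℂ) * (p.2.1 ^ 2 + p.2.2 ^ 3) = 1}

def aa (p : TT) : ℂ := p.1 * p.2.1 ^ 2
def bb (p : TT) : ℂ := p.1 * p.2.2 ^ 3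

theorem aa_cont : Continuous aa := by
  unfold aa
  have : Continuous (fun p : TT => (p.1 : ℂ)) := by fun_prop
  fun_prop

theorem bb_cont : Continuous bb := by
  unfold bb
  have : Continuous (fun p : TT => (p.1 : ℂ)) := by fun_prop
  fun_prop

theorem ab (x : MM) : aa x.1 + bb x.1 = 1 := by
  have := x.2
  unfold aa bb
  linear_combination this

theorem mem_M {p : TT} (h : aa p + bb p = 1) : (p.1 : ℂ) * (p.2.1 ^ 2 + p.2.2 ^ 3) = 1 := by
  unfold aa bb at h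
  linear_combination h

theorem ab_re (x : MM) : (aa x.1).re + (bb x.1).re = 1 := by
  have := congrArg Complex.re (ab x)
  simpa using this

def W1 : Set MM := {x | (aa x.1).re < 2 / 3}
def W2 : Set MM := {x | 1 / 3 < (aa x.1).re}

theorem W1_open : IsOpen W1 :=
  isOpen_lt (Complex.continuous_re.comp (aa_cont.comp continuous_subtype_val)) continuous_const
theorem W2_open : IsOpen W2 :=
  isOpen_lt continuous_const (Complex.continuous_re.comp (aa_cont.comp continuous_subtype_val))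
theorem W_cov (x : MM) : x ∈ W1 ∨ x ∈ W2 := by
  by_cases h : (aa x.1).re < 2 / 3
  · exact Or.inl h
  · right
    change 1 / 3 < (aa x.1).re
    linarith

/-! #### first piece -/

theorem W1_b (x : W1) : 0 < (bb x.1.1).re := by
  have h1 : (aa x.1.1).re < 2 / 3 := x.2
  have h2 := ab_re x.1
  linarith

/-- deformation of the first piece -/
def d1 (k : ℝ) (p : TT) : TT :=
  (p.1, ((k : ℂ) * p.2.1, p.2.2 * cb (1 - (k : ℂ) ^ 2 * aa p) / cb (bb p)))

theorem aa_d1 (k : ℝ) (p : TT) : aa (d1 k p) = (k : ℂ) ^ 2 * aa p := by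
  unfold aa d1
  ring

theorem bb_d1 (k : ℝ) {p : TT} (h : bb p ≠ 0) : bb (d1 k p) = 1 - (k : ℂ) ^ 2 * aa p := by
  have h1 := cb_cb (1 - (k : ℂ) ^ 2 * aa p)
  have h2 := cb_cb (bb p)
  have h3 := cb_ne h
  have h4 : bb (d1 k p) = bb p * cb (1 - (k : ℂ) ^ 2 * aa p) ^ 3 / cb (bb p) ^ 3 := by
    unfold d1
    generalize cb (bb p) = c1
    generalize cb (1 - (k : ℂ) ^ 2 * aa p) = c2
    change (p.1 : ℂ) * (p.2.2 * _ / _) ^ 3 = (p.1 : ℂ) * p.2.2 ^ 3 * _ / _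
    simp only [div_pow, mul_pow]
    ring
  rw [h4, h1, h2]
  field_simp

theorem re_sq_mul (k : ℝ) (z : ℂ) : ((k : ℂ) ^ 2 * z).re = k ^ 2 * z.re := by
  rw [← Complex.ofReal_pow, Complex.re_ofReal_mul]

theorem d1_mem (k : ℝ) (x : W1) : ((d1 k x.1.1).1 : ℂ) *
    ((d1 k x.1.1).2.1 ^ 2 + (d1 k x.1.1).2.2 ^ 3) = 1 := by
  apply mem_M
  rw [aa_d1, bb_d1 k (ne_of_re (W1_b x))]
  ring

theorem d1_W1 (k : unitInterval) (x : W1) : (aa (d1 k x.1.1)).re < 2 / 3 := by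
  rw [aa_d1, re_sq_mul]
  have h1 : (aa x.1.1).re < 2 / 3 := x.2
  have h2 := k.2.1
  have h3 := k.2.2
  have h4 : (k : ℝ) ^ 2 ≤ 1 := by nlinarith
  have h5 : (0 : ℝ) ≤ (k : ℝ) ^ 2 := by positivity
  by_cases h6 : 0 ≤ (aa x.1.1).re
  · nlinarith
  · nlinarith

/-- the deformation -/
def D1 (p : unitInterval × W1) : W1 := ⟨⟨d1 p.1 p.2.1.1, d1_mem p.1 p.2⟩, d1_W1 p.1 p.2⟩

theorem D1_cont : Continuous D1 := by
  unfold D1 d1
  have hk : Continuous (fun p : unitInterval × W1 => ((p.1 : ℝ) : ℂ)) := by fun_prop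
  have hp : Continuous (fun p : unitInterval × W1 => p.2.1.1) := by fun_prop
  have h1 : Continuous (fun p : unitInterval × W1 => 1 - ((p.1 : ℝ) : ℂ) ^ 2 * aa p.2.1.1) :=
    continuous_const.sub ((hk.pow 2).mul (aa_cont.comp hp))
  have h2 : Continuous (fun p : unitInterval × W1 => cb (1 - ((p.1 : ℝ) : ℂ) ^ 2 * aa p.2.1.1)) := by
    refine cb_cont h1 ?_
    intro p
    have := d1_W1 p.1 p.2
    rw [aa_d1] at this
    rw [Complex.sub_re, Complex.one_re]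
    linarith
  have h3 : Continuous (fun p : unitInterval × W1 => cb (bb p.2.1.1)) :=
    cb_cont (bb_cont.comp hp) (fun p => W1_b p.2)
  refine Continuous.subtype_mk (Continuous.subtype_mk ?_ _) _
  refine Continuous.prodMk (by fun_prop) (Continuous.prodMk ?_ ?_)
  · exact hk.mul (by fun_prop)
  · exact (Continuous.mul (by fun_prop) h2).div h3 (fun p => cb_ne (ne_of_re (W1_b p.2)))

theorem r1_norm (x : W1) : ‖x.1.1.2.2 / cb (bb x.1.1)‖ = 1 := by
  have h0 := ne_of_re (W1_b x)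
  apply norm_of_pow (n := 3) (by norm_num) (Circle.norm_coe x.1.1.1)
  rw [div_pow, cb_cb, ← mul_div_assoc]
  exact div_self h0

/-- retraction to the circle -/
def r1 : C(W1, T1) := ⟨fun x => (toC _ (r1_norm x), ()), by
  refine Continuous.prodMk ?_ continuous_const
  refine Continuous.subtype_mk ?_ _
  have h3 : Continuous (fun p : W1 => cb (bb p.1.1)) :=
    cb_cont (bb_cont.comp (by fun_prop)) (fun p => W1_b p)
  exact Continuous.div (by fun_prop) h3 (fun p => cb_ne (ne_of_re (W1_b p)))⟩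

theorem zpow_coe (z : Circle) (k : ℤ) : ((z ^ k : Circle) : ℂ) = (z : ℂ) ^ k := by
  simp

theorem e1_a (z : Circle) : aa (z ^ (-3 : ℤ), (0, (z : ℂ))) = 0 := by
  unfold aa; simp
theorem e1_b (z : Circle) : bb (z ^ (-3 : ℤ), (0, (z : ℂ))) = 1 := by
  unfold bb
  have := z.coe_ne_zero
  rw [zpow_coe, zpow_neg]
  change ((z : ℂ) ^ 3)⁻¹ * (z : ℂ) ^ 3 = 1
  field_simp

theorem zp_cont (k : ℤ) : Continuous (fun p : T1 => p.1 ^ k) := by fun_prop

/-- the core circle -/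
def e1 : C(T1, W1) := ⟨fun p => ⟨⟨(p.1 ^ (-3 : ℤ), (0, (p.1 : ℂ))), by
    apply mem_M; rw [e1_a, e1_b, zero_add]⟩, by
    change (aa _).re < _
    rw [e1_a]; norm_num⟩, by
  refine Continuous.subtype_mk (Continuous.subtype_mk ?_ _) _
  exact (zp_cont _).prodMk (by fun_prop)⟩

theorem r1_e1 : r1.comp e1 = ContinuousMap.id T1 := by
  ext p
  change (p.1 : ℂ) / cb (bb (p.1 ^ (-3 : ℤ), (0, (p.1 : ℂ)))) = p.1
  rw [e1_b, cb_one, div_one]

theorem e1_r1 : (e1.comp r1).Homotopic (ContinuousMap.id W1) := by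
  refine htp D1 D1_cont ?_ ?_
  · intro x
    have h0 := ne_of_re (W1_b x)
    have hc := cb_ne h0
    apply Subtype.ext; apply Subtype.ext
    change d1 ((0 : unitInterval) : ℝ) x.1.1 =
      ((toC _ (r1_norm x)) ^ (-3 : ℤ), (0, x.1.1.2.2 / cb (bb x.1.1)))
    have h2 : x.1.1.1 = (toC _ (r1_norm x)) ^ (-3 : ℤ) := by
      apply Circle.ext
      rw [zpow_coe, zpow_neg, toC_coe]
      change (x.1.1.1 : ℂ) = ((x.1.1.2.2 / cb (bb x.1.1)) ^ (3 : ℕ))⁻¹
      rw [div_pow, cb_cb]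
      have hv : x.1.1.2.2 ≠ 0 := by
        intro h
        apply h0
        unfold bb
        rw [h]; simp
      unfold bb
      field_simp
    refine Prod.ext h2 (Prod.ext ?_ ?_)
    · change (((0 : unitInterval) : ℝ) : ℂ) * _ = 0
      simp
    · change x.1.1.2.2 * cb (1 - (((0 : unitInterval) : ℝ) : ℂ) ^ 2 * aa x.1.1) / cb (bb x.1.1) = _
      simp [cb_one]
  · intro x
    have h0 := ne_of_re (W1_b x)
    have hc := cb_ne h0
    apply Subtype.ext; apply Subtype.ext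
    change d1 ((1 : unitInterval) : ℝ) x.1.1 = x.1.1
    refine Prod.ext rfl (Prod.ext ?_ ?_)
    · change (((1 : unitInterval) : ℝ) : ℂ) * x.1.1.2.1 = x.1.1.2.1
      simp
    · change x.1.1.2.2 * cb (1 - (((1 : unitInterval) : ℝ) : ℂ) ^ 2 * aa x.1.1) / cb (bb x.1.1) =
        x.1.1.2.2
      have h3 : 1 - (((1 : unitInterval) : ℝ) : ℂ) ^ 2 * aa x.1.1 = bb x.1.1 := by
        have := ab x.1
        simp
        linear_combination -this
      rw [h3]
      field_simp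

/-! #### second piece -/

theorem W2_a (x : W2) : 0 < (aa x.1.1).re := by
  have h1 : 1 / 3 < (aa x.1.1).re := x.2
  linarith

theorem W2_b (x : W2) : (bb x.1.1).re < 2 / 3 := by
  have h1 : 1 / 3 < (aa x.1.1).re := x.2
  have h2 := ab_re x.1
  linarith

/-- deformation of the second piece -/
def d2 (k : ℝ) (p : TT) : TT :=
  (p.1, (p.2.1 * sq (1 - (k : ℂ) ^ 3 * bb p) / sq (aa p), (k : ℂ) * p.2.2))

theorem bb_d2 (k : ℝ) (p : TT) : bb (d2 k p) = (k : ℂ) ^ 3 * bb p := by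
  unfold bb d2
  ring

theorem aa_d2 (k : ℝ) {p : TT} (h : aa p ≠ 0) : aa (d2 k p) = 1 - (k : ℂ) ^ 3 * bb p := by
  have h1 := sq_sq (1 - (k : ℂ) ^ 3 * bb p)
  have h2 := sq_sq (aa p)
  have h3 := sq_ne h
  have h4 : aa (d2 k p) = aa p * sq (1 - (k : ℂ) ^ 3 * bb p) ^ 2 / sq (aa p) ^ 2 := by
    unfold d2
    generalize sq (aa p) = c1
    generalize sq (1 - (k : ℂ) ^ 3 * bb p) = c2
    change (p.1 : ℂ) * (p.2.1 * _ / _) ^ 2 = (p.1 : ℂ) * p.2.1 ^ 2 * _ / _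
    simp only [div_pow, mul_pow]
    ring
  rw [h4, h1, h2]
  field_simp

theorem re_cb_mul (k : ℝ) (z : ℂ) : ((k : ℂ) ^ 3 * z).re = k ^ 3 * z.re := by
  rw [← Complex.ofReal_pow, Complex.re_ofReal_mul]

theorem d2_mem (k : ℝ) (x : W2) : ((d2 k x.1.1).1 : ℂ) *
    ((d2 k x.1.1).2.1 ^ 2 + (d2 k x.1.1).2.2 ^ 3) = 1 := by
  apply mem_M
  rw [bb_d2, aa_d2 k (ne_of_re (W2_a x))]
  ring

theorem d2_W2b (k : unitInterval) (x : W2) : (((k : ℝ) : ℂ) ^ 3 * bb x.1.1).re < 2 / 3 := by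
  rw [re_cb_mul]
  have h1 := W2_b x
  have h2 := k.2.1
  have h3 := k.2.2
  have h4 : (k : ℝ) ^ 3 ≤ 1 := pow_le_one₀ h2 h3
  have h5 : (0 : ℝ) ≤ (k : ℝ) ^ 3 := by positivity
  by_cases h6 : 0 ≤ (bb x.1.1).re
  · nlinarith
  · nlinarith

theorem d2_W2 (k : unitInterval) (x : W2) : 1 / 3 < (aa (d2 k x.1.1)).re := by
  rw [aa_d2 k (ne_of_re (W2_a x)), Complex.sub_re, Complex.one_re]
  have := d2_W2b k x
  linarith

/-- the deformation -/
def D2 (p : unitInterval × W2) : W2 := ⟨⟨d2 p.1 p.2.1.1, d2_mem p.1 p.2⟩, d2_W2 p.1 p.2⟩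

theorem D2_cont : Continuous D2 := by
  unfold D2 d2
  have hk : Continuous (fun p : unitInterval × W2 => ((p.1 : ℝ) : ℂ)) := by fun_prop
  have hp : Continuous (fun p : unitInterval × W2 => p.2.1.1) := by fun_prop
  have h1 : Continuous (fun p : unitInterval × W2 => 1 - ((p.1 : ℝ) : ℂ) ^ 3 * bb p.2.1.1) :=
    continuous_const.sub ((hk.pow 3).mul (bb_cont.comp hp))
  have h2 : Continuous (fun p : unitInterval × W2 => sq (1 - ((p.1 : ℝ) : ℂ) ^ 3 * bb p.2.1.1)) := by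
    refine sq_cont h1 ?_
    intro p
    have := d2_W2b p.1 p.2
    rw [Complex.sub_re, Complex.one_re]
    linarith
  have h3 : Continuous (fun p : unitInterval × W2 => sq (aa p.2.1.1)) :=
    sq_cont (aa_cont.comp hp) (fun p => W2_a p.2)
  refine Continuous.subtype_mk (Continuous.subtype_mk ?_ _) _
  refine Continuous.prodMk (by fun_prop) (Continuous.prodMk ?_ ?_)
  · exact (Continuous.mul (by fun_prop) h2).div h3 (fun p => sq_ne (ne_of_re (W2_a p.2)))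
  · exact hk.mul (by fun_prop)

theorem r2_norm (x : W2) : ‖x.1.1.2.1 / sq (aa x.1.1)‖ = 1 := by
  have h0 := ne_of_re (W2_a x)
  apply norm_of_pow (n := 2) (by norm_num) (Circle.norm_coe x.1.1.1)
  rw [div_pow, sq_sq, ← mul_div_assoc]
  exact div_self h0

/-- retraction to the circle -/
def r2 : C(W2, T1) := ⟨fun x => (toC _ (r2_norm x), ()), by
  refine Continuous.prodMk ?_ continuous_const
  refine Continuous.subtype_mk ?_ _
  have h3 : Continuous (fun p : W2 => sq (aa p.1.1)) :=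
    sq_cont (aa_cont.comp (by fun_prop)) (fun p => W2_a p)
  exact Continuous.div (by fun_prop) h3 (fun p => sq_ne (ne_of_re (W2_a p)))⟩

theorem e2_a (z : Circle) : aa (z ^ (-2 : ℤ), ((z : ℂ), 0)) = 1 := by
  unfold aa
  have := z.coe_ne_zero
  rw [zpow_coe, zpow_neg]
  change ((z : ℂ) ^ 2)⁻¹ * (z : ℂ) ^ 2 = 1
  field_simp
theorem e2_b (z : Circle) : bb (z ^ (-2 : ℤ), ((z : ℂ), 0)) = 0 := by
  unfold bb; simp

/-- the core circle -/
def e2 : C(T1, W2) := ⟨fun p => ⟨⟨(p.1 ^ (-2 : ℤ), ((p.1 : ℂ), 0)), by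
    apply mem_M; rw [e2_a, e2_b, add_zero]⟩, by
    change _ < (aa _).re
    rw [e2_a]; norm_num⟩, by
  refine Continuous.subtype_mk (Continuous.subtype_mk ?_ _) _
  exact (zp_cont _).prodMk (by fun_prop)⟩

theorem r2_e2 : r2.comp e2 = ContinuousMap.id T1 := by
  ext p
  change (p.1 : ℂ) / sq (aa (p.1 ^ (-2 : ℤ), ((p.1 : ℂ), 0))) = p.1
  rw [e2_a, sq_one, div_one]

theorem e2_r2 : (e2.comp r2).Homotopic (ContinuousMap.id W2) := by
  refine htp D2 D2_cont ?_ ?_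
  · intro x
    have h0 := ne_of_re (W2_a x)
    have hc := sq_ne h0
    apply Subtype.ext; apply Subtype.ext
    change d2 ((0 : unitInterval) : ℝ) x.1.1 =
      ((toC _ (r2_norm x)) ^ (-2 : ℤ), (x.1.1.2.1 / sq (aa x.1.1), 0))
    have h2 : x.1.1.1 = (toC _ (r2_norm x)) ^ (-2 : ℤ) := by
      apply Circle.ext
      rw [zpow_coe, zpow_neg, toC_coe]
      change (x.1.1.1 : ℂ) = ((x.1.1.2.1 / sq (aa x.1.1)) ^ (2 : ℕ))⁻¹
      rw [div_pow, sq_sq]
      have hv : x.1.1.2.1 ≠ 0 := by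
        intro h
        apply h0
        unfold aa
        rw [h]; simp
      unfold aa
      field_simp
    refine Prod.ext h2 (Prod.ext ?_ ?_)
    · change x.1.1.2.1 * sq (1 - (((0 : unitInterval) : ℝ) : ℂ) ^ 3 * bb x.1.1) / sq (aa x.1.1) = _
      simp [sq_one]
    · change (((0 : unitInterval) : ℝ) : ℂ) * _ = 0
      simp
  · intro x
    have h0 := ne_of_re (W2_a x)
    have hc := sq_ne h0
    apply Subtype.ext; apply Subtype.ext
    change d2 ((1 : unitInterval) : ℝ) x.1.1 = x.1.1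
    refine Prod.ext rfl (Prod.ext ?_ ?_)
    · change x.1.1.2.1 * sq (1 - (((1 : unitInterval) : ℝ) : ℂ) ^ 3 * bb x.1.1) / sq (aa x.1.1) =
        x.1.1.2.1
      have h3 : 1 - (((1 : unitInterval) : ℝ) : ℂ) ^ 3 * bb x.1.1 = aa x.1.1 := by
        have := ab x.1
        simp
        linear_combination -this
      rw [h3]
      field_simp
    · change (((1 : unitInterval) : ℝ) : ℂ) * x.1.1.2.2 = x.1.1.2.2
      simp

/-! #### the intersection -/

abbrev W12 : Type := ↥(W1 ∩ W2)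

theorem W12_a (x : W12) : 0 < (aa x.1.1).re := W2_a ⟨x.1, x.2.2⟩
theorem W12_b (x : W12) : 0 < (bb x.1.1).re := W1_b ⟨x.1, x.2.1⟩

/-- deformation of the intersection -/
def d3 (k : ℝ) (p : TT) : TT :=
  (p.1, (p.2.1 * sq ((k : ℂ) * aa p + (1 - k) / 2) / sq (aa p),
    p.2.2 * cb ((k : ℂ) * bb p + (1 - k) / 2) / cb (bb p)))

theorem aa_d3 (k : ℝ) {p : TT} (h : aa p ≠ 0) : aa (d3 k p) = (k : ℂ) * aa p + (1 - k) / 2 := by
  have h1 := sq_sq ((k : ℂ) * aa p + (1 - k) / 2)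
  have h2 := sq_sq (aa p)
  have h3 := sq_ne h
  have h4 : aa (d3 k p) = aa p * sq ((k : ℂ) * aa p + (1 - k) / 2) ^ 2 / sq (aa p) ^ 2 := by
    unfold d3
    generalize sq (aa p) = c1
    generalize sq ((k : ℂ) * aa p + (1 - k) / 2) = c2
    change (p.1 : ℂ) * (p.2.1 * _ / _) ^ 2 = (p.1 : ℂ) * p.2.1 ^ 2 * _ / _
    simp only [div_pow, mul_pow]
    ring
  rw [h4, h1, h2]
  field_simp

theorem bb_d3 (k : ℝ) {p : TT} (h : bb p ≠ 0) : bb (d3 k p) = (k : ℂ) * bb p + (1 - k) / 2 := by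
  have h1 := cb_cb ((k : ℂ) * bb p + (1 - k) / 2)
  have h2 := cb_cb (bb p)
  have h3 := cb_ne h
  have h4 : bb (d3 k p) = bb p * cb ((k : ℂ) * bb p + (1 - k) / 2) ^ 3 / cb (bb p) ^ 3 := by
    unfold d3
    generalize cb (bb p) = c1
    generalize cb ((k : ℂ) * bb p + (1 - k) / 2) = c2
    change (p.1 : ℂ) * (p.2.2 * _ / _) ^ 3 = (p.1 : ℂ) * p.2.2 ^ 3 * _ / _
    simp only [div_pow, mul_pow]
    ring
  rw [h4, h1, h2]
  field_simp

theorem re_cc (k : ℝ) (z : ℂ) : ((k : ℂ) * z + (1 - k) / 2).re = k * z.re + (1 - k) / 2 := by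
  simp

theorem d3_mem (k : ℝ) (x : W12) : ((d3 k x.1.1).1 : ℂ) *
    ((d3 k x.1.1).2.1 ^ 2 + (d3 k x.1.1).2.2 ^ 3) = 1 := by
  apply mem_M
  rw [aa_d3 k (ne_of_re (W12_a x)), bb_d3 k (ne_of_re (W12_b x))]
  linear_combination (k : ℂ) * ab x.1

theorem d3_re (k : unitInterval) (x : W12) :
    0 < (((k : ℝ) : ℂ) * aa x.1.1 + (1 - (k : ℝ)) / 2).re ∧
    0 < (((k : ℝ) : ℂ) * bb x.1.1 + (1 - (k : ℝ)) / 2).re := by
  rw [re_cc, re_cc]
  have h1 := W12_a x
  have h2 := W12_b x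
  have h3 := k.2.1
  have h4 := k.2.2
  rcases eq_or_lt_of_le h3 with h5 | h5
  · rw [← h5]; norm_num
  · constructor
    · have := mul_pos h5 h1
      linarith
    · have := mul_pos h5 h2
      linarith

theorem d3_W (k : unitInterval) (x : W12) :
    (aa (d3 k x.1.1)).re < 2 / 3 ∧ 1 / 3 < (aa (d3 k x.1.1)).re := by
  rw [aa_d3 k (ne_of_re (W12_a x)), re_cc]
  have h1 : (aa x.1.1).re < 2 / 3 := x.2.1
  have h2 : 1 / 3 < (aa x.1.1).re := x.2.2
  have h3 := k.2.1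
  have h4 := k.2.2
  constructor
  · nlinarith
  · nlinarith

/-- the deformation -/
def D3 (p : unitInterval × W12) : W12 := ⟨⟨d3 p.1 p.2.1.1, d3_mem p.1 p.2⟩, d3_W p.1 p.2⟩

theorem D3_cont : Continuous D3 := by
  unfold D3 d3
  have hk : Continuous (fun p : unitInterval × W12 => ((p.1 : ℝ) : ℂ)) := by fun_prop
  have hp : Continuous (fun p : unitInterval × W12 => p.2.1.1) := by fun_prop
  have ha : Continuous (fun p : unitInterval × W12 => aa p.2.1.1) := aa_cont.comp hp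
  have hb : Continuous (fun p : unitInterval × W12 => bb p.2.1.1) := bb_cont.comp hp
  have h2 : Continuous (fun p : unitInterval × W12 =>
      sq (((p.1 : ℝ) : ℂ) * aa p.2.1.1 + (1 - (p.1 : ℝ)) / 2)) :=
    sq_cont (by fun_prop) (fun p => (d3_re p.1 p.2).1)
  have h2' : Continuous (fun p : unitInterval × W12 =>
      cb (((p.1 : ℝ) : ℂ) * bb p.2.1.1 + (1 - (p.1 : ℝ)) / 2)) :=
    cb_cont (by fun_prop) (fun p => (d3_re p.1 p.2).2)
  have h3 : Continuous (fun p : unitInterval × W12 => sq (aa p.2.1.1)) :=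
    sq_cont ha (fun p => W12_a p.2)
  have h3' : Continuous (fun p : unitInterval × W12 => cb (bb p.2.1.1)) :=
    cb_cont hb (fun p => W12_b p.2)
  refine Continuous.subtype_mk (Continuous.subtype_mk ?_ _) _
  refine Continuous.prodMk (by fun_prop) (Continuous.prodMk ?_ ?_)
  · exact (Continuous.mul (by fun_prop) h2).div h3 (fun p => sq_ne (ne_of_re (W12_a p.2)))
  · exact (Continuous.mul (by fun_prop) h2').div h3' (fun p => cb_ne (ne_of_re (W12_b p.2)))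

theorem W12_u (x : W12) : ‖x.1.1.2.1 / sq (aa x.1.1)‖ = 1 := r2_norm ⟨x.1, x.2.2⟩
theorem W12_v (x : W12) : ‖x.1.1.2.2 / cb (bb x.1.1)‖ = 1 := r1_norm ⟨x.1, x.2.1⟩

theorem r3_norm (x : W12) : ‖(x.1.1.2.1 / sq (aa x.1.1)) / (x.1.1.2.2 / cb (bb x.1.1))‖ = 1 := by
  rw [norm_div, W12_u, W12_v, div_one]

/-- retraction to the circle -/
def r3 : C(W12, T1) := ⟨fun x => (toC _ (r3_norm x), ()), by
  refine Continuous.prodMk ?_ continuous_const
  refine Continuous.subtype_mk ?_ _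
  have h3 : Continuous (fun p : W12 => sq (aa p.1.1)) :=
    sq_cont (aa_cont.comp (by fun_prop)) (fun p => W12_a p)
  have h3' : Continuous (fun p : W12 => cb (bb p.1.1)) :=
    cb_cont (bb_cont.comp (by fun_prop)) (fun p => W12_b p)
  refine (Continuous.div (by fun_prop) h3 (fun p => sq_ne (ne_of_re (W12_a p)))).div
    (Continuous.div (by fun_prop) h3' (fun p => cb_ne (ne_of_re (W12_b p)))) ?_
  intro p h
  have := W12_v p
  rw [h] at this
  simp at this⟩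

theorem e3_a (z : Circle) : aa (z ^ (-6 : ℤ), (sq (1/2) * (z : ℂ) ^ 3, cb (1/2) * (z : ℂ) ^ 2))
    = 1/2 := by
  unfold aa
  have := z.coe_ne_zero
  rw [zpow_coe, zpow_neg]
  change ((z : ℂ) ^ 6)⁻¹ * (sq (1/2) * (z : ℂ) ^ 3) ^ 2 = 1/2
  rw [mul_pow, sq_sq]
  field_simp
theorem e3_b (z : Circle) : bb (z ^ (-6 : ℤ), (sq (1/2) * (z : ℂ) ^ 3, cb (1/2) * (z : ℂ) ^ 2))
    = 1/2 := by
  unfold bb
  have := z.coe_ne_zero
  rw [zpow_coe, zpow_neg]
  change ((z : ℂ) ^ 6)⁻¹ * (cb (1/2) * (z : ℂ) ^ 2) ^ 3 = 1/2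
  rw [mul_pow, cb_cb]
  field_simp

/-- the core circle -/
def e3 : C(T1, W12) := ⟨fun p => ⟨⟨(p.1 ^ (-6 : ℤ),
    (sq (1/2) * (p.1 : ℂ) ^ 3, cb (1/2) * (p.1 : ℂ) ^ 2)), by
    apply mem_M; rw [e3_a, e3_b]; norm_num⟩, by
    change (aa _).re < _ ∧ _ < (aa _).re
    rw [e3_a]; norm_num⟩, by
  refine Continuous.subtype_mk (Continuous.subtype_mk ?_ _) _
  exact (zp_cont _).prodMk (by fun_prop)⟩

theorem half_re : (0 : ℝ) < ((1 / 2 : ℂ)).re := by norm_num

theorem r3_e3 : r3.comp e3 = ContinuousMap.id T1 := by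
  ext p
  change (sq (1/2) * (p.1 : ℂ) ^ 3 / sq (aa (p.1 ^ (-6 : ℤ),
    (sq (1/2) * (p.1 : ℂ) ^ 3, cb (1/2) * (p.1 : ℂ) ^ 2)))) /
    (cb (1/2) * (p.1 : ℂ) ^ 2 / cb (bb (p.1 ^ (-6 : ℤ),
    (sq (1/2) * (p.1 : ℂ) ^ 3, cb (1/2) * (p.1 : ℂ) ^ 2)))) = p.1
  rw [e3_a, e3_b]
  have h1 := sq_ne (ne_of_re half_re)
  have h2 := cb_ne (ne_of_re half_re)
  have h3 := p.1.coe_ne_zero
  field_simp

theorem e3_r3 : (e3.comp r3).Homotopic (ContinuousMap.id W12) := by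
  refine htp D3 D3_cont ?_ ?_
  · intro x
    have ha := ne_of_re (W12_a x)
    have hb := ne_of_re (W12_b x)
    have hca := sq_ne ha
    have hcb := cb_ne hb
    have hs := x.1.1.1.coe_ne_zero
    apply Subtype.ext; apply Subtype.ext
    set z := toC _ (r3_norm x) with hz
    change d3 ((0 : unitInterval) : ℝ) x.1.1 =
      (z ^ (-6 : ℤ), (sq (1/2) * (z : ℂ) ^ 3, cb (1/2) * (z : ℂ) ^ 2))
    have hv : x.1.1.2.2 ≠ 0 := by
      intro h
      apply hb
      unfold bb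
      rw [h]; simp
    have hu : x.1.1.2.1 ≠ 0 := by
      intro h
      apply ha
      unfold aa
      rw [h]; simp
    have hzc : (z : ℂ) = (x.1.1.2.1 / sq (aa x.1.1)) / (x.1.1.2.2 / cb (bb x.1.1)) := rfl
    have hU : (x.1.1.1 : ℂ) * (x.1.1.2.1 / sq (aa x.1.1)) ^ 2 = 1 := by
      rw [div_pow, sq_sq, ← mul_div_assoc]
      exact div_self ha
    have hV : (x.1.1.1 : ℂ) * (x.1.1.2.2 / cb (bb x.1.1)) ^ 3 = 1 := by
      rw [div_pow, cb_cb, ← mul_div_assoc]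
      exact div_self hb
    set U := x.1.1.2.1 / sq (aa x.1.1) with hUd
    set V := x.1.1.2.2 / cb (bb x.1.1) with hVd
    have hV0 : V ≠ 0 := by
      intro h; rw [h] at hV; simp at hV
    have hU0 : U ≠ 0 := by
      intro h; rw [h] at hU; simp at hU
    have hUV : U ^ 2 = V ^ 3 := by
      apply mul_left_cancel₀ hs
      rw [hU, hV]
    have hz2 : (z : ℂ) ^ 2 = V := by
      rw [hzc, div_pow, hUV]
      field_simp
    have hz3 : (z : ℂ) ^ 3 = U := by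
      rw [pow_succ, hz2, hzc]
      field_simp
    refine Prod.ext ?_ (Prod.ext ?_ ?_)
    · change x.1.1.1 = z ^ (-6 : ℤ)
      apply Circle.ext
      rw [zpow_coe, zpow_neg]
      change (x.1.1.1 : ℂ) = ((z : ℂ) ^ (6 : ℕ))⁻¹
      have h6 : (z : ℂ) ^ 6 = U ^ 2 := by rw [← hz3]; ring
      rw [h6]
      exact eq_inv_of_mul_eq_one_left hU
    · change x.1.1.2.1 * sq ((((0 : unitInterval) : ℝ) : ℂ) * aa x.1.1 +
        (1 - (((0 : unitInterval) : ℝ) : ℂ)) / 2) / sq (aa x.1.1) = sq (1/2) * (z : ℂ) ^ 3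
      rw [hz3, hUd]
      simp
      ring
    · change x.1.1.2.2 * cb ((((0 : unitInterval) : ℝ) : ℂ) * bb x.1.1 +
        (1 - (((0 : unitInterval) : ℝ) : ℂ)) / 2) / cb (bb x.1.1) = cb (1/2) * (z : ℂ) ^ 2
      rw [hz2, hVd]
      simp
      ring
  · intro x
    have ha := ne_of_re (W12_a x)
    have hb := ne_of_re (W12_b x)
    have hca := sq_ne ha
    have hcb := cb_ne hb
    apply Subtype.ext; apply Subtype.ext
    change d3 ((1 : unitInterval) : ℝ) x.1.1 = x.1.1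
    refine Prod.ext rfl (Prod.ext ?_ ?_)
    · change x.1.1.2.1 * sq ((((1 : unitInterval) : ℝ) : ℂ) * aa x.1.1 +
        (1 - (((1 : unitInterval) : ℝ) : ℂ)) / 2) / sq (aa x.1.1) = x.1.1.2.1
      simp
      field_simp
    · change x.1.1.2.2 * cb ((((1 : unitInterval) : ℝ) : ℂ) * bb x.1.1 +
        (1 - (((1 : unitInterval) : ℝ) : ℂ)) / 2) / cb (bb x.1.1) = x.1.1.2.2
      simp
      field_simp

/-! #### compatibility -/

theorem r1_inl_e3 : r1.comp ((inl W1 W2).comp e3) = pw 2 := by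
  ext p
  change (cb (1/2) * (p.1 : ℂ) ^ 2 / cb (bb (p.1 ^ (-6 : ℤ),
    (sq (1/2) * (p.1 : ℂ) ^ 3, cb (1/2) * (p.1 : ℂ) ^ 2)))) = ((p.1 ^ (2 : ℤ) : Circle) : ℂ)
  rw [e3_b, zpow_coe]
  have h2 := cb_ne (ne_of_re half_re)
  field_simp

theorem r2_inr_e3 : r2.comp ((inr W1 W2).comp e3) = pw 3 := by
  ext p
  change (sq (1/2) * (p.1 : ℂ) ^ 3 / sq (aa (p.1 ^ (-6 : ℤ),
    (sq (1/2) * (p.1 : ℂ) ^ 3, cb (1/2) * (p.1 : ℂ) ^ 2)))) = ((p.1 ^ (3 : ℤ) : Circle) : ℂ)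
  rw [e3_a, zpow_coe]
  have h2 := sq_ne (ne_of_re half_re)
  field_simp

/-- the projection to the circle -/
def fM : C(MM, T1) := ⟨fun x => (x.1.1, ()), by fun_prop⟩

theorem fM_e1 : fM.comp ((sub W1).comp e1) = pw (-3) := rfl
theorem fM_e2 : fM.comp ((sub W2).comp e2) = pw (-2) := rfl

end Pool.Agent.H944R2
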