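import Mathlib
import Pool.Agent.Helper10.UC.Defs
import Pool.Agent.Helper10.UC.J_isOpenMap_mk

/-! Topology of complex projective spaces. -/

open Filter Topology Set
open scoped LinearAlgebra.Projectivization
open Pool.Agent.Helper10.UC (PP)

noncomputable section

namespace Pool.Agent.H944R2

/-- the quotient map -/
def mkP {ι : Type} (v : {v : ι → ℂ // v ≠ 0}) : PP ι := Projectivization.mk ℂ v.1 v.2

theorem mkP_oq {ι : Type} : IsOpenQuotientMap (mkP (ι := ι)) where
  surjective := by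
    intro x
    exact ⟨⟨x.rep, x.rep_nonzero⟩, x.mk_rep⟩
  continuous := continuous_coinduced_rng
  isOpenMap := Pool.Agent.Helper10.UC.isOpenMap_mk

theorem mkP_eq_iff {ι : Type} (v w : {v : ι → ℂ // v ≠ 0}) :
    mkP v = mkP w ↔ ∃ l : ℂ, v.1 = l • w.1 := by
  unfold mkP
  rw [Projectivization.mk_eq_mk_iff']
  constructor
  · rintro ⟨a, ha⟩; exact ⟨a, ha.symm⟩
  · rintro ⟨a, ha⟩; exact ⟨a, ha.symm⟩

instance instT2PP {ι : Type} : T2Space (PP ι) := by
  rw [t2Space_iff_of_isOpenQuotientMap (mkP_oq (ι := ι))]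
  have h : {q : {v : ι → ℂ // v ≠ 0} × {v : ι → ℂ // v ≠ 0} | mkP q.1 = mkP q.2}
      = ⋂ (i : ι) (j : ι), {q | q.1.1 i * q.2.1 j = q.1.1 j * q.2.1 i} := by
    ext q
    simp only [mem_ofPred_eq, mem_iInter]
    rw [mkP_eq_iff]
    constructor
    · rintro ⟨l, hl⟩ i j
      rw [hl]
      simp only [Pi.smul_apply, smul_eq_mul]
      ring
    · intro h
      obtain ⟨j, hj⟩ := Function.ne_iff.1 q.2.2
      have hj' : q.2.1 j ≠ 0 := hj
      refine ⟨q.1.1 j / q.2.1 j, ?_⟩
      funext i
      simp only [Pi.smul_apply, smul_eq_mul]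
      have := h i j
      field_simp
      exact this
  rw [h]
  have c1 : ∀ i : ι, Continuous fun q : {v : ι → ℂ // v ≠ 0} × {v : ι → ℂ // v ≠ 0} => q.1.1 i :=
    fun i => (continuous_apply i).comp (continuous_subtype_val.comp continuous_fst)
  have c2 : ∀ i : ι, Continuous fun q : {v : ι → ℂ // v ≠ 0} × {v : ι → ℂ // v ≠ 0} => q.2.1 i :=
    fun i => (continuous_apply i).comp (continuous_subtype_val.comp continuous_snd)
  exact isClosed_iInter fun i => isClosed_iInter fun j =>
    isClosed_eq ((c1 i).mul (c2 j)) ((c1 j).mul (c2 i))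

instance instCompactPP {ι : Type} [Fintype ι] : CompactSpace (PP ι) := by
  have h1 : IsCompact (Metric.sphere (0 : ι → ℂ) 1) := isCompact_sphere _ _
  have h2 : CompactSpace (Metric.sphere (0 : ι → ℂ) 1) := isCompact_iff_compactSpace.1 h1
  let f : Metric.sphere (0 : ι → ℂ) 1 → PP ι := fun v => mkP ⟨v.1, by
    intro h
    have := v.2
    rw [h] at this
    simp at this⟩
  have hf : Continuous f := by
    apply mkP_oq.continuous.comp
    exact continuous_subtype_val.subtype_mk _
  have hs : Function.Surjective f := by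
    intro x
    have hx := x.rep_nonzero
    have hn : ‖x.rep‖ ≠ 0 := norm_ne_zero_iff.2 hx
    refine ⟨⟨((‖x.rep‖⁻¹ : ℝ) : ℂ) • x.rep, ?_⟩, ?_⟩
    · rw [mem_sphere_zero_iff_norm, norm_smul, Complex.norm_real, norm_inv, norm_norm,
        inv_mul_cancel₀ hn]
    · conv_rhs => rw [← x.mk_rep]
      change mkP _ = mkP ⟨x.rep, hx⟩
      rw [mkP_eq_iff]
      exact ⟨_, rfl⟩
  exact ⟨by rw [← image_univ_of_surjective hs]; exact isCompact_univ.image hf⟩

end Pool.Agent.H944R2
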