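import Mathlib

/-! Images of immersions are locally zero sets of submersions. -/

open Filter Topology Set

noncomputable section

namespace Pool.Agent.H944R2

theorem zero_of_param {P E : Type} [NormedAddCommGroup P] [NormedSpace ℂ P]
    [FiniteDimensional ℂ P] [NormedAddCommGroup E] [NormedSpace ℂ E] [FiniteDimensional ℂ E]
    (C : Set E) (Ψ : P → E) (p₀ : P) (ha : AnalyticAt ℂ Ψ p₀)
    (hinj : Function.Injective (fderiv ℂ Ψ p₀)) (hC : ∀ᶠ p in 𝓝 p₀, Ψ p ∈ C)
    (r : E → P) (hr : Tendsto r (𝓝[C] (Ψ p₀)) (𝓝 p₀))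
    (hr2 : ∀ᶠ z in 𝓝[C] (Ψ p₀), Ψ (r z) = z) :
    ∃ (G : Type) (_ : NormedAddCommGroup G) (_ : NormedSpace ℂ G) (_ : FiniteDimensional ℂ G)
      (g : E → G), Module.finrank ℂ G + Module.finrank ℂ P = Module.finrank ℂ E ∧
      AnalyticAt ℂ g (Ψ p₀) ∧ Function.Surjective (fderiv ℂ g (Ψ p₀)) ∧
      ∀ᶠ z in 𝓝 (Ψ p₀), (z ∈ C ↔ g z = 0) := by
  have hcP : CompleteSpace P := FiniteDimensional.complete ℂ P
  have hcE : CompleteSpace E := FiniteDimensional.complete ℂ E
  let D : P →L[ℂ] E := fderiv ℂ Ψ p₀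
  obtain ⟨G, hG⟩ := Submodule.exists_isCompl (LinearMap.range (D : P →ₗ[ℂ] E))
  let A : (P × G) →L[ℂ] E := D.comp (ContinuousLinearMap.fst ℂ P G) +
    G.subtypeL.comp (ContinuousLinearMap.snd ℂ P G)
  have hA : ∀ p : P × G, A p = D p.1 + (p.2 : E) := fun p => rfl
  have hbij : Function.Bijective A := by
    constructor
    · refine (injective_iff_map_eq_zero (A : (P × G) →ₗ[ℂ] E)).2 ?_
      rintro ⟨p, w⟩ h
      have h1 : D p + (w : E) = 0 := h
      have h2 : D p ∈ LinearMap.range (D : P →ₗ[ℂ] E) ⊓ G := by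
        refine ⟨⟨p, rfl⟩, ?_⟩
        have : D p = -(w : E) := eq_neg_of_add_eq_zero_left h1
        rw [this]
        exact G.neg_mem w.2
      rw [hG.inf_eq_bot, Submodule.mem_bot] at h2
      have h3 : p = 0 := hinj (by change D p = D 0; rw [h2, map_zero])
      rw [h2, zero_add] at h1
      exact Prod.ext h3 (Subtype.ext h1)
    · intro e
      have : e ∈ LinearMap.range (D : P →ₗ[ℂ] E) ⊔ G := by
        rw [hG.sup_eq_top]; exact Submodule.mem_top
      obtain ⟨_, ⟨p, rfl⟩, w, hw, rfl⟩ := Submodule.mem_sup.1 this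
      exact ⟨(p, ⟨w, hw⟩), rfl⟩
  let i : (P × G) ≃L[ℂ] E :=
    (LinearEquiv.ofBijective (A : (P × G) →ₗ[ℂ] E) hbij).toContinuousLinearEquiv
  have hi : (i : (P × G) →L[ℂ] E) = A := by ext x <;> rfl
  let Φ : P × G → E := fun q => Ψ q.1 + (q.2 : E)
  have hΦa : AnalyticAt ℂ Φ (p₀, 0) := by
    have h1 : AnalyticAt ℂ (fun q : P × G => Ψ q.1) (p₀, 0) :=
      AnalyticAt.comp (g := Ψ) (f := fun q : P × G => q.1) (x := (p₀, (0 : G))) ha analyticAt_fst
    have h2 : AnalyticAt ℂ (fun q : P × G => (q.2 : E)) (p₀, 0) :=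
      (G.subtypeL.comp (ContinuousLinearMap.snd ℂ P G)).analyticAt _
    exact h1.add h2
  have hΦd : HasFDerivAt Φ A (p₀, 0) := by
    have h1 : HasFDerivAt (fun q : P × G => Ψ q.1) (D.comp (ContinuousLinearMap.fst ℂ P G)) (p₀, 0) :=
      HasFDerivAt.comp (g := Ψ) (f := fun q : P × G => q.1) (p₀, (0 : G))
        ha.differentiableAt.hasFDerivAt hasFDerivAt_fst
    have h2 : HasFDerivAt (fun q : P × G => (q.2 : E))
        (G.subtypeL.comp (ContinuousLinearMap.snd ℂ P G)) (p₀, 0) :=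
      (G.subtypeL.comp (ContinuousLinearMap.snd ℂ P G)).hasFDerivAt
    exact h1.add h2
  have hΦs : HasStrictFDerivAt Φ (i : (P × G) →L[ℂ] E) (p₀, 0) := by
    have := hΦa.hasStrictFDerivAt
    rw [hΦd.fderiv] at this
    rw [hi]
    exact this
  have h0 : Φ (p₀, 0) = Ψ p₀ := by simp [Φ]
  let L := hΦs.toOpenPartialHomeomorph Φ
  have hLa : AnalyticAt ℂ L.symm (Ψ p₀) := by
    rw [← h0]
    exact L.analyticAt_symm' (i := i) hΦs.mem_toOpenPartialHomeomorph_source hΦa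
      (by rw [hi]; exact hΦd.fderiv)
  have hLd : HasStrictFDerivAt L.symm (i.symm : E →L[ℂ] P × G) (Ψ p₀) := by
    have := hΦs.to_localInverse
    rw [h0] at this
    exact this
  have hL1 : ∀ᶠ q in 𝓝 (p₀, (0 : G)), L.symm (Φ q) = q := hΦs.eventually_left_inverse
  have hL2 : ∀ᶠ z in 𝓝 (Ψ p₀), Φ (L.symm z) = z := by
    have := hΦs.eventually_right_inverse
    rw [h0] at this
    exact this
  have hL3 : L.symm (Ψ p₀) = (p₀, 0) := by
    have := hL1.self_of_nhds
    rwa [h0] at this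
  refine ⟨G, inferInstance, inferInstance, inferInstance, fun z => (L.symm z).2, ?_, ?_, ?_, ?_⟩
  · have h1 := i.toLinearEquiv.finrank_eq
    rw [Module.finrank_prod] at h1
    rw [← h1, add_comm]
  · exact AnalyticAt.comp (g := fun q : P × G => q.2) (f := L.symm) (x := Ψ p₀)
      analyticAt_snd hLa
  · have h1 : HasFDerivAt (fun z => (L.symm z).2)
        ((ContinuousLinearMap.snd ℂ P G).comp (i.symm : E →L[ℂ] P × G)) (Ψ p₀) :=
      HasFDerivAt.comp (g := fun q : P × G => q.2) (f := L.symm) (Ψ p₀)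
        hasFDerivAt_snd hLd.hasFDerivAt
    rw [h1.fderiv]
    intro w
    refine ⟨i (0, w), ?_⟩
    simp
  · have hc : Tendsto L.symm (𝓝 (Ψ p₀)) (𝓝 (p₀, (0 : G))) := by
      have := hLa.continuousAt.tendsto
      rwa [hL3] at this
    have e1 : ∀ᶠ z in 𝓝 (Ψ p₀), Ψ (L.symm z).1 ∈ C := by
      have : Tendsto (fun z => (L.symm z).1) (𝓝 (Ψ p₀)) (𝓝 p₀) :=
        (continuous_fst.tendsto _).comp hc
      exact this.eventually hC
    have e2 : ∀ᶠ z in 𝓝 (Ψ p₀), z ∈ C → Ψ (r z) = z := by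
      rwa [eventually_nhdsWithin_iff] at hr2
    have e3 : ∀ᶠ z in 𝓝 (Ψ p₀), z ∈ C → L.symm (Φ (r z, (0 : G))) = (r z, 0) := by
      rw [← eventually_nhdsWithin_iff]
      have : Tendsto (fun z => (r z, (0 : G))) (𝓝[C] (Ψ p₀)) (𝓝 (p₀, (0 : G))) :=
        hr.prodMk_nhds tendsto_const_nhds
      exact this.eventually hL1
    filter_upwards [e1, e2, e3, hL2] with z h1 h2 h3 h4
    constructor
    · intro hz
      have h5 := h3 hz
      have h6 : Φ (r z, (0 : G)) = z := by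
        change Ψ (r z) + ((0 : G) : E) = z
        rw [h2 hz]; simp
      rw [h6] at h5
      rw [h5]
    · intro hz
      have h5 : Ψ (L.symm z).1 = z := by
        have h6 : Ψ (L.symm z).1 + (((L.symm z).2 : G) : E) = z := h4
        rw [hz] at h6
        simpa using h6
      rw [← h5]
      exact h1

end Pool.Agent.H944R2
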