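import Pool.Agent.H944R2.Theta4
import Pool.Agent.H944R2.PPTop

/-! The threefold. -/

open Filter Topology Set
open scoped LinearAlgebra.Projectivization
open Pool.Agent.Helper10.UC (PP)

noncomputable section

namespace Pool.Agent.H944R2

/-- the equation `U² W + V³ = t W³` -/
def Cub (u : Fin 3 → ℂ) (t : ℂ) : Prop := u 0 ^ 2 * u 2 + u 1 ^ 3 = t * u 2 ^ 3

theorem Cub_smul {l : ℂ} (hl : l ≠ 0) (u : Fin 3 → ℂ) (t : ℂ) : Cub (l • u) t ↔ Cub u t := by
  unfold Cub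
  simp only [Pi.smul_apply, smul_eq_mul]
  constructor
  · intro h
    apply mul_left_cancel₀ (pow_ne_zero 3 hl)
    linear_combination h
  · intro h
    linear_combination l ^ 3 * h

theorem Cub_ne {u : Fin 3 → ℂ} (hu : u ≠ 0) {t : ℂ} (h : Cub u t) (h2 : u 2 = 0) : u 0 ≠ 0 := by
  intro h0
  apply hu
  unfold Cub at h
  rw [h0, h2] at h
  have h1 : u 1 = 0 := by
    have : u 1 ^ 3 = 0 := by linear_combination h
    exact pow_eq_zero_iff (by norm_num) |>.1 this
  funext k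
  fin_cases k
  · exact h0
  · exact h1
  · exact h2

/-- the elliptic surface -/
def CC : Set (PP (Fin 3) × ℂ) := {p | Cub p.1.rep p.2}

theorem rep_mkP {ι : Type} (v : {v : ι → ℂ // v ≠ 0}) :
    ∃ l : ℂ, l ≠ 0 ∧ (mkP v).rep = l • v.1 := by
  obtain ⟨a, ha⟩ := Projectivization.exists_smul_eq_mk_rep ℂ v.1 v.2
  exact ⟨a, a.ne_zero, ha.symm⟩

theorem mem_CC {v : {v : Fin 3 → ℂ // v ≠ 0}} {t : ℂ} : (mkP v, t) ∈ CC ↔ Cub v.1 t := by
  obtain ⟨l, hl, h⟩ := rep_mkP v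
  change Cub (mkP v).rep t ↔ _
  rw [h, Cub_smul hl]

theorem isClosed_CC : IsClosed CC := by
  have hq : IsOpenQuotientMap (Prod.map (mkP (ι := Fin 3)) (id : ℂ → ℂ)) :=
    mkP_oq.prodMap IsOpenQuotientMap.id
  rw [← hq.isQuotientMap.isClosed_preimage]
  have e : (Prod.map (mkP (ι := Fin 3)) (id : ℂ → ℂ)) ⁻¹' CC
      = {p | p.1.1 0 ^ 2 * p.1.1 2 + p.1.1 1 ^ 3 = p.2 * p.1.1 2 ^ 3} := by
    ext p
    exact mem_CC
  rw [e]
  have c1 : ∀ i : Fin 3, Continuous fun q : {v : Fin 3 → ℂ // v ≠ 0} × ℂ => q.1.1 i :=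
    fun i => (continuous_apply i).comp (continuous_subtype_val.comp continuous_fst)
  exact isClosed_eq ((((c1 0).pow 2).mul (c1 2)).add ((c1 1).pow 3))
    (continuous_snd.mul ((c1 2).pow 3))

/-- the threefold: the points `[U a(x) : V b(x) : W c(x)]` with `U² W + V³ = t W³` -/
def XX : Set (ℂ × PP Ix) :=
  {p | ∃ (x : ℂ) (u : Fin 3 → ℂ) (hx : x ≠ 0) (hu : u ≠ 0), Cub u p.1 ∧
    p.2 = mkP ⟨vec x u, vec_ne hx hu⟩}

/-! ### lifted coordinates -/

/-- the point of `ℂˣ` with logarithmic modulus `-s` and direction `w` -/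
def xx (s : ℝ) (w : Circle) : ℂ := Real.exp (-s) * (w : ℂ)

theorem xx_ne (s : ℝ) (w : Circle) : xx s w ≠ 0 :=
  mul_ne_zero (by exact_mod_cast (Real.exp_pos _).ne') w.coe_ne_zero

theorem norm_xx (s : ℝ) (w : Circle) : ‖xx s w‖ = Real.exp (-s) := by
  rw [xx, norm_mul, Circle.norm_coe, mul_one, Complex.norm_real, Real.norm_eq_abs,
    abs_of_pos (Real.exp_pos _)]

/-- exponents -/
def ra (k : Fin 3) : ℂ := if k = 0 then 1 / 2 else if k = 1 then 1 / 3 else 0

/-- the multivalued trivialisations -/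
def ep (k : Fin 3) (s : ℝ) : ℂ := Complex.exp (2 * Real.pi * Complex.I * ra k * s)

theorem ep_ne (k : Fin 3) (s : ℝ) : ep k s ≠ 0 := Complex.exp_ne_zero _

theorem exp_ra (k : Fin 3) : Complex.exp (2 * Real.pi * Complex.I * ra k) = ch k := by
  fin_cases k
  · change Complex.exp (2 * Real.pi * Complex.I * (1 / 2)) = -1
    rw [show 2 * Real.pi * Complex.I * (1 / 2) = Real.pi * Complex.I by ring]
    exact Complex.exp_pi_mul_I
  · change Complex.exp (2 * Real.pi * Complex.I * (1 / 3)) = om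
    rw [om]; congr 1; ring
  · change Complex.exp (2 * Real.pi * Complex.I * 0) = 1
    rw [mul_zero, Complex.exp_zero]

theorem ep_add (k : Fin 3) (s : ℝ) (n : ℤ) : ep k (s + n) = ch k ^ n * ep k s := by
  rw [← exp_ra, ← Complex.exp_int_mul, ep, ep, ← Complex.exp_add]
  congr 1
  push_cast
  ring

theorem xx_add (s : ℝ) (n : ℤ) (w : Circle) : xx (s + n) w = qq ^ n * xx s w := by
  have h : qq ^ n = ((Real.exp (-(n : ℝ)) : ℝ) : ℂ) := by
    rw [qq_eq, ← Complex.ofReal_zpow, ← Real.rpow_intCast, ← Real.exp_mul]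
    congr 2; ring
  rw [xx, xx, h, ← mul_assoc, ← Complex.ofReal_mul, ← Real.exp_add]
  congr 3
  ring

/-- the circle coordinate `σ = exp (2 π i s)` -/
def sg (s : ℝ) : Circle := Circle.exp (2 * Real.pi * s)

theorem sg_coe (s : ℝ) : (sg s : ℂ) = Complex.exp (2 * Real.pi * Complex.I * s) := by
  rw [sg, Circle.coe_exp]; congr 1; push_cast; ring

theorem ep_zero_sq (s : ℝ) : ep 0 s ^ 2 = sg s := by
  rw [sg_coe, ep, ← Complex.exp_nat_mul]
  congr 1
  change ((2 : ℕ) : ℂ) * (2 * Real.pi * Complex.I * (1 / 2) * s) = _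
  push_cast; ring

theorem ep_one_cube (s : ℝ) : ep 1 s ^ 3 = sg s := by
  rw [sg_coe, ep, ← Complex.exp_nat_mul]
  congr 1
  change ((3 : ℕ) : ℂ) * (2 * Real.pi * Complex.I * (1 / 3) * s) = _
  push_cast; ring

theorem ep_two (s : ℝ) : ep 2 s = 1 := by
  rw [ep]
  change Complex.exp (2 * Real.pi * Complex.I * 0 * s) = 1
  rw [mul_zero, zero_mul, Complex.exp_zero]

theorem sg_eq_iff {s s' : ℝ} : sg s = sg s' ↔ ∃ n : ℤ, s = s' + n := by
  rw [sg, sg, Circle.exp_eq_exp]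
  constructor
  · rintro ⟨m, hm⟩
    refine ⟨m, ?_⟩
    have h2 : (2 * Real.pi) ≠ 0 := by positivity
    apply mul_left_cancel₀ h2
    linear_combination hm
  · rintro ⟨n, rfl⟩
    exact ⟨n, by ring⟩

theorem sg_oq : IsOpenQuotientMap sg where
  surjective := by
    intro z
    refine ⟨Complex.arg z / (2 * Real.pi), ?_⟩
    rw [sg, mul_div_cancel₀ _ (by positivity), Circle.exp_arg]
  continuous := by unfold sg; fun_prop
  isOpenMap := by
    have h1 : IsOpenMap (fun s : ℝ => 2 * Real.pi * s) :=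
      (Homeomorph.mulLeft₀ (2 * Real.pi) (by positivity)).isOpenMap
    exact isLocalHomeomorph_circleExp.isOpenMap.comp h1

/-- twisted coordinates -/
def tw (s : ℝ) (u : Fin 3 → ℂ) : Fin 3 → ℂ := fun k => ep k s * u k

theorem tw_ne (s : ℝ) {u : Fin 3 → ℂ} (hu : u ≠ 0) : tw s u ≠ 0 := by
  obtain ⟨k, hk⟩ := Function.ne_iff.1 hu
  exact Function.ne_iff.2 ⟨k, mul_ne_zero (ep_ne k s) hk⟩

theorem Cub_tw (s : ℝ) (u : Fin 3 → ℂ) (t : ℂ) : Cub (tw s u) (sg s * t) ↔ Cub u t := by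
  have h0 := ep_zero_sq s
  have h1 := ep_one_cube s
  have h2 := ep_two s
  unfold Cub tw
  constructor
  · intro h
    apply mul_left_cancel₀ (sg s).coe_ne_zero
    rw [h2] at h
    linear_combination h - (u 0 ^ 2 * u 2) * h0 - (u 1 ^ 3) * h1
  · intro h
    rw [h2]
    linear_combination (sg s : ℂ) * h + (u 0 ^ 2 * u 2) * h0 + (u 1 ^ 3) * h1

/-- the parametrisation in lifted coordinates -/
def JL (q : Circle × (ℝ × ({v : Fin 3 → ℂ // v ≠ 0} × ℂ))) : ℂ × PP Ix :=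
  (sg q.2.1 * q.2.2.2, mkP ⟨vec (xx q.2.1 q.1) (tw q.2.1 q.2.2.1.1),
    vec_ne (xx_ne _ _) (tw_ne _ q.2.2.1.2)⟩)

/-- the quotient map -/
def QL (q : Circle × (ℝ × ({v : Fin 3 → ℂ // v ≠ 0} × ℂ))) : Circle × (Circle × (PP (Fin 3) × ℂ)) :=
  (q.1, (sg q.2.1, (mkP q.2.2.1, q.2.2.2)))

theorem QL_oq : IsOpenQuotientMap QL :=
  IsOpenQuotientMap.id.prodMap (sg_oq.prodMap (mkP_oq.prodMap IsOpenQuotientMap.id))

theorem JL_eq {q q' : Circle × (ℝ × ({v : Fin 3 → ℂ // v ≠ 0} × ℂ))} (h : QL q = QL q') :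
    JL q = JL q' := by
  obtain ⟨w, s, u, t⟩ := q
  obtain ⟨w', s', u', t'⟩ := q'
  simp only [QL, Prod.mk.injEq] at h
  obtain ⟨rfl, h1, h2, rfl⟩ := h
  obtain ⟨n, rfl⟩ := sg_eq_iff.1 h1
  obtain ⟨l, hl⟩ := (mkP_eq_iff _ _).1 h2
  have hl0 : l ≠ 0 := by
    rintro rfl
    rw [zero_smul] at hl
    exact u.2 hl
  change ((sg (s' + n) : ℂ) * t, mkP _) = ((sg s' : ℂ) * t, mkP _)
  refine Prod.ext ?_ ?_
  · change (sg (s' + n) : ℂ) * t = (sg s' : ℂ) * t
    rw [h1]
  · change mkP _ = mkP _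
    rw [mkP_eq_iff]
    change ∃ l, vec (xx (s' + n) w) (tw (s' + n) u.1) = l • vec (xx s' w) (tw s' u'.1)
    obtain ⟨m, hm, h3⟩ := vec_zshift n (xx_ne s' w) (tw s' u.1)
    have e : tw (s' + n) u.1 = fun k => ch k ^ n * tw s' u.1 k := by
      funext k
      rw [tw, tw, ep_add]; ring
    rw [xx_add, e, h3]
    have e2 : tw s' u.1 = l • tw s' u'.1 := by
      funext k
      have := congrFun hl k
      simp only [Pi.smul_apply, smul_eq_mul] at this
      simp only [Pi.smul_apply, smul_eq_mul, tw]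
      rw [this]; ring
    rw [e2, vec_smul, smul_smul]
    exact ⟨m * l, rfl⟩

/-- the parametrisation -/
def JJ (p : Circle × (Circle × (PP (Fin 3) × ℂ))) : ℂ × PP Ix :=
  JL (Function.surjInv QL_oq.surjective p)

theorem JJ_QL (q) : JJ (QL q) = JL q :=
  JL_eq (Function.surjInv_eq QL_oq.surjective (QL q))

theorem coe_continuous : Continuous (fun z : Circle => (z : ℂ)) := by fun_prop

theorem xx_continuous : Continuous (fun p : ℝ × Circle => xx p.1 p.2) := by
  unfold xx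
  have : Continuous (fun p : ℝ × Circle => (p.2 : ℂ)) := coe_continuous.comp continuous_snd
  fun_prop

theorem vec_continuous : Continuous (fun p : {x : ℂ // x ≠ 0} × (Fin 3 → ℂ) => vec p.1.1 p.2) := by
  rw [continuous_iff_continuousAt]
  rintro ⟨⟨x, hx⟩, u⟩
  have h1 := (vec_analytic hx u).continuousAt
  exact ContinuousAt.comp (g := fun p : ℂ × (Fin 3 → ℂ) => vec p.1 p.2)
    (f := fun p : {x : ℂ // x ≠ 0} × (Fin 3 → ℂ) => ((p.1 : ℂ), p.2)) (x := (⟨x, hx⟩, u)) h1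
    (by fun_prop)

theorem ep_continuous (k : Fin 3) : Continuous (ep k) := by
  unfold ep; fun_prop

theorem JL_continuous : Continuous JL := by
  unfold JL
  refine Continuous.prodMk ?_ ?_
  · have : Continuous (fun q : Circle × (ℝ × ({v : Fin 3 → ℂ // v ≠ 0} × ℂ)) => (sg q.2.1 : ℂ)) :=
      coe_continuous.comp (sg_oq.continuous.comp (by fun_prop))
    fun_prop
  · refine mkP_oq.continuous.comp (Continuous.subtype_mk ?_ _)
    have h1 : Continuous (fun q : Circle × (ℝ × ({v : Fin 3 → ℂ // v ≠ 0} × ℂ)) =>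
        (⟨xx q.2.1 q.1, xx_ne _ _⟩ : {x : ℂ // x ≠ 0})) := by
      refine Continuous.subtype_mk ?_ _
      exact xx_continuous.comp (Continuous.prodMk (by fun_prop) (by fun_prop))
    have h2 : Continuous (fun q : Circle × (ℝ × ({v : Fin 3 → ℂ // v ≠ 0} × ℂ)) =>
        tw q.2.1 q.2.2.1.1) := by
      refine continuous_pi fun k => ?_
      have h3 := ep_continuous k
      have h4 : Continuous (fun q : Circle × (ℝ × ({v : Fin 3 → ℂ // v ≠ 0} × ℂ)) =>
        q.2.2.1.1 k) := (continuous_apply k).comp (continuous_subtype_val.comp (by fun_prop))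
      unfold tw
      fun_prop
    exact vec_continuous.comp (h1.prodMk h2)

theorem JJ_continuous : Continuous JJ := by
  rw [← QL_oq.continuous_comp_iff]
  have : JJ ∘ QL = JL := funext JJ_QL
  rw [this]
  exact JL_continuous

end Pool.Agent.H944R2
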