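import Mathlib

/-! An entire function with zeros exactly at the `q ^ (-n)`, `n ≥ 1`, and the resulting theta
function on `ℂ \ {0}`. -/

open Filter Topology Set

noncomputable section

namespace Pool.Agent.H944R2

/-- the multiplier `q = e⁻¹` -/
def qq : ℂ := (Real.exp (-1) : ℝ)

theorem qq_eq : qq = (Real.exp (-1) : ℝ) := rfl

theorem qq_ne : qq ≠ 0 := by
  rw [qq_eq]; exact_mod_cast (Real.exp_pos _).ne'

theorem norm_qq : ‖qq‖ = Real.exp (-1) := by
  rw [qq_eq, Complex.norm_real, Real.norm_eq_abs, abs_of_pos (Real.exp_pos _)]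

theorem norm_qq_lt : ‖qq‖ < 1 := by
  rw [norm_qq, Real.exp_lt_one_iff]; norm_num

theorem norm_qq_pos : 0 < ‖qq‖ := norm_pos_iff.2 qq_ne

theorem norm_qq_zpow (k : ℤ) : ‖qq ^ k‖ = Real.exp (-(k : ℝ)) := by
  rw [norm_zpow, norm_qq, ← Real.rpow_intCast, ← Real.exp_mul]; congr 1; ring

theorem qq_zpow_eq_one {k : ℤ} (h : ‖qq ^ k‖ = 1) : k = 0 := by
  rw [norm_qq_zpow, Real.exp_eq_one_iff] at h
  exact_mod_cast neg_eq_zero.1 h

theorem qq_zpow_ne (k : ℤ) : qq ^ k ≠ 0 := zpow_ne_zero _ qq_ne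

/-- the entire function `∏ (1 - q^(n+1) x)` -/
def Ef (x : ℂ) : ℂ := ∏' n : ℕ, (1 + (-(qq ^ (n + 1) * x)))

theorem Ef_summable (x : ℂ) : Summable (fun n : ℕ => ‖-(qq ^ (n + 1) * x)‖) := by
  have h1 : Summable (fun n : ℕ => ‖qq‖ ^ n) := summable_geometric_of_lt_one (norm_nonneg _) norm_qq_lt
  have h2 := h1.mul_right (‖qq‖ * ‖x‖)
  refine h2.congr (fun n => ?_)
  rw [norm_neg, norm_mul, norm_pow, pow_succ]; ring

theorem Ef_diff : Differentiable ℂ Ef := by
  intro x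
  have hR : DifferentiableOn ℂ Ef (Metric.ball (0 : ℂ) (‖x‖ + 1)) := by
    have hu : Summable (fun n : ℕ => ‖qq‖ ^ (n + 1) * (‖x‖ + 1)) := by
      exact ((summable_nat_add_iff 1).2
        (summable_geometric_of_lt_one (norm_nonneg _) norm_qq_lt)).mul_right _
    have h := hu.hasProdLocallyUniformlyOn_nat_one_add (f := fun (n : ℕ) (y : ℂ) => -(qq ^ (n + 1) * y))
      (K := Metric.ball (0 : ℂ) (‖x‖ + 1)) Metric.isOpen_ball
      (Eventually.of_forall fun n y hy => by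
        rw [norm_neg, norm_mul, norm_pow]
        have : ‖y‖ < ‖x‖ + 1 := by simpa using hy
        gcongr) (fun n => by fun_prop)
    refine h.differentiableOn (Eventually.of_forall fun s => ?_) Metric.isOpen_ball
    simpa [Finset.prod_fn] using DifferentiableOn.finsetProd (fun _ _ => by fun_prop)
  exact hR.differentiableAt (Metric.isOpen_ball.mem_nhds (by simp))

theorem Ef_rec (x : ℂ) : Ef x = (1 - qq * x) * Ef (qq * x) := by
  have hm' : Multipliable (fun n : ℕ => (1 + (-(qq ^ (n + 1) * (qq * x))))) :=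
    multipliable_one_add_of_summable (Ef_summable (qq * x))
  have e : (fun n : ℕ => (1 + (-(qq ^ (n + 1) * (qq * x))))) =
      (fun n : ℕ => (1 + (-(qq ^ (n + 1 + 1) * x)))) := by
    funext n; ring
  unfold Ef
  rw [tprod_eq_zero_mul' (f := fun n : ℕ => (1 + (-(qq ^ (n + 1) * x)))) (by rw [← e]; exact hm'), e]
  congr 1
  ring

theorem Ef_ne {x : ℂ} (h : ∀ n : ℕ, qq ^ (n + 1) * x ≠ 1) : Ef x ≠ 0 := by
  refine tprod_one_add_ne_zero_of_summable (fun n hn => h n ?_) (Ef_summable x)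
  linear_combination -hn

/-! ### the theta function -/

/-- theta function on `ℂ \ {0}` with simple zeros at the powers of `q` -/
def th (x : ℂ) : ℂ := (1 - x) * Ef x * Ef x⁻¹

theorem Ef_zero : Ef 0 = 1 := by simp [Ef]

theorem th_mul {x : ℂ} (hx : x ≠ 0) : th (qq * x) = -x⁻¹ * th x := by
  have h1 := Ef_rec x
  have h2 := Ef_rec ((qq * x)⁻¹)
  have e : qq * (qq * x)⁻¹ = x⁻¹ := by
    rw [mul_inv, ← mul_assoc, mul_inv_cancel₀ qq_ne, one_mul]
  rw [e] at h2
  unfold th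
  rw [h2, h1]
  field_simp
  ring

theorem th_inv {x : ℂ} (hx : x ≠ 0) : th x⁻¹ = -x⁻¹ * th x := by
  unfold th
  rw [inv_inv]
  field_simp
  ring

theorem th_analytic {x : ℂ} (hx : x ≠ 0) : AnalyticAt ℂ th x := by
  have hE : ∀ y, AnalyticAt ℂ Ef y := fun y => Ef_diff.analyticAt y
  have h1 : AnalyticAt ℂ (fun x : ℂ => x⁻¹) x := analyticAt_inv hx
  exact ((analyticAt_const.sub analyticAt_id).mul (hE x)).mul ((hE x⁻¹).comp h1)

theorem th_one : th 1 = 0 := by simp [th]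

theorem th_ne {x : ℂ} (hx : x ≠ 0) (h : ∀ k : ℤ, x ≠ qq ^ k) : th x ≠ 0 := by
  unfold th
  refine mul_ne_zero (mul_ne_zero ?_ ?_) ?_
  · intro h0
    apply h 0
    rw [zpow_zero]; linear_combination -h0
  · apply Ef_ne
    intro n hn
    apply h (-(n + 1 : ℕ))
    rw [zpow_neg, zpow_natCast]
    exact eq_inv_of_mul_eq_one_left (by rw [mul_comm]; exact hn)
  · apply Ef_ne
    intro n hn
    apply h ((n + 1 : ℕ))
    rw [zpow_natCast]
    rw [← div_eq_mul_inv, div_eq_one_iff_eq hx] at hn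
    exact hn.symm

theorem th_mul_zero_iff {x : ℂ} (hx : x ≠ 0) : th (qq * x) = 0 ↔ th x = 0 := by
  rw [th_mul hx]
  constructor
  · intro h
    rcases mul_eq_zero.1 h with h | h
    · exact absurd h (neg_ne_zero.2 (inv_ne_zero hx))
    · exact h
  · intro h; rw [h, mul_zero]

theorem th_zpow (k : ℤ) : th (qq ^ k) = 0 := by
  induction k using Int.induction_on with
  | zero => rw [zpow_zero]; exact th_one
  | succ n ih =>
    rw [zpow_add₀ qq_ne, zpow_one, mul_comm, th_mul_zero_iff (qq_zpow_ne _)]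
    exact ih
  | pred n ih =>
    rw [← th_mul_zero_iff (qq_zpow_ne _), mul_comm, ← zpow_add_one₀ qq_ne]
    rw [sub_add_cancel]
    exact ih

theorem th_eq_zero_iff {x : ℂ} (hx : x ≠ 0) : th x = 0 ↔ ∃ k : ℤ, x = qq ^ k := by
  constructor
  · intro h
    by_contra hcon
    push Not at hcon
    exact th_ne hx hcon h
  · rintro ⟨k, rfl⟩
    exact th_zpow k

theorem th_deriv_mul {x : ℂ} (hx : x ≠ 0) (h0 : th x = 0) :
    qq * deriv th (qq * x) = -x⁻¹ * deriv th x := by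
  have h1 : HasDerivAt (fun y => th (qq * y)) (deriv th (qq * x) * (qq * 1)) x :=
    HasDerivAt.comp x (th_analytic (mul_ne_zero qq_ne hx)).differentiableAt.hasDerivAt
      ((hasDerivAt_id x).const_mul qq)
  have h2 : HasDerivAt (fun y => -y⁻¹ * th y) (-(-(x ^ 2)⁻¹) * th x + -x⁻¹ * deriv th x) x :=
    (hasDerivAt_inv hx).neg.mul (th_analytic hx).differentiableAt.hasDerivAt
  have h3 : (fun y => th (qq * y)) =ᶠ[𝓝 x] (fun y => -y⁻¹ * th y) := by
    filter_upwards [isOpen_ne.mem_nhds hx] with y hy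
    exact th_mul hy
  have h4 := (h1.congr_of_eventuallyEq h3.symm).unique h2
  rw [h0, mul_zero, zero_add] at h4
  rw [← h4]; ring

theorem th_deriv_one : deriv th 1 ≠ 0 := by
  have hE : ∀ y, HasDerivAt Ef (deriv Ef y) y := fun y => (Ef_diff y).hasDerivAt
  have h1 : HasDerivAt (fun x : ℂ => Ef x * Ef x⁻¹) (deriv (fun x : ℂ => Ef x * Ef x⁻¹) 1) 1 := by
    apply DifferentiableAt.hasDerivAt
    exact (Ef_diff 1).mul ((Ef_diff _).comp (1 : ℂ) (differentiableAt_inv one_ne_zero))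
  have h2 : HasDerivAt (fun x : ℂ => (1 - x) * (Ef x * Ef x⁻¹))
      ((-1) * (Ef 1 * Ef 1⁻¹) + (1 - 1) * (deriv (fun x : ℂ => Ef x * Ef x⁻¹) 1)) 1 :=
    ((hasDerivAt_id (1 : ℂ)).const_sub 1).mul h1
  have h3 : th = (fun x : ℂ => (1 - x) * (Ef x * Ef x⁻¹)) := by funext x; unfold th; ring
  rw [h3, h2.deriv]
  have h4 : Ef 1 ≠ 0 := by
    apply Ef_ne
    intro n hn
    rw [mul_one] at hn
    have : (n + 1 : ℤ) = 0 := by
      apply qq_zpow_eq_one
      have h5 : qq ^ ((n : ℤ) + 1) = qq ^ (n + 1) := by exact_mod_cast zpow_natCast qq (n + 1)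
      rw [h5, hn, norm_one]
    omega
  simp [h4]

theorem th_deriv_zpow (k : ℤ) : deriv th (qq ^ k) ≠ 0 := by
  have key : ∀ k : ℤ, deriv th (qq ^ (k + 1)) ≠ 0 ↔ deriv th (qq ^ k) ≠ 0 := by
    intro k
    have h := th_deriv_mul (qq_zpow_ne k) (th_zpow k)
    rw [mul_comm qq (qq ^ k), ← zpow_add_one₀ qq_ne] at h
    constructor
    · intro h1 h2
      rw [h2, mul_zero] at h
      exact mul_ne_zero qq_ne h1 h
    · intro h1 h2
      rw [h2, mul_zero] at h
      exact mul_ne_zero (neg_ne_zero.2 (inv_ne_zero (qq_zpow_ne k))) h1 h.symm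
  induction k using Int.induction_on with
  | zero => rw [zpow_zero]; exact th_deriv_one
  | succ n ih => exact (key n).2 ih
  | pred n ih =>
    rw [← key, sub_add_cancel]
    exact ih

end Pool.Agent.H944R2
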