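import Pool.Agent.H944R2.Theta1

/-! The projective embedding of `ℂˣ / qᶻ`. -/

open Filter Topology Set

noncomputable section

namespace Pool.Agent.H944R2

/-- quotient of two functions, extended over simple zeros of the denominator -/
def quo (F G : ℂ → ℂ) (x : ℂ) : ℂ := if G x = 0 then deriv F x / deriv G x else F x / G x

theorem quo_diff {F G : ℂ → ℂ} {x₀ : ℂ} (hF : AnalyticAt ℂ F x₀) (hG : AnalyticAt ℂ G x₀)
    (h : G x₀ = 0 → F x₀ = 0 ∧ deriv G x₀ ≠ 0) : DifferentiableAt ℂ (quo F G) x₀ := by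
  by_cases h0 : G x₀ = 0
  · obtain ⟨hF0, hG0⟩ := h h0
    have dF : AnalyticAt ℂ (dslope F x₀) x₀ := by
      obtain ⟨p, hp⟩ := hF
      exact ⟨_, hp.has_fpower_series_dslope_fslope⟩
    have dG : AnalyticAt ℂ (dslope G x₀) x₀ := by
      obtain ⟨p, hp⟩ := hG
      exact ⟨_, hp.has_fpower_series_dslope_fslope⟩
    have hd : dslope G x₀ x₀ ≠ 0 := by rw [dslope_same]; exact hG0
    have h1 : DifferentiableAt ℂ (fun x => dslope F x₀ x / dslope G x₀ x) x₀ :=
      dF.differentiableAt.div dG.differentiableAt hd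
    refine h1.congr_of_eventuallyEq ?_
    have h2 : ∀ᶠ x in 𝓝 x₀, dslope G x₀ x ≠ 0 := dG.continuousAt.eventually_ne hd
    filter_upwards [h2] with x hx
    by_cases hxx : x = x₀
    · subst hxx
      rw [quo, if_pos h0, dslope_same, dslope_same]
    · have eF : F x = (x - x₀) * dslope F x₀ x := by
        rw [dslope_of_ne _ hxx, slope_def_field, hF0, sub_zero, mul_div_cancel₀]
        exact sub_ne_zero.2 hxx
      have eG : G x = (x - x₀) * dslope G x₀ x := by
        rw [dslope_of_ne _ hxx, slope_def_field, h0, sub_zero, mul_div_cancel₀]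
        exact sub_ne_zero.2 hxx
      have hGx : G x ≠ 0 := by
        rw [eG]; exact mul_ne_zero (sub_ne_zero.2 hxx) hx
      rw [quo, if_neg hGx, eF, eG, mul_div_mul_left _ _ (sub_ne_zero.2 hxx)]
  · have h1 : DifferentiableAt ℂ (fun x => F x / G x) x₀ :=
      hF.differentiableAt.div hG.differentiableAt h0
    refine h1.congr_of_eventuallyEq ?_
    filter_upwards [hG.continuousAt.eventually_ne h0] with x hx
    rw [quo, if_neg hx]

/-- derivative of a function with the multiplier `x⁻²` at a zero -/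
theorem mult_deriv {F : ℂ → ℂ} (hF : ∀ x, x ≠ 0 → AnalyticAt ℂ F x)
    (hm : ∀ x, x ≠ 0 → F (qq * x) = (x ^ 2)⁻¹ * F x) {x : ℂ} (hx : x ≠ 0) (h0 : F x = 0) :
    qq * deriv F (qq * x) = (x ^ 2)⁻¹ * deriv F x := by
  have h1 : HasDerivAt (fun y => F (qq * y)) (deriv F (qq * x) * (qq * 1)) x :=
    HasDerivAt.comp x (hF _ (mul_ne_zero qq_ne hx)).differentiableAt.hasDerivAt
      ((hasDerivAt_id x).const_mul qq)
  have hi : DifferentiableAt ℂ (fun y : ℂ => (y ^ 2)⁻¹) x :=
    (differentiableAt_id.pow 2).inv (pow_ne_zero 2 hx)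
  have h2 : HasDerivAt (fun y => (y ^ 2)⁻¹ * F y)
      (deriv (fun y : ℂ => (y ^ 2)⁻¹) x * F x + (x ^ 2)⁻¹ * deriv F x) x :=
    hi.hasDerivAt.mul (hF x hx).differentiableAt.hasDerivAt
  have h3 : (fun y => F (qq * y)) =ᶠ[𝓝 x] (fun y => (y ^ 2)⁻¹ * F y) := by
    filter_upwards [isOpen_ne.mem_nhds hx] with y hy
    exact hm y hy
  have h4 := (h1.congr_of_eventuallyEq h3.symm).unique h2
  rw [h0, mul_zero, zero_add] at h4
  rw [← h4]; ring

/-- Liouville: a function with multiplier `x⁻²` vanishing at the (simple) zeros of another one is a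
multiple of it -/
theorem liou {F G : ℂ → ℂ} (hF : ∀ x, x ≠ 0 → AnalyticAt ℂ F x)
    (hG : ∀ x, x ≠ 0 → AnalyticAt ℂ G x)
    (hmF : ∀ x, x ≠ 0 → F (qq * x) = (x ^ 2)⁻¹ * F x)
    (hmG : ∀ x, x ≠ 0 → G (qq * x) = (x ^ 2)⁻¹ * G x)
    (h : ∀ x, x ≠ 0 → G x = 0 → F x = 0 ∧ deriv G x ≠ 0) :
    ∃ C : ℂ, ∀ x, x ≠ 0 → F x = C * G x := by
  have hq : ∀ x, x ≠ 0 → quo F G (qq * x) = quo F G x := by
    intro x hx
    have hx2 : (x ^ 2)⁻¹ ≠ 0 := inv_ne_zero (pow_ne_zero 2 hx)
    by_cases h0 : G x = 0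
    · have h1 : G (qq * x) = 0 := by rw [hmG x hx, h0, mul_zero]
      have e1 := mult_deriv hF hmF hx (h x hx h0).1
      have e2 := mult_deriv hG hmG hx h0
      rw [quo, if_pos h1, quo, if_pos h0]
      rw [← mul_div_mul_left _ _ qq_ne, e1, e2, mul_div_mul_left _ _ hx2]
    · have h1 : G (qq * x) ≠ 0 := by rw [hmG x hx]; exact mul_ne_zero hx2 h0
      rw [quo, if_neg h1, quo, if_neg h0, hmF x hx, hmG x hx, mul_div_mul_left _ _ hx2]
  let K : ℂ → ℂ := fun z => quo F G (Complex.exp z)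
  have hK : Differentiable ℂ K := by
    intro z
    have h1 := quo_diff (hF _ (Complex.exp_ne_zero z)) (hG _ (Complex.exp_ne_zero z))
      (h _ (Complex.exp_ne_zero z))
    exact h1.comp z Complex.differentiableAt_exp
  have p1 : ∀ z, K (z + 2 * Real.pi * Complex.I) = K z := by
    intro z
    change quo F G (Complex.exp (z + 2 * Real.pi * Complex.I)) = _
    rw [Complex.exp_add, Complex.exp_two_pi_mul_I, mul_one]
  have p2 : ∀ z, K (z + 1) = K z := by
    intro z
    have h1 := hq (Complex.exp (z + 1)) (Complex.exp_ne_zero _)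
    have h2 : qq * Complex.exp (z + 1) = Complex.exp z := by
      rw [qq_eq, Complex.ofReal_exp, ← Complex.exp_add]; congr 1; push_cast; ring
    rw [h2] at h1
    exact h1.symm
  have p1' : ∀ (n : ℤ) z, K (z + n * (2 * Real.pi * Complex.I)) = K z := by
    intro n
    induction n using Int.induction_on with
    | zero => intro z; simp
    | succ n ih =>
      intro z
      rw [← ih z, ← p1 (z + ((n : ℤ) : ℂ) * (2 * Real.pi * Complex.I))]
      congr 1; push_cast; ring
    | pred n ih =>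
      intro z
      rw [← ih z, ← p1 (z + ((-(n : ℤ) - 1 : ℤ) : ℂ) * (2 * Real.pi * Complex.I))]
      congr 1; push_cast; ring
  have p2' : ∀ (n : ℤ) z, K (z + n) = K z := by
    intro n
    induction n using Int.induction_on with
    | zero => intro z; simp
    | succ n ih =>
      intro z
      rw [← ih z, ← p2 (z + ((n : ℤ) : ℂ))]
      congr 1; push_cast; ring
    | pred n ih =>
      intro z
      rw [← ih z, ← p2 (z + ((-(n : ℤ) - 1 : ℤ) : ℂ))]
      congr 1; push_cast; ring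
  have hcpt : IsCompact ((fun p : ℝ × ℝ => (p.1 : ℂ) + p.2 * (2 * Real.pi * Complex.I)) ''
      (Icc (0 : ℝ) 1 ×ˢ Icc (0 : ℝ) 1)) :=
    (isCompact_Icc.prod isCompact_Icc).image (by fun_prop)
  have hb : Bornology.IsBounded (range K) := by
    refine (hcpt.image hK.continuous).isBounded.subset ?_
    rintro _ ⟨z, rfl⟩
    have hpi : (2 * Real.pi) ≠ 0 := by positivity
    refine ⟨((Int.fract z.re : ℝ) : ℂ) + ((Int.fract (z.im / (2 * Real.pi)) : ℝ) : ℂ) *
        (2 * Real.pi * Complex.I),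
      ⟨(Int.fract z.re, Int.fract (z.im / (2 * Real.pi))),
        ⟨⟨Int.fract_nonneg _, (Int.fract_lt_one _).le⟩,
          ⟨Int.fract_nonneg _, (Int.fract_lt_one _).le⟩⟩, by simp⟩, ?_⟩
    rw [← p2' ⌊z.re⌋, ← p1' ⌊z.im / (2 * Real.pi)⌋]
    congr 1
    have e1 : ((Int.fract z.re : ℝ) : ℂ) = (z.re : ℂ) - (⌊z.re⌋ : ℂ) := by
      rw [Int.fract]; push_cast; rfl
    have e2 : ((Int.fract (z.im / (2 * Real.pi)) : ℝ) : ℂ)
        = (z.im : ℂ) / (2 * Real.pi) - (⌊z.im / (2 * Real.pi)⌋ : ℂ) := by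
      rw [Int.fract]; push_cast; rfl
    rw [e1, e2]
    have hpi' : (Real.pi : ℂ) ≠ 0 := by exact_mod_cast Real.pi_ne_zero
    have := Complex.re_add_im z
    field_simp
    linear_combination this
  refine ⟨K 0, fun x hx => ?_⟩
  have h1 : quo F G x = K 0 := by
    have h2 : x = Complex.exp (Complex.log x) := (Complex.exp_log hx).symm
    rw [h2]
    exact hK.apply_eq_apply_of_bounded hb (Complex.log x) 0
  by_cases h0 : G x = 0
  · rw [h0, mul_zero]; exact (h x hx h0).1
  · rw [quo, if_neg h0] at h1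
    rw [← h1, div_mul_cancel₀ _ h0]

end Pool.Agent.H944R2
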