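import Pool.Agent.H944R2.Theta2

/-! The projective embedding of `ℂˣ / qᶻ`. -/

open Filter Topology Set

noncomputable section

namespace Pool.Agent.H944R2

/-- a primitive cube root of unity -/
def om : ℂ := Complex.exp (2 * Real.pi * Complex.I / 3)

theorem om_pow : om ^ 3 = 1 := by
  rw [om, ← Complex.exp_nat_mul, Complex.exp_eq_one_iff]
  exact ⟨1, by push_cast; ring⟩

theorem om_ne_one : om ≠ 1 := by
  intro h
  rw [om, Complex.exp_eq_one_iff] at h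
  obtain ⟨n, hn⟩ := h
  have h1 : (2 * Real.pi * Complex.I) ≠ 0 := by
    simp [Complex.I_ne_zero, Real.pi_ne_zero]
  have h2 : (1 : ℂ) = n * 3 := by
    apply mul_left_cancel₀ h1
    linear_combination 3 * hn
  have h3 : (1 : ℤ) = n * 3 := by exact_mod_cast h2
  omega

theorem om_ne : om ≠ 0 := Complex.exp_ne_zero _

theorem norm_om : ‖om‖ = 1 := by
  have h : ‖om‖ ^ 3 = 1 := by rw [← norm_pow, om_pow, norm_one]
  exact (pow_eq_one_iff_of_nonneg (norm_nonneg _) (by norm_num)).1 h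

theorem om_sq_ne (k : ℤ) : om ^ 2 ≠ qq ^ k := by
  intro h
  have h1 : ‖qq ^ k‖ = 1 := by rw [← h, norm_pow, norm_om, one_pow]
  have h2 := qq_zpow_eq_one h1
  rw [h2, zpow_zero] at h
  apply om_ne_one
  have := om_pow
  calc om = om ^ 3 := by rw [pow_succ, h, one_mul]
    _ = 1 := om_pow

theorem om_four_ne (k : ℤ) : om ^ 4 ≠ qq ^ k := by
  intro h
  have h1 : ‖qq ^ k‖ = 1 := by rw [← h, norm_pow, norm_om, one_pow]
  have h2 := qq_zpow_eq_one h1
  rw [h2, zpow_zero] at h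
  apply om_ne_one
  calc om = om ^ 3 * om := by rw [om_pow, one_mul]
    _ = om ^ 4 := by ring
    _ = 1 := h

/-- `x ∈ q^ℤ` -/
def IsQ (x : ℂ) : Prop := ∃ k : ℤ, x = qq ^ k

theorem IsQ.mul {x y : ℂ} (hx : IsQ x) (hy : IsQ y) : IsQ (x * y) := by
  obtain ⟨k, rfl⟩ := hx
  obtain ⟨l, rfl⟩ := hy
  exact ⟨k + l, (zpow_add₀ qq_ne _ _).symm⟩

theorem IsQ.inv {x : ℂ} (hx : IsQ x) : IsQ x⁻¹ := by
  obtain ⟨k, rfl⟩ := hx
  exact ⟨-k, (zpow_neg _ _).symm⟩

theorem isQ_one : IsQ 1 := ⟨0, (zpow_zero _).symm⟩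

theorem IsQ.ne {x : ℂ} (hx : IsQ x) : x ≠ 0 := by
  obtain ⟨k, rfl⟩ := hx
  exact qq_zpow_ne k

theorem zero_shift {F : ℂ → ℂ} (hmF : ∀ x, x ≠ 0 → F (qq * x) = (x ^ 2)⁻¹ * F x) (k : ℤ) :
    ∀ x, x ≠ 0 → (F (qq ^ k * x) = 0 ↔ F x = 0) := by
  have key : ∀ x, x ≠ 0 → (F (qq * x) = 0 ↔ F x = 0) := by
    intro x hx
    rw [hmF x hx]
    constructor
    · intro h
      rcases mul_eq_zero.1 h with h | h
      · exact absurd h (inv_ne_zero (pow_ne_zero 2 hx))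
      · exact h
    · intro h; rw [h, mul_zero]
  induction k using Int.induction_on with
  | zero => intro x hx; simp
  | succ n ih =>
    intro x hx
    rw [← ih x hx, ← key (qq ^ (n : ℤ) * x) (mul_ne_zero (qq_zpow_ne _) hx), ← mul_assoc,
      mul_comm qq, ← zpow_add_one₀ qq_ne]
  | pred n ih =>
    intro x hx
    rw [← ih x hx, ← key (qq ^ (-(n : ℤ) - 1) * x) (mul_ne_zero (qq_zpow_ne _) hx), ← mul_assoc,
      mul_comm qq, ← zpow_add_one₀ qq_ne, sub_add_cancel]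

theorem th_neg_mul {x : ℂ} (hx : x ≠ 0) : th (-(qq * x)) = x⁻¹ * th (-x) := by
  have := th_mul (neg_ne_zero.2 hx)
  rw [mul_neg] at this
  rw [this, inv_neg, neg_neg]

theorem th_neg_inv {x : ℂ} (hx : x ≠ 0) : th (-x⁻¹) = x⁻¹ * th (-x) := by
  have := th_inv (neg_ne_zero.2 hx)
  rw [inv_neg] at this
  rw [this, neg_neg]

theorem th_analytic_comp {c x : ℂ} (hc : c ≠ 0) (hx : x ≠ 0) :
    AnalyticAt ℂ (fun y => th (y * c)) x := by
  have h1 : AnalyticAt ℂ (fun y : ℂ => y * c) x := analyticAt_id.mul analyticAt_const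
  exact AnalyticAt.comp (g := th) (f := fun y : ℂ => y * c) (x := x)
    (th_analytic (mul_ne_zero hx hc)) h1

theorem th_neg_analytic {x : ℂ} (hx : x ≠ 0) : AnalyticAt ℂ (fun y => th (-y)) x := by
  have h1 : AnalyticAt ℂ (fun y : ℂ => -y) x := analyticAt_id.neg
  exact (th_analytic (neg_ne_zero.2 hx)).comp h1

/-- the addition theorem -/
theorem keyK {y : ℂ} (hy : y ≠ 0) (hy2 : ¬ IsQ (y ^ 2)) : ∃ C : ℂ, C ≠ 0 ∧ ∀ x, x ≠ 0 →
    th x ^ 2 * th (-y) ^ 2 - th (-x) ^ 2 * th y ^ 2 = C * (th (x * y) * th (x * y⁻¹)) := by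
  have hyi := inv_ne_zero hy
  set F : ℂ → ℂ := fun x => th x ^ 2 * th (-y) ^ 2 - th (-x) ^ 2 * th y ^ 2 with hFd
  set G : ℂ → ℂ := fun x => th (x * y) * th (x * y⁻¹) with hGd
  have hF : ∀ x, x ≠ 0 → AnalyticAt ℂ F x := fun x hx =>
    (((th_analytic hx).pow 2).mul analyticAt_const).sub
      (((th_neg_analytic hx).pow 2).mul analyticAt_const)
  have hG : ∀ x, x ≠ 0 → AnalyticAt ℂ G x := fun x hx =>
    (th_analytic_comp hy hx).mul (th_analytic_comp hyi hx)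
  have hmF : ∀ x, x ≠ 0 → F (qq * x) = (x ^ 2)⁻¹ * F x := by
    intro x hx
    simp only [hFd]
    rw [th_mul hx, th_neg_mul hx]
    field_simp
  have hmG : ∀ x, x ≠ 0 → G (qq * x) = (x ^ 2)⁻¹ * G x := by
    intro x hx
    simp only [hGd]
    rw [mul_assoc qq x y, th_mul (mul_ne_zero hx hy), mul_assoc qq x y⁻¹,
      th_mul (mul_ne_zero hx hyi)]
    field_simp
  have hdG : ∀ x, x ≠ 0 → deriv G x = y * deriv th (x * y) * th (x * y⁻¹)
      + th (x * y) * (y⁻¹ * deriv th (x * y⁻¹)) := by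
    intro x hx
    have h0 : ∀ c : ℂ, HasDerivAt (fun z : ℂ => z * c) c x := fun c => by
      simpa using (hasDerivAt_id x).mul_const c
    have h1 : HasDerivAt (fun z => th (z * y)) (deriv th (x * y) * y) x :=
      HasDerivAt.comp (h₂ := th) (h := fun z : ℂ => z * y) x
        (th_analytic (mul_ne_zero hx hy)).differentiableAt.hasDerivAt (h0 y)
    have h2 : HasDerivAt (fun z => th (z * y⁻¹)) (deriv th (x * y⁻¹) * y⁻¹) x :=
      HasDerivAt.comp (h₂ := th) (h := fun z : ℂ => z * y⁻¹) x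
        (th_analytic (mul_ne_zero hx hyi)).differentiableAt.hasDerivAt (h0 y⁻¹)
    have h3 := (h1.mul h2).deriv
    change deriv G x = _ at h3
    rw [h3]
    ring
  have hzero : ∀ x, x ≠ 0 → G x = 0 → F x = 0 ∧ deriv G x ≠ 0 := by
    intro x hx h0
    rcases mul_eq_zero.1 h0 with h | h
    · obtain ⟨k, hk⟩ := (th_eq_zero_iff (mul_ne_zero hx hy)).1 h
      have e : x = qq ^ k * y⁻¹ := by rw [← hk]; field_simp
      constructor
      · rw [e, zero_shift hmF k _ hyi]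
        simp only [hFd]
        rw [th_inv hy, th_neg_inv hy]
        ring
      · rw [hdG x hx, h, zero_mul, add_zero, hk]
        refine mul_ne_zero (mul_ne_zero hy (th_deriv_zpow k)) ?_
        intro h3
        obtain ⟨m, hm⟩ := (th_eq_zero_iff (mul_ne_zero hx hyi)).1 h3
        apply hy2
        have : y ^ 2 = qq ^ k * (qq ^ m)⁻¹ := by
          rw [← hk, ← hm]; field_simp
        rw [this]
        exact IsQ.mul ⟨k, rfl⟩ (IsQ.inv ⟨m, rfl⟩)
    · obtain ⟨k, hk⟩ := (th_eq_zero_iff (mul_ne_zero hx hyi)).1 h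
      have e : x = qq ^ k * y := by rw [← hk]; field_simp
      constructor
      · rw [e, zero_shift hmF k _ hy]
        simp only [hFd]
        ring
      · rw [hdG x hx, h, mul_zero, zero_add, hk]
        refine mul_ne_zero ?_ (mul_ne_zero hyi (th_deriv_zpow k))
        intro h3
        obtain ⟨m, hm⟩ := (th_eq_zero_iff (mul_ne_zero hx hy)).1 h3
        apply hy2
        have : y ^ 2 = qq ^ m * (qq ^ k)⁻¹ := by
          rw [← hk, ← hm]; field_simp
        rw [this]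
        exact IsQ.mul ⟨m, rfl⟩ (IsQ.inv ⟨k, rfl⟩)
  obtain ⟨C, hC⟩ := liou hF hG hmF hmG hzero
  refine ⟨C, ?_, hC⟩
  rintro rfl
  have h1 := hC 1 one_ne_zero
  simp only [hFd, zero_mul, th_one] at h1
  have h2 : th (-1) ≠ 0 := by
    apply th_ne (by norm_num)
    intro k hk
    have h3 : ‖qq ^ k‖ = 1 := by rw [← hk]; simp
    rw [qq_zpow_eq_one h3, zpow_zero] at hk
    norm_num at hk
  have h3 : th y ≠ 0 := by
    apply th_ne hy
    intro k hk
    apply hy2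
    rw [hk, sq]
    exact IsQ.mul ⟨k, rfl⟩ ⟨k, rfl⟩
  have h4 : th (-1) ^ 2 * th y ^ 2 = 0 := by linear_combination -h1
  exact mul_ne_zero (pow_ne_zero 2 h2) (pow_ne_zero 2 h3) h4

/-- the two degree two theta functions -/
def Th (i : Fin 2) (x : ℂ) : ℂ := if i = 0 then th x ^ 2 else th (-x) ^ 2

theorem Th_zero (x : ℂ) : Th 0 x = th x ^ 2 := rfl
theorem Th_one (x : ℂ) : Th 1 x = th (-x) ^ 2 := rfl

theorem Th_mul (i : Fin 2) {x : ℂ} (hx : x ≠ 0) : Th i (qq * x) = (x ^ 2)⁻¹ * Th i x := by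
  fin_cases i
  · change th (qq * x) ^ 2 = (x ^ 2)⁻¹ * th x ^ 2
    rw [th_mul hx]; field_simp
  · change th (-(qq * x)) ^ 2 = (x ^ 2)⁻¹ * th (-x) ^ 2
    rw [th_neg_mul hx]; field_simp

theorem Th_analytic (i : Fin 2) {x : ℂ} (hx : x ≠ 0) : AnalyticAt ℂ (Th i) x := by
  fin_cases i
  · exact (th_analytic hx).pow 2
  · exact (th_neg_analytic hx).pow 2

theorem Th_ne {x : ℂ} (hx : x ≠ 0) : Th 0 x ≠ 0 ∨ Th 1 x ≠ 0 := by
  by_contra hcon
  push Not at hcon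
  obtain ⟨h0, h1⟩ := hcon
  rw [Th_zero] at h0
  rw [Th_one] at h1
  have h0' := pow_eq_zero_iff (two_ne_zero) |>.1 h0
  have h1' := pow_eq_zero_iff (two_ne_zero) |>.1 h1
  obtain ⟨k, hk⟩ := (th_eq_zero_iff hx).1 h0'
  obtain ⟨m, hm⟩ := (th_eq_zero_iff (neg_ne_zero.2 hx)).1 h1'
  have h2 : (-1 : ℂ) = qq ^ (m - k) := by
    rw [zpow_sub₀ qq_ne, ← hk, ← hm]; field_simp
  have h3 : ‖qq ^ (m - k)‖ = 1 := by rw [← h2]; simp
  rw [qq_zpow_eq_one h3, zpow_zero] at h2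
  norm_num at h2

theorem Th_key {x y : ℂ} (hx : x ≠ 0) (hy : y ≠ 0) (h : Th 0 x * Th 1 y = Th 1 x * Th 0 y)
    (h2 : ¬ IsQ (y ^ 2)) : IsQ (x * y) ∨ IsQ (x * y⁻¹) := by
  obtain ⟨C, hC, h3⟩ := keyK hy h2
  have h4 := h3 x hx
  rw [Th_zero, Th_zero, Th_one, Th_one] at h
  rw [h, sub_self] at h4
  rcases mul_eq_zero.1 h4.symm with h5 | h5
  · exact absurd h5 hC
  rcases mul_eq_zero.1 h5 with h6 | h6
  · exact Or.inl ((th_eq_zero_iff (mul_ne_zero hx hy)).1 h6)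
  · exact Or.inr ((th_eq_zero_iff (mul_ne_zero hx (inv_ne_zero hy))).1 h6)

/-- in general -/
theorem Th_key' {x y : ℂ} (hx : x ≠ 0) (hy : y ≠ 0) (h : Th 0 x * Th 1 y = Th 1 x * Th 0 y) :
    IsQ (x * y) ∨ IsQ (x * y⁻¹) ∨ (IsQ (x ^ 2) ∧ IsQ (y ^ 2)) := by
  by_cases h2 : IsQ (y ^ 2)
  · by_cases h3 : IsQ (x ^ 2)
    · exact Or.inr (Or.inr ⟨h3, h2⟩)
    · rcases Th_key hy hx (by linear_combination -h) h3 with h4 | h4
      · left; rw [mul_comm]; exact h4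
      · right; left
        have := h4.inv
        rwa [mul_inv, inv_inv, mul_comm] at this
  · rcases Th_key hx hy h h2 with h4 | h4
    · exact Or.inl h4
    · exact Or.inr (Or.inl h4)

/-- injectivity of the combination of the two maps to the projective line -/
theorem inj_core {x y : ℂ} (hx : x ≠ 0) (hy : y ≠ 0) (h : Th 0 x * Th 1 y = Th 1 x * Th 0 y)
    (h' : Th 0 (om * x) * Th 1 (om * y) = Th 1 (om * x) * Th 0 (om * y)) : IsQ (x * y⁻¹) := by
  have hox := mul_ne_zero om_ne hx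
  have hoy := mul_ne_zero om_ne hy
  have key2 := Th_key' hox hoy h'
  have e2 : om * x * (om * y)⁻¹ = x * y⁻¹ := by
    have := om_ne
    field_simp
  have c4 : IsQ (x ^ 2) → IsQ (y ^ 2) → ¬ IsQ (om * x * (om * y)) := by
    intro h1 h2 h3
    have h4 : IsQ ((om * x * (om * y)) * (om * x * (om * y)) * (x ^ 2)⁻¹ * (y ^ 2)⁻¹) :=
      ((h3.mul h3).mul h1.inv).mul h2.inv
    have e : (om * x * (om * y)) * (om * x * (om * y)) * (x ^ 2)⁻¹ * (y ^ 2)⁻¹ = om ^ 4 := by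
      field_simp
    rw [e] at h4
    obtain ⟨k, hk⟩ := h4
    exact om_four_ne k hk
  have c5 : IsQ (x ^ 2) → ¬ IsQ ((om * x) ^ 2) := by
    intro h1 h2
    have h4 := h2.mul h1.inv
    have e : (om * x) ^ 2 * (x ^ 2)⁻¹ = om ^ 2 := by field_simp
    rw [e] at h4
    obtain ⟨k, hk⟩ := h4
    exact om_sq_ne k hk
  rcases Th_key' hx hy h with h1 | h1 | ⟨h1, h2⟩
  · -- `x y ∈ q^ℤ`
    rcases key2 with h3 | h3 | ⟨h3, h4⟩
    · exfalso
      have h5 := h3.mul h1.inv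
      have e : om * x * (om * y) * (x * y)⁻¹ = om ^ 2 := by field_simp
      rw [e] at h5
      obtain ⟨k, hk⟩ := h5
      exact om_sq_ne k hk
    · rwa [e2] at h3
    · exfalso
      have h5 := (h3.mul h4).mul (h1.inv.mul h1.inv)
      have e : (om * x) ^ 2 * (om * y) ^ 2 * ((x * y)⁻¹ * (x * y)⁻¹) = om ^ 4 := by field_simp
      rw [e] at h5
      obtain ⟨k, hk⟩ := h5
      exact om_four_ne k hk
  · exact h1
  · rcases key2 with h3 | h3 | ⟨h3, h4⟩
    · exact absurd h3 (c4 h1 h2)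
    · rwa [e2] at h3
    · exact absurd h3 (c5 h1)

end Pool.Agent.H944R2
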