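import Pool.Agent.H944R2.Theta3

/-! The projective embedding of `ℂˣ / qᶻ`, conclusion. -/

open Filter Topology Set

noncomputable section

namespace Pool.Agent.H944R2

theorem Th_wronskian {y : ℂ} (hy : y ≠ 0) (hy2 : ¬ IsQ (y ^ 2)) :
    deriv (Th 0) y * Th 1 y - deriv (Th 1) y * Th 0 y ≠ 0 := by
  obtain ⟨C, hC, h⟩ := keyK hy hy2
  have hyi := inv_ne_zero hy
  have h1 : HasDerivAt (fun x => Th 0 x * Th 1 y - Th 1 x * Th 0 y)
      (deriv (Th 0) y * Th 1 y - deriv (Th 1) y * Th 0 y) y :=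
    (((Th_analytic 0 hy).differentiableAt.hasDerivAt).mul_const _).sub
      (((Th_analytic 1 hy).differentiableAt.hasDerivAt).mul_const _)
  have h0 : ∀ c : ℂ, HasDerivAt (fun z : ℂ => z * c) c y := fun c => by
    simpa using (hasDerivAt_id y).mul_const c
  have h2 : HasDerivAt (fun z => th (z * y)) (deriv th (y * y) * y) y :=
    HasDerivAt.comp (h₂ := th) (h := fun z : ℂ => z * y) y
      (th_analytic (mul_ne_zero hy hy)).differentiableAt.hasDerivAt (h0 y)
  have h3 : HasDerivAt (fun z => th (z * y⁻¹)) (deriv th (y * y⁻¹) * y⁻¹) y :=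
    HasDerivAt.comp (h₂ := th) (h := fun z : ℂ => z * y⁻¹) y
      (th_analytic (mul_ne_zero hy hyi)).differentiableAt.hasDerivAt (h0 y⁻¹)
  have h4 := (h2.mul h3).const_mul C
  have h5 : (fun x => Th 0 x * Th 1 y - Th 1 x * Th 0 y) =ᶠ[𝓝 y]
      (fun z => C * (th (z * y) * th (z * y⁻¹))) := by
    filter_upwards [isOpen_ne.mem_nhds hy] with x hx
    exact h x hx
  have h6 := (h1.congr_of_eventuallyEq h5.symm).unique h4
  rw [h6]
  simp only [mul_inv_cancel₀ hy, th_one, mul_zero, zero_add]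
  refine mul_ne_zero hC (mul_ne_zero ?_ (mul_ne_zero th_deriv_one hyi))
  intro h7
  apply hy2
  rw [sq]
  exact (th_eq_zero_iff (mul_ne_zero hy hy)).1 h7

/-- index set of the coordinates of the embedding of the elliptic curve in `P³` -/
abbrev J4 := Fin 2 × Fin 2

/-- the embedding `ℂˣ / qᶻ → P³` -/
def cE (x : ℂ) : J4 → ℂ := fun p => Th p.1 x * Th p.2 (om * x)

/-- the multiplier -/
def phi (x : ℂ) : ℂ := (x ^ 2)⁻¹ * ((om * x) ^ 2)⁻¹

theorem phi_ne {x : ℂ} (hx : x ≠ 0) : phi x ≠ 0 :=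
  mul_ne_zero (inv_ne_zero (pow_ne_zero 2 hx)) (inv_ne_zero (pow_ne_zero 2 (mul_ne_zero om_ne hx)))

theorem cE_mul {x : ℂ} (hx : x ≠ 0) : cE (qq * x) = phi x • cE x := by
  funext p
  change Th p.1 (qq * x) * Th p.2 (om * (qq * x)) = phi x * (Th p.1 x * Th p.2 (om * x))
  have e : om * (qq * x) = qq * (om * x) := by ring
  rw [e, Th_mul _ hx, Th_mul _ (mul_ne_zero om_ne hx), phi]
  ring

theorem Th_comp_analytic (i : Fin 2) {x : ℂ} (hx : x ≠ 0) :
    AnalyticAt ℂ (fun y => Th i (om * y)) x := by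
  have h1 : AnalyticAt ℂ (fun y : ℂ => om * y) x := analyticAt_const.mul analyticAt_id
  exact AnalyticAt.comp (g := Th i) (f := fun y : ℂ => om * y) (x := x)
    (Th_analytic i (mul_ne_zero om_ne hx)) h1

theorem cE_analytic {x : ℂ} (hx : x ≠ 0) : AnalyticAt ℂ cE x := by
  rw [analyticAt_pi_iff]
  intro p
  exact (Th_analytic _ hx).mul (Th_comp_analytic _ hx)

theorem cE_ne {x : ℂ} (hx : x ≠ 0) : cE x ≠ 0 := by
  intro h
  obtain ⟨i, hi⟩ : ∃ i, Th i x ≠ 0 := by
    rcases Th_ne hx with h | h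
    · exact ⟨0, h⟩
    · exact ⟨1, h⟩
  obtain ⟨j, hj⟩ : ∃ j, Th j (om * x) ≠ 0 := by
    rcases Th_ne (mul_ne_zero om_ne hx) with h | h
    · exact ⟨0, h⟩
    · exact ⟨1, h⟩
  exact mul_ne_zero hi hj (congrFun h (i, j))

theorem cE_inj {x y : ℂ} (hx : x ≠ 0) (hy : y ≠ 0) (l : ℂ) (h : cE x = l • cE y) :
    IsQ (x * y⁻¹) := by
  have hl : l ≠ 0 := by
    rintro rfl
    rw [zero_smul] at h
    exact cE_ne hx h
  have hh : ∀ i j, Th i x * Th j (om * x) = l * (Th i y * Th j (om * y)) := fun i j =>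
    congrFun h (i, j)
  have h00 := hh 0 0
  have h01 := hh 0 1
  have h10 := hh 1 0
  have h11 := hh 1 1
  apply inj_core hx hy
  · rcases Th_ne (mul_ne_zero om_ne hy) with h | h
    · have h0 : l * Th 0 (om * y) ≠ 0 := mul_ne_zero hl h
      apply mul_right_cancel₀ h0
      linear_combination (Th 0 x) * (-h10) + (Th 1 x) * h00
    · have h0 : l * Th 1 (om * y) ≠ 0 := mul_ne_zero hl h
      apply mul_right_cancel₀ h0
      linear_combination (Th 0 x) * (-h11) + (Th 1 x) * h01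
  · rcases Th_ne hy with h | h
    · have h0 : l * Th 0 y ≠ 0 := mul_ne_zero hl h
      apply mul_right_cancel₀ h0
      linear_combination (Th 0 (om * x)) * (-h01) + (Th 1 (om * x)) * h00
    · have h0 : l * Th 1 y ≠ 0 := mul_ne_zero hl h
      apply mul_right_cancel₀ h0
      linear_combination (Th 0 (om * x)) * (-h11) + (Th 1 (om * x)) * h10

theorem cE_imm {x : ℂ} (hx : x ≠ 0) (l : ℂ) : deriv cE x ≠ l • cE x := by
  intro h
  have hox := mul_ne_zero om_ne hx
  have hd : ∀ i j, deriv (Th i) x * Th j (om * x) + Th i x * (om * deriv (Th j) (om * x))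
      = l * (Th i x * Th j (om * x)) := by
    intro i j
    have h1 : HasDerivAt (Th i) (deriv (Th i) x) x := (Th_analytic i hx).differentiableAt.hasDerivAt
    have h0 : HasDerivAt (fun z : ℂ => om * z) om x := by
      simpa using (hasDerivAt_id x).const_mul om
    have h2 : HasDerivAt (fun y => Th j (om * y)) (deriv (Th j) (om * x) * om) x :=
      HasDerivAt.comp (h₂ := Th j) (h := fun z : ℂ => om * z) x
        (Th_analytic j hox).differentiableAt.hasDerivAt h0
    have h3 := (h1.mul h2).deriv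
    have h4 : deriv cE x (i, j) = deriv (fun y => cE y (i, j)) x := by
      rw [deriv_pi]
      intro p
      exact differentiableAt_pi.1 (cE_analytic hx).differentiableAt p
    have h5 := congrFun h (i, j)
    rw [h4] at h5
    change deriv (Th i * fun y => Th j (om * y)) x = l * (Th i x * Th j (om * x)) at h5
    rw [h3] at h5
    linear_combination h5
  have w1 : deriv (Th 0) x * Th 1 x - deriv (Th 1) x * Th 0 x = 0 := by
    rcases Th_ne hox with h | h
    · apply mul_right_cancel₀ h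
      linear_combination (Th 1 x) * (hd 0 0) - (Th 0 x) * (hd 1 0)
    · apply mul_right_cancel₀ h
      linear_combination (Th 1 x) * (hd 0 1) - (Th 0 x) * (hd 1 1)
  have w2 : deriv (Th 0) (om * x) * Th 1 (om * x) - deriv (Th 1) (om * x) * Th 0 (om * x) = 0 := by
    apply mul_left_cancel₀ om_ne
    rcases Th_ne hx with h | h
    · apply mul_left_cancel₀ h
      linear_combination (Th 1 (om * x)) * (hd 0 0) - (Th 0 (om * x)) * (hd 0 1)
    · apply mul_left_cancel₀ h
      linear_combination (Th 1 (om * x)) * (hd 1 0) - (Th 0 (om * x)) * (hd 1 1)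
  have q1 : IsQ (x ^ 2) := by
    by_contra hcon
    exact Th_wronskian hx hcon w1
  have q2 : IsQ ((om * x) ^ 2) := by
    by_contra hcon
    exact Th_wronskian hox hcon w2
  have h4 := q2.mul q1.inv
  have e : (om * x) ^ 2 * (x ^ 2)⁻¹ = om ^ 2 := by field_simp
  rw [e] at h4
  obtain ⟨k, hk⟩ := h4
  exact om_sq_ne k hk

/-! ### the three twisted embeddings -/

/-- a primitive eighth root of unity -/
def ze : ℂ := Complex.exp (Real.pi * Complex.I / 4)

theorem ze_pow : ze ^ 4 = -1 := by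
  rw [ze, ← Complex.exp_nat_mul]
  rw [show ((4 : ℕ) : ℂ) * (Real.pi * Complex.I / 4) = Real.pi * Complex.I by push_cast; ring]
  exact Complex.exp_pi_mul_I

theorem ze_ne : ze ≠ 0 := Complex.exp_ne_zero _

/-- the translations of the three embeddings -/
def ga (k : Fin 3) : ℂ := if k = 0 then ze else if k = 1 then om else 1

theorem ga_ne (k : Fin 3) : ga k ≠ 0 := by
  fin_cases k
  · exact ze_ne
  · exact om_ne
  · exact one_ne_zero

/-- the characters -/
def ch (k : Fin 3) : ℂ := if k = 0 then -1 else if k = 1 then om else 1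

theorem ch_ne (k : Fin 3) : ch k ≠ 0 := by
  fin_cases k
  · exact neg_ne_zero.2 one_ne_zero
  · exact om_ne
  · exact one_ne_zero

theorem ga_pow (k : Fin 3) : ga k ^ 4 = ch k := by
  fin_cases k
  · exact ze_pow
  · change om ^ 4 = om
    calc om ^ 4 = om ^ 3 * om := by ring
      _ = om := by rw [om_pow, one_mul]
  · exact one_pow 4

/-- index set of the twelve homogeneous coordinates -/
abbrev Ix := Fin 3 × J4

/-- the vector attached to `x` and `u = (U, V, W)` -/
def vec (x : ℂ) (u : Fin 3 → ℂ) : Ix → ℂ := fun p => u p.1 * cE (ga p.1 * x) p.2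

theorem vec_shift {x : ℂ} (hx : x ≠ 0) (u : Fin 3 → ℂ) :
    vec (qq * x) (fun k => ch k * u k) = phi x • vec x u := by
  funext p
  obtain ⟨k, p⟩ := p
  have e : ga k * (qq * x) = qq * (ga k * x) := by ring
  have h := congrFun (cE_mul (mul_ne_zero (ga_ne k) hx)) p
  change ch k * u k * cE (ga k * (qq * x)) p = phi x * (u k * cE (ga k * x) p)
  rw [e, h]
  change ch k * u k * (phi (ga k * x) * cE (ga k * x) p) = _
  have h2 : ch k * phi (ga k * x) = phi x := by
    rw [← ga_pow k, phi, phi]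
    have := ga_ne k
    have := om_ne
    field_simp
  linear_combination (u k * cE (ga k * x) p) * h2

theorem vec_smul (x : ℂ) (l : ℂ) (u : Fin 3 → ℂ) : vec x (l • u) = l • vec x u := by
  funext p
  change l * u p.1 * cE (ga p.1 * x) p.2 = l * (u p.1 * cE (ga p.1 * x) p.2)
  ring

theorem vec_apply (x : ℂ) (u : Fin 3 → ℂ) (k : Fin 3) (p : J4) :
    vec x u (k, p) = u k * cE (ga k * x) p := rfl

theorem vec_inj_right {x : ℂ} (hx : x ≠ 0) {u u' : Fin 3 → ℂ} (h : vec x u = vec x u') :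
    u = u' := by
  funext k
  obtain ⟨p, hp⟩ := Function.ne_iff.1 (cE_ne (mul_ne_zero (ga_ne k) hx))
  have := congrFun h (k, p)
  exact mul_right_cancel₀ hp this

theorem vec_ne {x : ℂ} (hx : x ≠ 0) {u : Fin 3 → ℂ} (hu : u ≠ 0) : vec x u ≠ 0 := by
  intro h
  apply hu
  apply vec_inj_right hx
  rw [h]
  funext p
  change (0 : ℂ) = 0 * _
  rw [zero_mul]

theorem vec_inj_left {x y : ℂ} (hx : x ≠ 0) (hy : y ≠ 0) {u u' : Fin 3 → ℂ} (l : ℂ) {k : Fin 3}
    (hk : u k ≠ 0) (h : vec x u = l • vec y u') : IsQ (x * y⁻¹) := by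
  have h1 : cE (ga k * x) = ((u k)⁻¹ * (l * u' k)) • cE (ga k * y) := by
    funext p
    have := congrFun h (k, p)
    change u k * cE (ga k * x) p = l * (u' k * cE (ga k * y) p) at this
    change cE (ga k * x) p = (u k)⁻¹ * (l * u' k) * cE (ga k * y) p
    rw [mul_assoc, mul_assoc, ← this, inv_mul_cancel_left₀ hk]
  have h2 := cE_inj (mul_ne_zero (ga_ne k) hx) (mul_ne_zero (ga_ne k) hy) _ h1
  have e : ga k * x * (ga k * y)⁻¹ = x * y⁻¹ := by
    have := ga_ne k
    field_simp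
  rwa [e] at h2

theorem vec_zshift (n : ℤ) {x : ℂ} (hx : x ≠ 0) (u : Fin 3 → ℂ) :
    ∃ l : ℂ, l ≠ 0 ∧ vec (qq ^ n * x) (fun k => ch k ^ n * u k) = l • vec x u := by
  induction n using Int.induction_on with
  | zero => exact ⟨1, one_ne_zero, by simp⟩
  | succ n ih =>
    obtain ⟨l, hl, h⟩ := ih
    have hx' := mul_ne_zero (qq_zpow_ne (n : ℤ)) hx
    refine ⟨phi (qq ^ (n : ℤ) * x) * l, mul_ne_zero (phi_ne hx') hl, ?_⟩
    have h1 := vec_shift hx' (fun k => ch k ^ (n : ℤ) * u k)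
    rw [h, smul_smul] at h1
    rw [← h1]
    congr 1
    · rw [zpow_add_one₀ qq_ne]; ring
    · funext k
      rw [zpow_add_one₀ (ch_ne k)]; ring
  | pred n ih =>
    obtain ⟨l, hl, h⟩ := ih
    have hx' := mul_ne_zero (qq_zpow_ne (-(n : ℤ) - 1)) hx
    refine ⟨(phi (qq ^ (-(n : ℤ) - 1) * x))⁻¹ * l, mul_ne_zero (inv_ne_zero (phi_ne hx')) hl, ?_⟩
    have h1 := vec_shift hx' (fun k => ch k ^ (-(n : ℤ) - 1) * u k)
    have e1 : qq * (qq ^ (-(n : ℤ) - 1) * x) = qq ^ (-(n : ℤ)) * x := by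
      rw [← mul_assoc, mul_comm qq, ← zpow_add_one₀ qq_ne, sub_add_cancel]
    have e2 : (fun k => ch k * (ch k ^ (-(n : ℤ) - 1) * u k)) = fun k => ch k ^ (-(n : ℤ)) * u k := by
      funext k
      rw [← mul_assoc, mul_comm (ch k), ← zpow_add_one₀ (ch_ne k), sub_add_cancel]
    rw [e1, e2, h] at h1
    rw [mul_smul, h1, smul_smul, inv_mul_cancel₀ (phi_ne hx'), one_smul]

theorem vec_analytic {x : ℂ} (hx : x ≠ 0) (u : Fin 3 → ℂ) :
    AnalyticAt ℂ (fun p : ℂ × (Fin 3 → ℂ) => vec p.1 p.2) (x, u) := by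
  rw [analyticAt_pi_iff]
  rintro ⟨k, p⟩
  have h1 : AnalyticAt ℂ (fun p : ℂ × (Fin 3 → ℂ) => p.2 k) (x, u) :=
    (ContinuousLinearMap.analyticAt ((ContinuousLinearMap.proj k).comp
      (ContinuousLinearMap.snd ℂ ℂ (Fin 3 → ℂ))) _)
  have h2 : AnalyticAt ℂ (fun p : ℂ × (Fin 3 → ℂ) => ga k * p.1) (x, u) :=
    analyticAt_const.mul analyticAt_fst
  have h3 : AnalyticAt ℂ (fun q : ℂ × (Fin 3 → ℂ) => cE (ga k * q.1)) (x, u) :=
    AnalyticAt.comp (g := cE) (f := fun q : ℂ × (Fin 3 → ℂ) => ga k * q.1) (x := (x, u))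
      (cE_analytic (mul_ne_zero (ga_ne k) hx)) h2
  exact h1.mul ((analyticAt_pi_iff.1 h3) p)

end Pool.Agent.H944R2
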