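import Pool.Agent.H944R2.Defs
import Pool.Agent.H944R2.Emb
import Pool.Agent.H944R2.Sub

/-! The threefold is a complex submanifold. -/

open Filter Topology Set
open scoped LinearAlgebra.Projectivization
open Pool.Agent.Helper10.UC (PP)

noncomputable section

namespace Pool.Agent.H944R2

abbrev EE := ℂ × (Ix → ℂ)

theorem mem_cone {z : EE} : z ∈ affCone XX ↔
    ∃ (x : ℂ) (u : Fin 3 → ℂ), x ≠ 0 ∧ u ≠ 0 ∧ Cub u z.1 ∧ z.2 = vec x u := by
  constructor
  · rintro ⟨hz, x, u, hx, hu, hc, h⟩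
    change mkP ⟨z.2, hz⟩ = mkP ⟨vec x u, vec_ne hx hu⟩ at h
    obtain ⟨l, hl⟩ := (mkP_eq_iff _ _).1 h
    change z.2 = l • vec x u at hl
    have hl0 : l ≠ 0 := by
      rintro rfl
      rw [zero_smul] at hl
      exact hz hl
    rw [← vec_smul] at hl
    exact ⟨x, l • u, hx, smul_ne_zero hl0 hu, (Cub_smul hl0 u _).2 hc, hl⟩
  · rintro ⟨x, u, hx, hu, hc, h⟩
    have hz : z.2 ≠ 0 := by rw [h]; exact vec_ne hx hu
    refine ⟨hz, x, u, hx, hu, hc, ?_⟩
    change mkP ⟨z.2, hz⟩ = mkP ⟨vec x u, vec_ne hx hu⟩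
    congr 1
    exact Subtype.ext h

/-- the point of the model under a point of the cone -/
def kap (z : affCone XX) : SS :=
  hX.symm ⟨(z.1.1, mkP ⟨z.1.2, z.2.1⟩), z.2.2⟩

theorem kap_continuous : Continuous kap := by
  refine hX.symm.continuous.comp (Continuous.subtype_mk ?_ _)
  refine Continuous.prodMk (by fun_prop) ?_
  exact mkP_oq.continuous.comp (Continuous.subtype_mk (by fun_prop) _)

theorem jS_kap (z : affCone XX) : jS (kap z) = (z.1.1, mkP ⟨z.1.2, z.2.1⟩) := by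
  rw [← hX_coe, kap, Homeomorph.apply_symm_apply]

/-- a point of the cone is `vec x u` for every `x` with the right circle coordinates -/
theorem kap_lift (z : affCone XX) (s : ℝ) (hs : sg s = (kap z).2.1) :
    ∃ u : Fin 3 → ℂ, u ≠ 0 ∧ Cub u z.1.1 ∧ z.1.2 = vec (xx s (kap z).1) u := by
  obtain ⟨s', u, t, hc, hp, hs', hu, ht⟩ := SS_lift (kap z)
  have h1 : iS (kap z) = QL ((kap z).1, (s, (u, t))) := by
    rw [hp, QL, QL, hs', hs]
  have h2 := jS_kap z
  unfold jS at h2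
  rw [h1, JJ_QL] at h2
  have h3 : (sg s : ℂ) * t = z.1.1 := congrArg Prod.fst h2
  have h4 : mkP ⟨vec (xx s (kap z).1) (tw s u.1), vec_ne (xx_ne _ _) (tw_ne _ u.2)⟩ =
    mkP ⟨z.1.2, z.2.1⟩ := congrArg Prod.snd h2
  obtain ⟨l, hl⟩ := (mkP_eq_iff _ _).1 h4.symm
  change z.1.2 = l • vec (xx s (kap z).1) (tw s u.1) at hl
  have hl0 : l ≠ 0 := by
    rintro rfl
    rw [zero_smul] at hl
    exact z.2.1 hl
  rw [← vec_smul] at hl
  refine ⟨l • tw s u.1, smul_ne_zero hl0 (tw_ne s u.2), (Cub_smul hl0 _ _).2 ?_, hl⟩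
  rw [← h3, Cub_tw]
  exact hc

/-- continuous lifts -/
theorem cone_lift {t₀ x₀ : ℂ} {u₀ : Fin 3 → ℂ} (hx₀ : x₀ ≠ 0) (hu₀ : u₀ ≠ 0) (hc₀ : Cub u₀ t₀) :
    ∃ (X : EE → ℂ) (U : EE → Fin 3 → ℂ),
      Tendsto X (𝓝[affCone XX] (t₀, vec x₀ u₀)) (𝓝 x₀) ∧
      Tendsto U (𝓝[affCone XX] (t₀, vec x₀ u₀)) (𝓝 u₀) ∧
      (∀ᶠ z in 𝓝[affCone XX] (t₀, vec x₀ u₀), X z ≠ 0 ∧ Cub (U z) z.1 ∧ z.2 = vec (X z) (U z)) ∧
      ∃ pk : Fin 3 → J4, (∀ k, cE (ga k * x₀) (pk k) ≠ 0) ∧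
        ∀ z k, U z k = z.2 (k, pk k) / cE (ga k * X z) (pk k) := by
  have hv₀ : ((t₀, vec x₀ u₀) : EE) ∈ affCone XX := mem_cone.2 ⟨x₀, u₀, hx₀, hu₀, hc₀, rfl⟩
  set v₀ : EE := (t₀, vec x₀ u₀) with hv₀d
  let z₀ : affCone XX := ⟨v₀, hv₀⟩
  -- base point data
  obtain ⟨s₁, hs₁⟩ := sg_oq.surjective (kap z₀).2.1
  obtain ⟨u₁, hu₁, hc₁, h₁⟩ := kap_lift z₀ s₁ hs₁
  have h₁' : vec x₀ u₀ = (1 : ℂ) • vec (xx s₁ (kap z₀).1) u₁ := by rw [one_smul]; exact h₁
  obtain ⟨n, hn⟩ := key_inj hx₀ (xx_ne _ _) hu₀ hc₀ 1 h₁'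
  have hn' : x₀ = xx (s₁ + n) (kap z₀).1 := by
    rw [xx_add, ← hn, mul_assoc, inv_mul_cancel₀ (xx_ne _ _), mul_one]
  set s₀ : ℝ := s₁ + n with hs₀d
  have hs₀ : sg s₀ = (kap z₀).2.1 := by rw [← hs₁]; exact sg_eq_iff.2 ⟨n, rfl⟩
  -- the lift of the circle coordinate
  let S : affCone XX → ℝ := fun z =>
    s₀ + Complex.arg ((((kap z).2.1 * (kap z₀).2.1⁻¹ : Circle)) : ℂ) / (2 * Real.pi)
  have hS : ∀ z, sg (S z) = (kap z).2.1 := by
    intro z
    have h2 : 2 * Real.pi * S z = 2 * Real.pi * s₀ +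
        Complex.arg ((((kap z).2.1 * (kap z₀).2.1⁻¹ : Circle)) : ℂ) := by
      simp only [S]
      field_simp
    rw [sg, h2, Circle.exp_add, Circle.exp_arg]
    change sg s₀ * _ = _
    rw [hs₀, mul_comm, mul_assoc, inv_mul_cancel, mul_one]
  have hSc : ContinuousAt S z₀ := by
    have e : ((((kap z₀).2.1 * (kap z₀).2.1⁻¹ : Circle)) : ℂ) = 1 := by
      rw [mul_inv_cancel, Circle.coe_one]
    have h3 : ContinuousAt (fun z : affCone XX =>
        ((((kap z).2.1 * (kap z₀).2.1⁻¹ : Circle)) : ℂ)) z₀ := by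
      have hk := kap_continuous
      have : Continuous (fun z : affCone XX => (((kap z).2.1 * (kap z₀).2.1⁻¹ : Circle))) :=
        (continuous_fst.comp (continuous_snd.comp hk)).mul continuous_const
      exact (coe_continuous.comp this).continuousAt
    have h4 : ContinuousAt Complex.arg ((((kap z₀).2.1 * (kap z₀).2.1⁻¹ : Circle)) : ℂ) := by
      rw [e]
      exact Complex.continuousAt_arg Complex.one_mem_slitPlane
    have h5 := ContinuousAt.comp (g := Complex.arg) (f := fun z : affCone XX =>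
        ((((kap z).2.1 * (kap z₀).2.1⁻¹ : Circle)) : ℂ)) (x := z₀) h4 h3
    exact continuousAt_const.add (h5.div_const _)
  have hS0 : S z₀ = s₀ := by
    simp only [S]
    rw [mul_inv_cancel, Circle.coe_one, Complex.arg_one, zero_div, add_zero]
  let X' : affCone XX → ℂ := fun z => xx (S z) (kap z).1
  have hX'c : ContinuousAt X' z₀ := by
    have h6 : ContinuousAt (fun z : affCone XX => (S z, (kap z).1)) z₀ :=
      hSc.prodMk (continuous_fst.comp kap_continuous).continuousAt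
    exact ContinuousAt.comp (g := fun p : ℝ × Circle => xx p.1 p.2)
      (f := fun z : affCone XX => (S z, (kap z).1)) (x := z₀) xx_continuous.continuousAt h6
  have hX'0 : X' z₀ = x₀ := by
    simp only [X']
    rw [hS0]
    exact hn'.symm
  classical
  let X : EE → ℂ := fun z => if h : z ∈ affCone XX then X' ⟨z, h⟩ else x₀
  have hXr : ∀ z : affCone XX, X z = X' z := fun z => dif_pos z.2
  have hXt : Tendsto X (𝓝[affCone XX] v₀) (𝓝 x₀) := by
    rw [tendsto_nhdsWithin_iff_subtype hv₀]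
    have : (affCone XX).domRestrict X = X' := by
      funext z
      exact hXr z
    rw [this]
    have := hX'c.tendsto
    rwa [hX'0] at this
  have hpk : ∀ k : Fin 3, ∃ p : J4, cE (ga k * x₀) p ≠ 0 := by
    intro k
    obtain ⟨p, hp⟩ := Function.ne_iff.1 (cE_ne (mul_ne_zero (ga_ne k) hx₀))
    exact ⟨p, hp⟩
  choose pk hpk using hpk
  have hden : ∀ k, Tendsto (fun z => cE (ga k * X z) (pk k)) (𝓝[affCone XX] v₀)
      (𝓝 (cE (ga k * x₀) (pk k))) := by
    intro k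
    have h7 : ContinuousAt (fun x => cE (ga k * x) (pk k)) x₀ := by
      have h8 := (cE_analytic (mul_ne_zero (ga_ne k) hx₀)).continuousAt
      have h9 : ContinuousAt (fun x => cE (ga k * x)) x₀ :=
        ContinuousAt.comp (g := cE) (f := fun x => ga k * x) (x := x₀) h8 (by fun_prop)
      exact (continuousAt_pi.1 h9) (pk k)
    exact h7.tendsto.comp hXt
  let U : EE → Fin 3 → ℂ := fun z k => z.2 (k, pk k) / cE (ga k * X z) (pk k)
  refine ⟨X, U, hXt, ?_, ?_, pk, hpk, fun z k => rfl⟩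
  · rw [tendsto_pi_nhds]
    intro k
    have h10 : Tendsto (fun z : EE => z.2 (k, pk k)) (𝓝[affCone XX] v₀)
        (𝓝 (vec x₀ u₀ (k, pk k))) := by
      have : Continuous (fun z : EE => z.2 (k, pk k)) := by fun_prop
      exact (this.tendsto v₀).mono_left nhdsWithin_le_nhds
    have h11 := h10.div (hden k) (hpk k)
    have h12 : vec x₀ u₀ (k, pk k) / cE (ga k * x₀) (pk k) = u₀ k := by
      rw [vec_apply, mul_div_assoc, div_self (hpk k), mul_one]
    rwa [h12] at h11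
  · have e1 : ∀ᶠ z in 𝓝[affCone XX] v₀, ∀ k, cE (ga k * X z) (pk k) ≠ 0 := by
      rw [eventually_all]
      intro k
      exact (hden k).eventually_ne (hpk k)
    filter_upwards [e1, self_mem_nhdsWithin] with z h13 hz
    have hXz : X z = X' ⟨z, hz⟩ := hXr ⟨z, hz⟩
    obtain ⟨u, hu, hc, h⟩ := kap_lift ⟨z, hz⟩ (S ⟨z, hz⟩) (hS ⟨z, hz⟩)
    have h14 : z.2 = vec (X z) u := by rw [hXz]; exact h
    have h15 : U z = u := by
      funext k
      change z.2 (k, pk k) / cE (ga k * X z) (pk k) = u k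
      rw [h14, vec_apply, mul_div_assoc, div_self (h13 k), mul_one]
    refine ⟨?_, ?_, ?_⟩
    · rw [hXz]; exact xx_ne _ _
    · rw [h15]; exact hc
    · rw [h15]; exact h14

end Pool.Agent.H944R2
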