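import Pool.Agent.H944R2.XSub

/-! The threefold is a complex submanifold: charts. -/

open Filter Topology Set
open scoped LinearAlgebra.Projectivization
open Pool.Agent.Helper10.UC (PP)

noncomputable section

namespace Pool.Agent.H944R2

theorem hd_congr {E : Type*} [NormedAddCommGroup E] [NormedSpace ℂ E] {f g : ℂ → E} {f' g' : E}
    {x : ℂ} (h : HasDerivAt f f' x) (hf : ∀ s, f s = g s) (hg : f' = g') : HasDerivAt g g' x := by
  have : f = g := funext hf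
  rw [← this, ← hg]
  exact h

/-- immersivity of `vec`, in a curve form -/
theorem vec_imm {x : ℂ} (hx : x ≠ 0) {u : Fin 3 → ℂ} {k : Fin 3} (hk : u k ≠ 0)
    (a : ℂ) (U : ℂ → Fin 3 → ℂ) (b : Fin 3 → ℂ) (hU0 : U 0 = u)
    (hU : ∀ k, HasDerivAt (fun s => U s k) (b k) 0)
    (h : ∀ p : Ix, HasDerivAt (fun s : ℂ => vec (x + s * a) (U s) p) 0 0) : a = 0 ∧ b = 0 := by
  have hd : ∀ (k : Fin 3) (p : J4), b k * cE (ga k * x) p + u k * (ga k * a * deriv cE (ga k * x) p) = 0 := by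
    intro k p
    have h0 : HasDerivAt (fun s : ℂ => ga k * (x + s * a)) (ga k * a) 0 := by
      have h1 : HasDerivAt (fun s : ℂ => x + s * a) a 0 := by
        simpa using ((hasDerivAt_id (0 : ℂ)).mul_const a).const_add x
      exact h1.const_mul (ga k)
    have h1 : HasDerivAt cE (deriv cE (ga k * (x + 0 * a))) (ga k * (x + 0 * a)) := by
      rw [zero_mul, add_zero]
      exact (cE_analytic (mul_ne_zero (ga_ne k) hx)).differentiableAt.hasDerivAt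
    have h2 : HasDerivAt (fun s : ℂ => cE (ga k * (x + s * a)))
        ((ga k * a) • deriv cE (ga k * (x + 0 * a))) 0 :=
      HasDerivAt.scomp (g₁ := cE) (h := fun s : ℂ => ga k * (x + s * a)) 0 h1 h0
    have h3 : HasDerivAt (fun s : ℂ => cE (ga k * (x + s * a)) p)
        (ga k * a * deriv cE (ga k * (x + 0 * a)) p) 0 := (hasDerivAt_pi.1 h2) p
    have h4 := (hU k).mul h3
    have h5 := h4.unique (h (k, p))
    rw [hU0, zero_mul, add_zero] at h5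
    exact h5
  have ha : a = 0 := by
    by_contra hane
    have h1 := hd k
    apply cE_imm (mul_ne_zero (ga_ne k) hx) (-(b k) / (u k * (ga k * a)))
    funext p
    simp only [Pi.smul_apply, smul_eq_mul]
    have h2 := h1 p
    have h3 := ga_ne k
    field_simp
    linear_combination h2
  refine ⟨ha, ?_⟩
  funext k
  obtain ⟨p, hp⟩ := Function.ne_iff.1 (cE_ne (mul_ne_zero (ga_ne k) hx))
  have := hd k p
  rw [ha, mul_zero, zero_mul, mul_zero, add_zero] at this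
  rcases mul_eq_zero.1 this with h | h
  · exact h
  · exact absurd h hp

/-- chart `W ≠ 0` -/
def psA (q : ℂ × (Fin 3 → ℂ)) : EE :=
  ((q.2 0 ^ 2 * q.2 2 + q.2 1 ^ 3) / q.2 2 ^ 3, vec q.1 q.2)

theorem psA_mem {q : ℂ × (Fin 3 → ℂ)} (h1 : q.1 ≠ 0) (h2 : q.2 2 ≠ 0) : psA q ∈ affCone XX := by
  refine mem_cone.2 ⟨q.1, q.2, h1, ?_, ?_, rfl⟩
  · intro h; rw [h] at h2; exact h2 rfl
  · unfold Cub psA
    field_simp

theorem snd_analytic (k : Fin 3) (q : ℂ × (Fin 3 → ℂ)) :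
    AnalyticAt ℂ (fun q : ℂ × (Fin 3 → ℂ) => q.2 k) q :=
  ((ContinuousLinearMap.proj (R := ℂ) (φ := fun _ : Fin 3 => ℂ) k).comp
    (ContinuousLinearMap.snd ℂ ℂ (Fin 3 → ℂ))).analyticAt q

theorem psA_analytic {q : ℂ × (Fin 3 → ℂ)} (h1 : q.1 ≠ 0) (h2 : q.2 2 ≠ 0) :
    AnalyticAt ℂ psA q := by
  refine AnalyticAt.prod ?_ (vec_analytic h1 q.2)
  exact ((((snd_analytic 0 q).pow 2).mul (snd_analytic 2 q)).add ((snd_analytic 1 q).pow 3)).div
    ((snd_analytic 2 q).pow 3) (pow_ne_zero 3 h2)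

theorem psA_inj {q : ℂ × (Fin 3 → ℂ)} (h1 : q.1 ≠ 0) (h2 : q.2 2 ≠ 0) :
    Function.Injective (fderiv ℂ psA q) := by
  refine (injective_iff_map_eq_zero (fderiv ℂ psA q)).2 ?_
  rintro ⟨a, b⟩ h
  have h3 : HasFDerivAt psA (fderiv ℂ psA q) q := (psA_analytic h1 h2).differentiableAt.hasFDerivAt
  have h4 : HasDerivAt (fun s : ℂ => q + s • ((a, b) : ℂ × (Fin 3 → ℂ))) (a, b) 0 := by
    simpa using ((hasDerivAt_id (0 : ℂ)).smul_const ((a, b) : ℂ × (Fin 3 → ℂ))).const_add q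
  have h5 : HasDerivAt (fun s : ℂ => psA (q + s • ((a, b) : ℂ × (Fin 3 → ℂ)))) 0 0 := by
    have h3' : HasFDerivAt psA (fderiv ℂ psA q) (q + (0 : ℂ) • ((a, b) : ℂ × (Fin 3 → ℂ))) := by
      rw [zero_smul, add_zero]; exact h3
    have := h3'.comp_hasDerivAt (0 : ℂ) h4
    rw [h] at this
    exact this
  have h6 : HasDerivAt (fun s : ℂ => (psA (q + s • ((a, b) : ℂ × (Fin 3 → ℂ)))).2) 0 0 := by
    exact hd_congr ((hasFDerivAt_snd (𝕜 := ℂ)
      (p := psA (q + (0 : ℂ) • ((a, b) : ℂ × (Fin 3 → ℂ))))).comp_hasDerivAt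
      (0 : ℂ) h5) (fun s => rfl) (by simp)
  have h7 := vec_imm h1 h2 a (fun s => q.2 + s • b) b (by simp) (fun k => by
    simpa using ((hasDerivAt_id (0 : ℂ)).mul_const (b k)).const_add (q.2 k)) (fun p => by
    have := (hasDerivAt_pi.1 h6) p
    simpa [psA] using this)
  exact Prod.ext h7.1 h7.2

/-- the analytic square root near `1` -/
def rt (z : ℂ) : ℂ := (1 + z) ^ (2⁻¹ : ℂ)

theorem rt_sq (z : ℂ) : rt z ^ 2 = 1 + z := by
  rw [rt, ← Complex.cpow_nat_mul]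
  simp

theorem rt_zero : rt 0 = 1 := by simp [rt]

theorem rt_analytic {z : ℂ} (hz : 0 < (1 + z).re) : AnalyticAt ℂ rt z := by
  unfold rt
  have h1 : AnalyticAt ℂ (fun z : ℂ => 1 + z) z := analyticAt_const.add analyticAt_id
  exact h1.cpow analyticAt_const (Or.inl hz)

theorem rt_of_sq {w : ℂ} (hw : 0 < w.re) : rt (w ^ 2 - 1) = w := by
  rw [rt, add_sub_cancel]
  exact Complex.sq_cpow_two_inv hw

/-- chart at infinity -/
def psB (q : ℂ × (ℂ × (ℂ × ℂ))) : EE :=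
  (q.2.2.2, vec q.1 ![q.2.1 * rt (q.2.2.2 * q.2.2.1 ^ 6), -(q.2.1 * q.2.2.1), q.2.1 * q.2.2.1 ^ 3])

theorem psB_mem {q : ℂ × (ℂ × (ℂ × ℂ))} (h1 : q.1 ≠ 0) (h2 : q.2.1 ≠ 0)
    (h3 : rt (q.2.2.2 * q.2.2.1 ^ 6) ≠ 0) : psB q ∈ affCone XX := by
  refine mem_cone.2 ⟨q.1, _, h1, ?_, ?_, rfl⟩
  · intro h
    have := congrFun h 0
    exact mul_ne_zero h2 h3 this
  · change (q.2.1 * rt (q.2.2.2 * q.2.2.1 ^ 6)) ^ 2 * (q.2.1 * q.2.2.1 ^ 3)
      + (-(q.2.1 * q.2.2.1)) ^ 3 = q.2.2.2 * (q.2.1 * q.2.2.1 ^ 3) ^ 3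
    have := rt_sq (q.2.2.2 * q.2.2.1 ^ 6)
    linear_combination (q.2.1 ^ 3 * q.2.2.1 ^ 3) * this

theorem psB_analytic {q : ℂ × (ℂ × (ℂ × ℂ))} (h1 : q.1 ≠ 0)
    (h3 : 0 < (1 + q.2.2.2 * q.2.2.1 ^ 6).re) : AnalyticAt ℂ psB q := by
  have a1 : AnalyticAt ℂ (fun q : ℂ × (ℂ × (ℂ × ℂ)) => q.1) q := analyticAt_fst
  have a2 : AnalyticAt ℂ (fun q : ℂ × (ℂ × (ℂ × ℂ)) => q.2.1) q :=
    ((ContinuousLinearMap.fst ℂ ℂ (ℂ × ℂ)).comp
      (ContinuousLinearMap.snd ℂ ℂ (ℂ × (ℂ × ℂ)))).analyticAt q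
  have a3 : AnalyticAt ℂ (fun q : ℂ × (ℂ × (ℂ × ℂ)) => q.2.2.1) q :=
    (((ContinuousLinearMap.fst ℂ ℂ ℂ).comp (ContinuousLinearMap.snd ℂ ℂ (ℂ × ℂ))).comp
      (ContinuousLinearMap.snd ℂ ℂ (ℂ × (ℂ × ℂ)))).analyticAt q
  have a4 : AnalyticAt ℂ (fun q : ℂ × (ℂ × (ℂ × ℂ)) => q.2.2.2) q :=
    (((ContinuousLinearMap.snd ℂ ℂ ℂ).comp (ContinuousLinearMap.snd ℂ ℂ (ℂ × ℂ))).comp
      (ContinuousLinearMap.snd ℂ ℂ (ℂ × (ℂ × ℂ)))).analyticAt q
  have a5 : AnalyticAt ℂ (fun q : ℂ × (ℂ × (ℂ × ℂ)) => q.2.2.2 * q.2.2.1 ^ 6) q := a4.mul (a3.pow 6)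
  have a6 : AnalyticAt ℂ (fun q : ℂ × (ℂ × (ℂ × ℂ)) => rt (q.2.2.2 * q.2.2.1 ^ 6)) q :=
    AnalyticAt.comp (g := rt) (f := fun q : ℂ × (ℂ × (ℂ × ℂ)) => q.2.2.2 * q.2.2.1 ^ 6) (x := q)
      (rt_analytic h3) a5
  have a7 : AnalyticAt ℂ (fun q : ℂ × (ℂ × (ℂ × ℂ)) =>
      ((q.1, ![q.2.1 * rt (q.2.2.2 * q.2.2.1 ^ 6), -(q.2.1 * q.2.2.1), q.2.1 * q.2.2.1 ^ 3]) :
        ℂ × (Fin 3 → ℂ))) q := by
    refine a1.prod ?_
    rw [analyticAt_pi_iff]
    intro k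
    fin_cases k
    · exact a2.mul a6
    · exact (a2.mul a3).neg
    · exact a2.mul (a3.pow 3)
  refine a4.prod ?_
  exact AnalyticAt.comp (g := fun p : ℂ × (Fin 3 → ℂ) => vec p.1 p.2) (f := fun q : ℂ × (ℂ × (ℂ × ℂ)) =>
      ((q.1, ![q.2.1 * rt (q.2.2.2 * q.2.2.1 ^ 6), -(q.2.1 * q.2.2.1), q.2.1 * q.2.2.1 ^ 3]) :
        ℂ × (Fin 3 → ℂ))) (x := q) (vec_analytic h1 _) a7

theorem psB_inj {x l t : ℂ} (hx : x ≠ 0) (hl : l ≠ 0) :
    Function.Injective (fderiv ℂ psB (x, (l, (0, t)))) := by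
  set q : ℂ × (ℂ × (ℂ × ℂ)) := (x, (l, (0, t))) with hq
  have hre : 0 < (1 + q.2.2.2 * q.2.2.1 ^ 6).re := by simp [hq]
  have han := psB_analytic (q := q) hx hre
  refine (injective_iff_map_eq_zero (fderiv ℂ psB q)).2 ?_
  rintro ⟨a, m, c, e⟩ h
  set v : ℂ × (ℂ × (ℂ × ℂ)) := (a, (m, (c, e))) with hv
  have h3 : HasFDerivAt psB (fderiv ℂ psB q) q := han.differentiableAt.hasFDerivAt
  have h4 : HasDerivAt (fun s : ℂ => q + s • v) v 0 := by
    simpa using ((hasDerivAt_id (0 : ℂ)).smul_const v).const_add q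
  have h5 : HasDerivAt (fun s : ℂ => psB (q + s • v)) 0 0 := by
    have h3' : HasFDerivAt psB (fderiv ℂ psB q) (q + (0 : ℂ) • v) := by
      rw [zero_smul, add_zero]; exact h3
    have := h3'.comp_hasDerivAt (0 : ℂ) h4
    rw [h] at this
    exact this
  have h6 : HasDerivAt (fun s : ℂ => (psB (q + s • v)).2) 0 0 := by
    exact hd_congr ((hasFDerivAt_snd (𝕜 := ℂ) (p := psB (q + (0 : ℂ) • v))).comp_hasDerivAt
      (0 : ℂ) h5) (fun s => rfl) (by simp)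
  have h7 : HasDerivAt (fun s : ℂ => (psB (q + s • v)).1) 0 0 := by
    exact hd_congr ((hasFDerivAt_fst (𝕜 := ℂ) (p := psB (q + (0 : ℂ) • v))).comp_hasDerivAt
      (0 : ℂ) h5) (fun s => rfl) (by simp)
  have he : e = 0 := by
    have h8 : HasDerivAt (fun s : ℂ => t + s * e) e 0 := by
      simpa using ((hasDerivAt_id (0 : ℂ)).mul_const e).const_add t
    have h9 : (fun s : ℂ => (psB (q + s • v)).1) = fun s => t + s * e := by
      funext s
      simp [psB, hq, hv]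
    rw [h9] at h7
    exact h8.unique h7
  let U : ℂ → Fin 3 → ℂ := fun s =>
    ![(l + s * m) * rt ((t + s * e) * (s * c) ^ 6), -((l + s * m) * (s * c)), (l + s * m) * (s * c) ^ 3]
  have d1 : HasDerivAt (fun s : ℂ => l + s * m) m 0 := by
    simpa using ((hasDerivAt_id (0 : ℂ)).mul_const m).const_add l
  have d2 : HasDerivAt (fun s : ℂ => s * c) c 0 := by
    simpa using (hasDerivAt_id (0 : ℂ)).mul_const c
  have d3 : HasDerivAt (fun s : ℂ => t + s * e) e 0 := by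
    simpa using ((hasDerivAt_id (0 : ℂ)).mul_const e).const_add t
  have d4 : HasDerivAt (fun s : ℂ => (t + s * e) * (s * c) ^ 6) 0 0 := by
    exact hd_congr (d3.mul (d2.pow 6)) (fun s => rfl) (by simp)
  have d5 : HasDerivAt (fun s : ℂ => rt ((t + s * e) * (s * c) ^ 6)) 0 0 := by
    have h10 : HasDerivAt rt (deriv rt 0) 0 :=
      (rt_analytic (z := 0) (by simp)).differentiableAt.hasDerivAt
    have h10' : HasDerivAt rt (deriv rt 0) ((t + (0 : ℂ) * e) * ((0 : ℂ) * c) ^ 6) := by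
      simpa using h10
    exact hd_congr (HasDerivAt.comp (h₂ := rt) (h := fun s : ℂ => (t + s * e) * (s * c) ^ 6) 0
      h10' d4) (fun s => rfl) (by simp)
  have hU : ∀ k, HasDerivAt (fun s => U s k) ((![m, -(l * c), 0] : Fin 3 → ℂ) k) 0 := by
    intro k
    fin_cases k
    · exact hd_congr (d1.mul d5) (fun s => rfl) (by simp [rt_zero])
    · exact hd_congr (d1.mul d2).neg (fun s => rfl) (by simp)
    · exact hd_congr (d1.mul (d2.pow 3)) (fun s => rfl) (by simp)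
  have hU0 : U 0 = ![l, 0, 0] := by
    funext k
    fin_cases k <;> simp [U, rt_zero]
  have h11 := vec_imm (u := ![l, 0, 0]) (k := 0) hx hl a U _ hU0 hU (fun p => by
    have := (hasDerivAt_pi.1 h6) p
    simpa [psB, hq, hv, U] using this)
  obtain ⟨ha, hb⟩ := h11
  have hm : m = 0 := by
    have := congrFun hb 0
    exact this
  have hc : c = 0 := by
    have := congrFun hb 1
    have h12 : -(l * c) = 0 := this
    rcases mul_eq_zero.1 (neg_eq_zero.1 h12) with h | h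
    · exact absurd h hl
    · exact h
  rw [hv, ha, hm, hc, he]
  rfl

end Pool.Agent.H944R2
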