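import Pool.Agent.H944R2.XSub2

/-! The threefold is a complex submanifold. -/

open Filter Topology Set
open scoped LinearAlgebra.Projectivization
open Pool.Agent.Helper10.UC (PP)

noncomputable section

namespace Pool.Agent.H944R2

theorem card_Ix : Fintype.card Ix = 12 := by
  simp [Ix, J4]

theorem psA_eq {x : ℂ} {u : Fin 3 → ℂ} {t : ℂ} (h2 : u 2 ≠ 0) (hc : Cub u t) :
    psA (x, u) = (t, vec x u) := by
  refine Prod.ext ?_ rfl
  change (u 0 ^ 2 * u 2 + u 1 ^ 3) / u 2 ^ 3 = t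
  rw [show u 0 ^ 2 * u 2 + u 1 ^ 3 = t * u 2 ^ 3 from hc]
  field_simp

/-- recovering the parameters at infinity -/
theorem psB_eq {x : ℂ} {u : Fin 3 → ℂ} {t l s : ℂ} (hc : Cub u t) (hl : l ≠ 0)
    (hl2 : l ^ 2 = u 0 ^ 2 - t * u 2 ^ 2) (hs : s = - u 1 / l) (hre : 0 < (u 0 / l).re) :
    psB (x, (l, (s, t))) = (t, vec x u) ∧ rt (t * s ^ 6) = u 0 / l := by
  have h1 : u 2 * l ^ 2 = - u 1 ^ 3 := by
    rw [hl2]
    have := hc
    unfold Cub at this
    linear_combination this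
  have h2 : l * s ^ 3 = u 2 := by
    rw [hs]
    field_simp
    linear_combination -h1
  have h3 : t * s ^ 6 = (u 0 / l) ^ 2 - 1 := by
    have h4 : s ^ 6 = (u 2 / l) ^ 2 := by
      rw [← h2]
      field_simp
    rw [h4]
    field_simp
    linear_combination hl2
  have h5 : rt (t * s ^ 6) = u 0 / l := by
    rw [h3]
    exact rt_of_sq hre
  refine ⟨?_, h5⟩
  refine Prod.ext rfl ?_
  change vec x _ = vec x u
  congr 1
  funext k
  fin_cases k
  · change l * rt (t * s ^ 6) = u 0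
    rw [h5]; field_simp
  · change -(l * s) = u 1
    rw [hs]; field_simp
  · exact h2

theorem XX_submanifold : IsComplexSubmanifold XX 3 := by
  intro v hv
  obtain ⟨x₀, u₀, hx₀, hu₀, hc₀, hvec⟩ := mem_cone.1 hv
  obtain ⟨t₀, v₂⟩ := v
  simp only at hc₀ hvec
  subst hvec
  obtain ⟨X, U, hX, hU, hev, -⟩ := cone_lift hx₀ hu₀ hc₀
  have hfst : Tendsto (fun z : EE => z.1) (𝓝[affCone XX] (t₀, vec x₀ u₀)) (𝓝 t₀) :=
    (continuous_fst.tendsto (t₀, vec x₀ u₀)).mono_left nhdsWithin_le_nhds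
  have hUk : ∀ k, Tendsto (fun z => U z k) (𝓝[affCone XX] (t₀, vec x₀ u₀)) (𝓝 (u₀ k)) :=
    fun k => (tendsto_pi_nhds.1 hU) k
  by_cases h2 : u₀ 2 = 0
  · have h0 : u₀ 0 ≠ 0 := Cub_ne hu₀ hc₀ h2
    have h1 : u₀ 1 = 0 := by
      unfold Cub at hc₀
      rw [h2] at hc₀
      have : u₀ 1 ^ 3 = 0 := by linear_combination hc₀
      exact pow_eq_zero_iff (by norm_num) |>.1 this
    have hp0 : psB (x₀, (u₀ 0, (0, t₀))) = (t₀, vec x₀ u₀) := by
      refine Prod.ext rfl ?_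
      change vec x₀ _ = vec x₀ u₀
      congr 1
      funext k
      fin_cases k
      · change u₀ 0 * rt (t₀ * 0 ^ 6) = u₀ 0
        simp [rt_zero]
      · change -(u₀ 0 * 0) = u₀ 1
        simp [h1]
      · change u₀ 0 * 0 ^ 3 = u₀ 2
        simp [h2]
    let lam : EE → ℂ := fun z => U z 0 * rt (-(z.1 * U z 2 ^ 2 / U z 0 ^ 2))
    have hq : Tendsto (fun z => -(z.1 * U z 2 ^ 2 / U z 0 ^ 2)) (𝓝[affCone XX] (t₀, vec x₀ u₀))
        (𝓝 0) := by
      have := ((hfst.mul ((hUk 2).pow 2)).div ((hUk 0).pow 2) (pow_ne_zero 2 h0)).neg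
      rw [h2] at this
      simpa using this
    have hrt : Tendsto (fun z => rt (-(z.1 * U z 2 ^ 2 / U z 0 ^ 2)))
        (𝓝[affCone XX] (t₀, vec x₀ u₀)) (𝓝 1) := by
      have h3 : ContinuousAt rt 0 := (rt_analytic (z := 0) (by simp)).continuousAt
      have h4 := h3.tendsto.comp hq
      rwa [rt_zero] at h4
    have hlam : Tendsto lam (𝓝[affCone XX] (t₀, vec x₀ u₀)) (𝓝 (u₀ 0)) := by
      have := (hUk 0).mul hrt
      rwa [mul_one] at this
    let ss : EE → ℂ := fun z => - U z 1 / lam z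
    have hss : Tendsto ss (𝓝[affCone XX] (t₀, vec x₀ u₀)) (𝓝 0) := by
      have := (hUk 1).neg.div hlam h0
      rwa [h1, neg_zero, zero_div] at this
    have key := zero_of_param (affCone XX) psB (x₀, (u₀ 0, (0, t₀)))
      (psB_analytic hx₀ (by simp)) (psB_inj hx₀ h0) ?_ (fun z => (X z, (lam z, (ss z, z.1)))) ?_ ?_
    · rw [hp0] at key
      obtain ⟨G, i1, i2, i3, g, hg1, hg2, hg3, hg4⟩ := key
      refine ⟨G, i1, i2, i3, g, ?_, hg2, hg3, hg4⟩
      rw [card_Ix]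
      have e1 : Module.finrank ℂ (ℂ × (ℂ × (ℂ × ℂ))) = 4 := by simp
      have e2 : Module.finrank ℂ EE = 13 := by simp [EE]
      rw [e1, e2] at hg1
      omega
    · have c1 : ContinuousAt (fun q : ℂ × (ℂ × (ℂ × ℂ)) => q.1) (x₀, (u₀ 0, (0, t₀))) := by fun_prop
      have c2 : ContinuousAt (fun q : ℂ × (ℂ × (ℂ × ℂ)) => q.2.1) (x₀, (u₀ 0, (0, t₀))) := by
        fun_prop
      have c3 : ContinuousAt (fun q : ℂ × (ℂ × (ℂ × ℂ)) => 1 + q.2.2.2 * q.2.2.1 ^ 6)
        (x₀, (u₀ 0, (0, t₀))) := by fun_prop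
      have hne : (1 : ℂ) + t₀ * 0 ^ 6 ≠ 0 := by simp
      filter_upwards [c1.eventually_ne hx₀, c2.eventually_ne h0, c3.eventually_ne hne]
        with q e1 e2 e3
      refine psB_mem e1 e2 ?_
      intro h
      have := rt_sq (q.2.2.2 * q.2.2.1 ^ 6)
      rw [h] at this
      apply e3
      rw [← this]; simp
    · rw [hp0]
      exact hX.prodMk_nhds (hlam.prodMk_nhds (hss.prodMk_nhds hfst))
    · rw [hp0]
      have hratio : Tendsto (fun z => (U z 0 / lam z).re) (𝓝[affCone XX] (t₀, vec x₀ u₀))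
          (𝓝 (u₀ 0 / u₀ 0).re) :=
        (Complex.continuous_re.tendsto _).comp ((hUk 0).div hlam h0)
      have hpos : (0 : ℝ) < (u₀ 0 / u₀ 0).re := by rw [div_self h0]; simp
      filter_upwards [hev, hlam.eventually_ne h0, (hUk 0).eventually_ne h0,
        hratio.eventually (lt_mem_nhds hpos)] with z hz hl hz0 hre
      obtain ⟨-, hc, hz2⟩ := hz
      have hl2 : lam z ^ 2 = U z 0 ^ 2 - z.1 * U z 2 ^ 2 := by
        change (U z 0 * rt _) ^ 2 = _
        rw [mul_pow, rt_sq]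
        field_simp
        ring
      have := (psB_eq (x := X z) hc hl hl2 (rfl : ss z = - U z 1 / lam z) hre).1
      rw [this]
      exact Prod.ext rfl hz2.symm
  · have hp0 : psA (x₀, u₀) = (t₀, vec x₀ u₀) := psA_eq h2 hc₀
    have key := zero_of_param (affCone XX) psA (x₀, u₀)
      (psA_analytic hx₀ h2) (psA_inj hx₀ h2) ?_ (fun z => (X z, U z)) ?_ ?_
    · rw [hp0] at key
      obtain ⟨G, i1, i2, i3, g, hg1, hg2, hg3, hg4⟩ := key
      refine ⟨G, i1, i2, i3, g, ?_, hg2, hg3, hg4⟩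
      rw [card_Ix]
      have e1 : Module.finrank ℂ (ℂ × (Fin 3 → ℂ)) = 4 := by simp
      have e2 : Module.finrank ℂ EE = 13 := by simp [EE]
      rw [e1, e2] at hg1
      omega
    · have c1 : ContinuousAt (fun q : ℂ × (Fin 3 → ℂ) => q.1) (x₀, u₀) := by fun_prop
      have c2 : ContinuousAt (fun q : ℂ × (Fin 3 → ℂ) => q.2 2) (x₀, u₀) := by fun_prop
      filter_upwards [c1.eventually_ne hx₀, c2.eventually_ne h2] with q e1 e2
      exact psA_mem e1 e2
    · rw [hp0]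
      exact hX.prodMk_nhds hU
    · rw [hp0]
      filter_upwards [hev, (hUk 2).eventually_ne h2] with z hz hz2
      obtain ⟨-, hc, hz3⟩ := hz
      rw [psA_eq hz2 hc]
      exact Prod.ext rfl hz3.symm

end Pool.Agent.H944R2
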